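import Pool.Agent.Run7.h391.Dp

/-!
From a list of checked certificates to a lower bound of the expected meeting time.
-/

namespace Run7.h391

open Finset MeasureTheory
open scoped ENNReal

/-- all conditions on a certificate -/
def Good (S : ℝ) (T : ℕ → List ℕ) (c : Cert) : Prop :=
  certOK c (T c.g) = true ∧ TableOK S c.N c.m (T c.g) ∧ (c.g = 1 ∨ c.g = 2) ∧ c.N * c.g = 64 ∧ 0 < c.m
    ∧ c.g * c.m ≤ 256

theorem Good.lam_length {S : ℝ} {T : ℕ → List ℕ} {c : Cert} (h : Good S T c) : c.lam.length = c.m + 1 := by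
  obtain ⟨-, -, -, -, h5, -⟩ := cert_unfold h.1
  obtain ⟨h7, h8, -, -⟩ := rowsLoop_spec c _ _ _ h5
  omega

/-- the event of a certificate -/
noncomputable def toEv (S : ℝ) (c : Cert) : Ev :=
  ⟨c.x, c.y, c.g * c.m, fun i => (costZ c i : ℝ) * (2 / (4096 * S))⟩

theorem bar_smul (M : ℕ) (a : ℝ) (f : ℕ → ℝ) (x : ℕ) : bar M (fun i => a * f i) x = a * bar M f x := by
  unfold bar
  rw [ev_mul_left]

theorem event_bound {n K w M0 : ℕ} (D : Measure (Schedule n)) [IsProbabilityMeasure D] {S : ℝ} (hS : 0 < S)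
    {T : ℕ → List ℕ} {c : Cert} (h : Good S T c) (hM : 0 < M0) (hNM : 64 * M0 ≤ n) (hw : 0 < w)
    (hwn : 2 * w + 2 ≤ n) (hT : 256 * M0 ≤ K) :
    ∑ u, pw D K u * bar M0 (toEv S c).c (hc w ((toEv S c).tau * M0) u)
      ≤ (((toEv S c).x : ℝ) + (toEv S c).y) * (missProb D ((toEv S c).tau * M0) + eta n K w (64 * M0)) := by
  obtain ⟨h1, h2, hg, hN, hm, hgm⟩ := h
  have hg0 : 0 < c.g := by rcases hg with h | h <;> omega
  have hN16 : 16 ≤ c.N := by
    rcases hg with h | h <;> rw [h] at hN <;> omega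
  have e1 : c.N * (c.g * M0) = 64 * M0 := by rw [← hN]; ring
  have e2 : c.m * (c.g * M0) = c.g * c.m * M0 := by ring
  have hk := cert_bound (K := K) D hS hm h1 h2 (M := c.g * M0) (w := w) hN16 (Nat.mul_pos hg0 hM) (by omega) hw hwn
    (by rw [e2]; exact (Nat.mul_le_mul_right _ hgm).trans hT)
  rw [e1, e2] at hk
  have hgR : (0 : ℝ) < c.g := by exact_mod_cast hg0
  have hNR : (c.N : ℝ) * c.g = 64 := by exact_mod_cast hN
  have hNR0 : (0 : ℝ) < c.N := by exact_mod_cast (by omega : 0 < c.N)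
  have h3 : (toEv S c).c = fun i => (((c.x : ℝ) + c.y) * (2 / (c.N : ℝ) ^ 2)) * bar c.g (lamR S c) i := by
    funext i
    show (costZ c i : ℝ) * (2 / (4096 * S)) = _
    unfold costZ bar ev lamR
    rw [← sum_div]
    push_cast
    have h4 : (4096 : ℝ) = ((c.N : ℝ) * c.g) ^ 2 := by rw [hNR]; norm_num
    rw [h4]
    field_simp
  have h5 : ∀ u : Fin K → Fin n, pw D K u * bar M0 (toEv S c).c (hc w ((toEv S c).tau * M0) u)
      = (((c.x : ℝ) + c.y) / (c.N : ℝ) ^ 2) * (2 * (pw D K u * bar (c.g * M0) (lamR S c) (hc w (c.g * c.m * M0) u))) := by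
    intro u
    rw [h3, bar_smul, bar_mul hM]
    show pw D K u * ((((c.x : ℝ) + c.y) * (2 / (c.N : ℝ) ^ 2)) * bar M0 (bar c.g (lamR S c)) (hc w (c.g * c.m * M0) u)) = _
    ring
  rw [sum_congr rfl fun u _ => h5 u, ← mul_sum, ← mul_sum]
  show _ ≤ ((c.x : ℝ) + c.y) * (missProb D (c.g * c.m * M0) + eta n K w (64 * M0))
  have h6 : ((c.x : ℝ) + c.y) / (c.N : ℝ) ^ 2 * (2 * ∑ u, pw D K u * bar (c.g * M0) (lamR S c) (hc w (c.g * c.m * M0) u))
      ≤ ((c.x : ℝ) + c.y) / (c.N : ℝ) ^ 2 * ((c.N : ℝ) ^ 2 * (missProb D (c.g * c.m * M0) + eta n K w (64 * M0))) :=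
    mul_le_mul_of_nonneg_left hk (by positivity)
  refine h6.trans (le_of_eq ?_)
  field_simp

/-- the representing periods fit together -/
def chainOK (Wd : ℕ) : ℕ → List Cert → Bool
  | _, [] => true
  | pos, c :: l => (pos + c.x == c.g * c.m * Wd) && chainOK Wd (pos + c.x + c.y) l

theorem chainOK_spec (S : ℝ) (Wd : ℕ) : ∀ (l : List Cert) (pos : ℕ), chainOK Wd pos l = true →
    Chain Wd pos (l.map (toEv S)) := by
  intro l
  induction l with
  | nil => intro pos _; trivial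
  | cons c l ih =>
    intro pos h
    unfold chainOK at h
    rw [Bool.and_eq_true, beq_iff_eq] at h
    exact ⟨h.1, ih _ h.2⟩

/-- sum of the lengths -/
def xyS : List Cert → ℕ
  | [] => 0
  | c :: l => c.x + c.y + xyS l

/-- sum of squares -/
def yyS : List Cert → ℕ
  | [] => 0
  | c :: l => c.y ^ 2 + yyS l

theorem xyS_eq (S : ℝ) (l : List Cert) : ((l.map (toEv S)).map fun e => e.x + e.y).sum = xyS l := by
  induction l with
  | nil => rfl
  | cons c l ih =>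
    rw [List.map_cons, List.map_cons, List.sum_cons, ih]; rfl

theorem yyS_eq (S : ℝ) (l : List Cert) : ((l.map (toEv S)).map fun e => (e.y : ℝ) ^ 2).sum = yyS l := by
  induction l with
  | nil => simp [yyS]
  | cons c l ih =>
    rw [List.map_cons, List.map_cons, List.sum_cons, ih]
    show (c.y : ℝ) ^ 2 + (yyS l : ℝ) = ((c.y ^ 2 + yyS l : ℕ) : ℝ)
    push_cast; ring

theorem cost_sum (S : ℝ) (l : List Cert) (i : ℕ → ℕ) :
    ((l.map (toEv S)).map fun e => e.c (i e.tau)).sum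
      = ((l.map fun c => costZ c (i (c.g * c.m))).sum : ℤ) * (2 / (4096 * S)) := by
  induction l with
  | nil => simp
  | cons c l ih =>
    rw [List.map_cons, List.map_cons, List.sum_cons, ih, List.map_cons, List.sum_cons]
    show (costZ c (i (c.g * c.m)) : ℝ) * (2 / (4096 * S)) + _ = _
    push_cast; ring

/-- the bound for fixed parameters -/
theorem finite_bound {n w M' : ℕ} (D : Measure (Schedule n)) [IsProbabilityMeasure D] {S : ℝ} (hS : 0 < S)
    {T : ℕ → List ℕ} (l : List Cert) (hl : ∀ c ∈ l, Good S T c) (hM : 0 < M') (hNM : 6400 * M' ≤ n) (hw : 0 < w)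
    (hwn : 2 * w + 2 ≤ n) (y0 : ℕ) (hch : chainOK 100 y0 l = true) {V : ℤ} (hdp : dpRun V l 0 [0] = true) :
    (M' : ℝ) * (y0 + V * (2 / (4096 * S)) - xyS l * eta n (25600 * M') w (6400 * M'))
      - (M' : ℝ) ^ 2 * ((y0 : ℝ) ^ 2 + yyS l) / (2 * n)
      ≤ ∑ k ∈ range ((y0 + xyS l) * M'), missProb D k := by
  have h1 := combine (n := n) (K := 25600 * M') (w := w) (Wd := 100) (M' := M') (by omega) (by omega) D
    (eta n (25600 * M') w (6400 * M')) y0 (l.map (toEv S)) (chainOK_spec S 100 l y0 hch)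
    (by
      intro e he
      obtain ⟨c, hc, rfl⟩ := List.mem_map.1 he
      have := event_bound (K := 25600 * M') D hS (hl c hc) (M0 := 100 * M') (w := w) (by omega) (by omega) hw hwn (by omega)
      rwa [show 64 * (100 * M') = 6400 * M' by ring] at this)
    (V := (V : ℝ) * (2 / (4096 * S)))
    (by
      intro i hi
      rw [cost_sum]
      apply mul_le_mul_of_nonneg_right _ (by positivity)
      have h2 := dpRun_spec V hi l 0 [0] 0 rfl (by rw [hi.1]; exact le_refl _) (fun c hc => ⟨(hl c hc).2.2.1, (hl c hc).lam_length⟩) hdp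
      rw [zero_add] at h2
      exact_mod_cast h2)
  rw [xyS_eq, yyS_eq] at h1
  exact h1

theorem eta_small {n : ℕ} (hn : 10 ^ 30 ≤ n) :
    eta n (25600 * (n / 6400)) (n / 1000000) (6400 * (n / 6400)) ≤ 1 / 100000 := by
  have hn0 : (10 : ℝ) ^ 30 ≤ n := by exact_mod_cast hn
  have hnp : (0 : ℝ) < n := by linarith [show (0 : ℝ) < 10 ^ 30 by norm_num]
  set w := n / 1000000 with hw
  set M := n / 6400 with hM
  have hw1 : 1000000 * w ≤ n := Nat.mul_div_le n 1000000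
  have hw2 : n < 1000000 * w + 1000000 := by omega
  have hM1 : 6400 * M ≤ n := Nat.mul_div_le n 6400
  have hM2 : n < 6400 * M + 6400 := by omega
  have hw1' : 1000000 * (w : ℝ) ≤ n := by exact_mod_cast hw1
  have hw2' : (n : ℝ) < 1000000 * w + 1000000 := by exact_mod_cast hw2
  have hM1' : 6400 * (M : ℝ) ≤ n := by exact_mod_cast hM1
  have hM2' : (n : ℝ) < 6400 * M + 6400 := by exact_mod_cast hM2
  have hMp : (0 : ℝ) < M := by linarith [show (6400 : ℝ) < 10 ^ 30 by norm_num]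
  have hwp : (0 : ℝ) < w := by linarith [show (1000000 : ℝ) < 10 ^ 30 by norm_num]
  unfold eta
  have hsub : ((n - 2 * w : ℕ) : ℝ) = n - 2 * w := by
    rw [Nat.cast_sub (by omega)]; push_cast; ring
  rw [hsub]
  have hD : (0.9 : ℝ) * n ≤ (n : ℝ) - 2 * w - 1 := by linarith [show (100 : ℝ) < 10 ^ 30 by norm_num]
  have hDp : (0 : ℝ) < (n : ℝ) - 2 * w - 1 := by linarith
  have h1 : 1 / ((n : ℝ) - 2 * w - 1) - 1 / ((6400 * M : ℕ) : ℝ) ≤ (2 * w + 1) / (n * ((n : ℝ) - 2 * w - 1)) := by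
    have h2 : 1 / (n : ℝ) ≤ 1 / ((6400 * M : ℕ) : ℝ) := by
      apply one_div_le_one_div_of_le
      · push_cast; positivity
      · push_cast; exact hM1'
    have h3 : (2 * w + 1) / (n * ((n : ℝ) - 2 * w - 1)) = 1 / ((n : ℝ) - 2 * w - 1) - 1 / n := by
      field_simp; ring
    rw [h3]; linarith
  have h2 : max 0 (1 / ((n : ℝ) - 2 * w - 1) - 1 / ((6400 * M : ℕ) : ℝ)) ≤ (2 * w + 1) / (n * ((n : ℝ) - 2 * w - 1)) :=
    max_le (by positivity) h1
  have h3 : ((25600 * M : ℕ) : ℝ) ≤ 4 * n := by push_cast; linarith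
  have h4 : ((25600 * M : ℕ) : ℝ) * max 0 (1 / ((n : ℝ) - 2 * w - 1) - 1 / ((6400 * M : ℕ) : ℝ)) ≤ 95 / 10000000 := by
    calc _ ≤ (4 * n) * ((2 * w + 1) / (n * ((n : ℝ) - 2 * w - 1))) :=
          mul_le_mul h3 h2 (le_max_left _ _) (by positivity)
      _ = 4 * (2 * w + 1) / ((n : ℝ) - 2 * w - 1) := by field_simp
      _ ≤ 4 * (2 * w + 1) / (0.9 * n) := div_le_div_of_nonneg_left (by positivity) (by positivity) hD
      _ ≤ 95 / 10000000 := by
        rw [div_le_iff₀ (by positivity)]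
        have : 10000000 * (4 : ℝ) ≤ 10 ^ 30 / 10 ^ 20 := by norm_num
        have : (10 : ℝ) ^ 30 / 10 ^ 20 ≤ n / 10 ^ 20 := by
          apply div_le_div_of_nonneg_right hn0; positivity
        nlinarith
  have h5 : (((25600 * M : ℕ) : ℝ) / w) ^ 2 / n ≤ 1 / 10000000 := by
    have h6 : ((25600 * M : ℕ) : ℝ) / w ≤ 10000000 := by
      rw [div_le_iff₀ hwp]
      linarith [show (10000000000 : ℝ) < 10 ^ 30 by norm_num]
    have h7 : (((25600 * M : ℕ) : ℝ) / w) ^ 2 ≤ 10000000 ^ 2 :=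
      pow_le_pow_left₀ (by positivity) h6 2
    rw [div_le_iff₀ hnp]
    refine h7.trans ?_
    linarith [show (10000000 : ℝ) ^ 2 * 10000000 ≤ 10 ^ 30 by norm_num]
  linarith

/-- the final bound: `q` is any constant below the value of the certificates -/
theorem main_bound {S : ℝ} (hS : 0 < S) {T : ℕ → List ℕ} (l : List Cert) (hl : ∀ c ∈ l, Good S T c)
    (y0 : ℕ) (hch : chainOK 100 y0 l = true) {V : ℤ} (hdp : dpRun V l 0 [0] = true) {q : ℝ}
    (hxy : xyS l ≤ 25600) (hA : y0 + V * (2 / (4096 * S)) ≤ 10 ^ 10)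
    (hq : q + 1 / 10 ^ 10 ≤ (y0 + V * (2 / (4096 * S)) - 256 / 1000) / 6400
      - ((y0 : ℝ) ^ 2 + yyS l) / (2 * 6400 ^ 2)) :
    ∀ n : ℕ, 10 ^ 30 ≤ n → ENNReal.ofReal (q * n) ≤ Pool.Agent.W972.AW.bestTime n := by
  intro n hn
  unfold Pool.Agent.W972.AW.bestTime
  refine le_iInf fun D => le_iInf fun hD => ?_
  have hn0 : (10 : ℝ) ^ 30 ≤ n := by exact_mod_cast hn
  have hnp : (0 : ℝ) < n := by linarith [show (0 : ℝ) < 10 ^ 30 by norm_num]
  have hM1 : 6400 * (n / 6400) ≤ n := Nat.mul_div_le n 6400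
  have hw1 : 1000000 * (n / 1000000) ≤ n := Nat.mul_div_le n 1000000
  have h1 := finite_bound (n := n) (w := n / 1000000) (M' := n / 6400) D hS l hl (by omega) hM1 (by omega)
    (by omega) y0 hch hdp
  have h2 := eta_small hn
  have h2' := eta_nonneg n (25600 * (n / 6400)) (n / 1000000) (6400 * (n / 6400))
  refine le_trans ?_ (mean_ge D ((y0 + xyS l) * (n / 6400)))
  apply ENNReal.ofReal_le_ofReal
  refine le_trans ?_ h1
  set η := eta n (25600 * (n / 6400)) (n / 1000000) (6400 * (n / 6400))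
  have hM2 : n < 6400 * (n / 6400) + 6400 := by omega
  set M := n / 6400
  have hM1' : 6400 * (M : ℝ) ≤ n := by exact_mod_cast hM1
  have hM2' : (n : ℝ) < 6400 * M + 6400 := by exact_mod_cast hM2
  set A : ℝ := y0 + V * (2 / (4096 * S)) with hAd
  have h3 : (xyS l : ℝ) * η ≤ 256 / 1000 := by
    have : (xyS l : ℝ) ≤ 25600 := by exact_mod_cast hxy
    calc (xyS l : ℝ) * η ≤ 25600 * (1 / 100000) := mul_le_mul this h2 h2' (by norm_num)
      _ = _ := by norm_num
  have h4 : (M : ℝ) * (A - 256 / 1000) ≤ M * (A - xyS l * η) :=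
    mul_le_mul_of_nonneg_left (by linarith) (Nat.cast_nonneg _)
  have h5 : (M : ℝ) ^ 2 * ((y0 : ℝ) ^ 2 + yyS l) / (2 * n) ≤ n * (((y0 : ℝ) ^ 2 + yyS l) / (2 * 6400 ^ 2)) := by
    rw [div_le_iff₀ (by positivity)]
    have h6 : (6400 * (M : ℝ)) ^ 2 ≤ (n : ℝ) ^ 2 := pow_le_pow_left₀ (by positivity) hM1' 2
    have h7 : (M : ℝ) ^ 2 ≤ (n : ℝ) ^ 2 / 6400 ^ 2 := by
      rw [le_div_iff₀ (by positivity)]
      nlinarith
    calc (M : ℝ) ^ 2 * ((y0 : ℝ) ^ 2 + yyS l) ≤ (n : ℝ) ^ 2 / 6400 ^ 2 * ((y0 : ℝ) ^ 2 + yyS l) :=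
          mul_le_mul_of_nonneg_right h7 (by positivity)
      _ = _ := by ring
  have h8 : n * ((A - 256 / 1000) / 6400) - n / 10 ^ 10 ≤ (M : ℝ) * (A - 256 / 1000) := by
    have h9 : (M : ℝ) * (A - 256 / 1000) = n * ((A - 256 / 1000) / 6400) - (n / 6400 - M) * (A - 256 / 1000) := by ring
    rw [h9]
    have h10 : (n / 6400 - (M : ℝ)) * (A - 256 / 1000) ≤ n / 10 ^ 10 := by
      have h11 : 0 ≤ n / 6400 - (M : ℝ) := by linarith
      have h12 : n / 6400 - (M : ℝ) ≤ 1 := by linarith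
      have h13 : (n / 6400 - (M : ℝ)) * (A - 256 / 1000) ≤ (n / 6400 - (M : ℝ)) * 10 ^ 10 :=
        mul_le_mul_of_nonneg_left (by linarith) h11
      have h14 : (n / 6400 - (M : ℝ)) * 10 ^ 10 ≤ 1 * 10 ^ 10 := mul_le_mul_of_nonneg_right h12 (by norm_num)
      have h15 : (10 : ℝ) ^ 10 ≤ n / 10 ^ 10 := by
        rw [le_div_iff₀ (by norm_num)]
        linarith [show (10 : ℝ) ^ 10 * 10 ^ 10 ≤ 10 ^ 30 by norm_num]
      linarith
    linarith
  have h16 : q * n + n / 10 ^ 10 ≤ n * ((A - 256 / 1000) / 6400) - n * (((y0 : ℝ) ^ 2 + yyS l) / (2 * 6400 ^ 2)) := by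
    have h17 := mul_le_mul_of_nonneg_right hq hnp.le
    have h18 : (q + 1 / 10 ^ 10) * n = q * n + n / 10 ^ 10 := by ring
    have h19 : ((A - 256 / 1000) / 6400 - ((y0 : ℝ) ^ 2 + yyS l) / (2 * 6400 ^ 2)) * n
        = n * ((A - 256 / 1000) / 6400) - n * (((y0 : ℝ) ^ 2 + yyS l) / (2 * 6400 ^ 2)) := by ring
    rw [h18, h19] at h17
    exact h17
  linarith

end Run7.h391
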