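import Pool.Agent.Run7.h391.Prob

/-!
The stay-or-tour strategy.
-/

namespace Run7.h391

open Finset MeasureTheory

variable {n : ℕ}

theorem FF_star {G : Finset (Fin n × Fin n)} (h : ∀ e ∈ G, ∀ f ∈ G, ¬ Dj e f) : FF G = 0 := by
  induction G using Finset.induction_on with
  | empty => exact FF_empty
  | insert e G he ih =>
    rw [FF_insert he, ih fun e he' f hf => h e (mem_insert_of_mem he') f (mem_insert_of_mem hf)]
    have : hh e G = 0 := by
      unfold hh
      rw [card_eq_zero, filter_eq_empty_iff]
      rintro π - ⟨h1, h2⟩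
      apply h2
      intro f hf h3
      apply h e (mem_insert_self _ _) f (mem_insert_of_mem hf)
      have hef : e ≠ f := fun hef => he (hef ▸ hf)
      constructor
      · intro h4
        apply hef
        exact Prod.ext h4 (by rw [← h1, ← h3, h4])
      · intro h4
        apply hef
        refine Prod.ext (π.injective (by rw [h1, h3, h4])) h4
    rw [this]; simp

/-- With probability `θ` the player holds the phone `0` all the time, with probability `1 - θ` she picks up
the phones `0, 1, 2, …` one after the other (cyclically). -/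
noncomputable def stayOrTour (n : ℕ) [NeZero n] (θ : ℝ) : Measure (Schedule n) :=
  ENNReal.ofReal θ • Measure.dirac (fun _ => 0) +
    ENNReal.ofReal (1 - θ) • Measure.dirac (fun t => Fin.ofNat n t)

theorem isProb_stayOrTour (n : ℕ) [NeZero n] {θ : ℝ} (h0 : 0 ≤ θ) (h1 : θ ≤ 1) :
    IsProbabilityMeasure (stayOrTour n θ) := by
  constructor
  unfold stayOrTour
  simp only [Measure.coe_add, Measure.coe_smul, Pi.add_apply, Pi.smul_apply, smul_eq_mul, measure_univ,
    mul_one]
  rw [← ENNReal.ofReal_add h0 (by linarith)]
  simp

theorem pw_stayOrTour (n : ℕ) [NeZero n] {θ : ℝ} (h0 : 0 ≤ θ) (h1 : θ ≤ 1) (k : ℕ) (u : Fin k → Fin n) :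
    pw (stayOrTour n θ) k u = θ * (if (fun _ => 0) = u then 1 else 0)
      + (1 - θ) * (if (fun s : Fin k => Fin.ofNat n (s : ℕ)) = u then 1 else 0) := by
  unfold pw stayOrTour
  rw [Measure.map_add _ _ (measurable_rest k), Measure.map_smul, Measure.map_smul,
    Measure.map_dirac' (measurable_rest k), Measure.map_dirac' (measurable_rest k), measureReal_def]
  simp only [Measure.coe_add, Measure.coe_smul, Pi.add_apply, Pi.smul_apply, smul_eq_mul]
  rw [Measure.dirac_apply' _ (measurableSet_singleton _), Measure.dirac_apply' _ (measurableSet_singleton _)]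
  rw [ENNReal.toReal_add, ENNReal.toReal_mul, ENNReal.toReal_mul, ENNReal.toReal_ofReal h0,
    ENNReal.toReal_ofReal (by linarith)]
  · congr 2
    · unfold rest
      by_cases h : (fun _ : Fin k => (0 : Fin n)) = u
      · rw [if_pos h, Set.indicator_of_mem (by rw [Set.mem_singleton_iff]; exact h)]; simp
      · rw [if_neg h, Set.indicator_of_notMem (by rw [Set.mem_singleton_iff]; exact h)]; simp
    · unfold rest
      by_cases h : (fun s : Fin k => Fin.ofNat n (s : ℕ)) = u
      · rw [if_pos h, Set.indicator_of_mem (by rw [Set.mem_singleton_iff]; exact h)]; simp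
      · rw [if_neg h, Set.indicator_of_notMem (by rw [Set.mem_singleton_iff]; exact h)]; simp
  · apply ENNReal.mul_ne_top ENNReal.ofReal_ne_top
    rw [Set.indicator_apply]; split_ifs <;> simp
  · apply ENNReal.mul_ne_top ENNReal.ofReal_ne_top
    rw [Set.indicator_apply]; split_ifs <;> simp

theorem av_of_FF {G : Finset (Fin n × Fin n)} :
    (av G : ℝ) = FF G + n.factorial - G.card * (n - 1).factorial := by
  unfold FF; ring

theorem missProb_stayOrTour (n : ℕ) [NeZero n] {θ : ℝ} (h0 : 0 ≤ θ) (h1 : θ ≤ 1) {k : ℕ} (hk1 : 1 ≤ k)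
    (hk : k ≤ n) :
    missProb (stayOrTour n θ) k * n.factorial - n.factorial + k * (n - 1).factorial
      = θ ^ 2 * ((k - 1) * (n - 1).factorial) + (1 - θ) ^ 2 * cc n k := by
  have := isProb_stayOrTour n h0 h1
  rw [missProb_eq]
  simp only [pw_stayOrTour n h0 h1]
  set x : Fin k → Fin n := fun _ => 0 with hx
  set y : Fin k → Fin n := fun s : Fin k => Fin.ofNat n (s : ℕ) with hy
  have hyv : ∀ s : Fin k, (y s).1 = s.1 := by
    intro s
    simp only [hy, Fin.ofNat]
    exact Nat.mod_eq_of_lt (lt_of_lt_of_le s.2 hk)
  have hexp : ∑ u : Fin k → Fin n, ∑ v : Fin k → Fin n,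
      (θ * (if x = u then 1 else 0) + (1 - θ) * (if y = u then 1 else 0)) *
      (θ * (if x = v then 1 else 0) + (1 - θ) * (if y = v then 1 else 0)) * (av (univ.image (gr u v)) : ℝ)
      = θ ^ 2 * av (univ.image (gr x x)) + θ * (1 - θ) * av (univ.image (gr x y))
        + (1 - θ) * θ * av (univ.image (gr y x)) + (1 - θ) ^ 2 * av (univ.image (gr y y)) := by
    have hin : ∀ u : Fin k → Fin n, ∑ v : Fin k → Fin n,
      (θ * (if x = u then 1 else 0) + (1 - θ) * (if y = u then 1 else 0)) *
      (θ * (if x = v then 1 else 0) + (1 - θ) * (if y = v then 1 else 0)) * (av (univ.image (gr u v)) : ℝ)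
      = (θ * (if x = u then 1 else 0) + (1 - θ) * (if y = u then 1 else 0)) *
        (θ * av (univ.image (gr u x)) + (1 - θ) * av (univ.image (gr u y))) := by
      intro u
      have : ∀ v : Fin k → Fin n,
        (θ * (if x = u then 1 else 0) + (1 - θ) * (if y = u then 1 else 0)) *
        (θ * (if x = v then 1 else 0) + (1 - θ) * (if y = v then 1 else 0)) * (av (univ.image (gr u v)) : ℝ)
        = (θ * (if x = u then 1 else 0) + (1 - θ) * (if y = u then 1 else 0)) *
          (θ * (if x = v then (av (univ.image (gr u v)) : ℝ) else 0)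
            + (1 - θ) * (if y = v then (av (univ.image (gr u v)) : ℝ) else 0)) := by
        intro v
        by_cases h1 : x = v
        · by_cases h2 : y = v
          · rw [if_pos h1, if_pos h1, if_pos h2, if_pos h2]; ring
          · rw [if_pos h1, if_pos h1, if_neg h2, if_neg h2]; ring
        · by_cases h2 : y = v
          · rw [if_neg h1, if_neg h1, if_pos h2, if_pos h2]; ring
          · rw [if_neg h1, if_neg h1, if_neg h2, if_neg h2]; ring
      rw [sum_congr rfl fun v _ => this v, ← mul_sum, sum_add_distrib, ← mul_sum, ← mul_sum,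
        sum_ite_eq, sum_ite_eq, if_pos (mem_univ _), if_pos (mem_univ _)]
    rw [sum_congr rfl fun u _ => hin u]
    have : ∀ u : Fin k → Fin n, (θ * (if x = u then 1 else 0) + (1 - θ) * (if y = u then 1 else 0)) *
        (θ * av (univ.image (gr u x)) + (1 - θ) * av (univ.image (gr u y)))
        = θ * (if x = u then (θ * av (univ.image (gr u x)) + (1 - θ) * av (univ.image (gr u y)) : ℝ) else 0)
          + (1 - θ) * (if y = u then (θ * av (univ.image (gr u x)) + (1 - θ) * av (univ.image (gr u y)) : ℝ) else 0) := by
      intro u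
      by_cases h1 : x = u
      · by_cases h2 : y = u
        · rw [if_pos h1, if_pos h1, if_pos h2, if_pos h2]; ring
        · rw [if_pos h1, if_pos h1, if_neg h2, if_neg h2]; ring
      · by_cases h2 : y = u
        · rw [if_neg h1, if_neg h1, if_pos h2, if_pos h2]; ring
        · rw [if_neg h1, if_neg h1, if_neg h2, if_neg h2]; ring
    rw [sum_congr rfl fun u _ => this u, sum_add_distrib, ← mul_sum, ← mul_sum,
        sum_ite_eq, sum_ite_eq, if_pos (mem_univ _), if_pos (mem_univ _)]
    ring
  rw [hexp]
  -- the four counts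
  have c1 : (av (univ.image (gr x x)) : ℝ) = n.factorial - (n - 1).factorial := by
    have him : univ.image (gr x x) = {((0 : Fin n), (0 : Fin n))} := by
      ext f
      simp only [mem_image, mem_univ, true_and, mem_singleton, gr, hx]
      constructor
      · rintro ⟨s, hs⟩; exact hs.symm
      · intro h; exact ⟨⟨0, by omega⟩, h.symm⟩
    rw [him, av_of_FF, FF_star, card_singleton]
    · push_cast; ring
    · intro e he f hf
      rw [mem_singleton] at he hf
      rw [he, hf]; exact not_Dj_self _
  have c2 : (av (univ.image (gr x y)) : ℝ) = n.factorial - k * (n - 1).factorial := by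
    rw [av_of_FF, FF_star]
    · have : (univ.image (gr x y)).card = k := by
        rw [card_image_of_injective, card_univ, Fintype.card_fin]
        intro s t h
        have := congrArg (fun p : Fin n × Fin n => p.1.1) h
        simp only [gr, hyv] at this
        exact Fin.ext this
      rw [this]; ring
    · intro e he f hf h
      obtain ⟨s, _, rfl⟩ := mem_image.1 he
      obtain ⟨t, _, rfl⟩ := mem_image.1 hf
      exact h.2 rfl
  have c3 : (av (univ.image (gr y x)) : ℝ) = n.factorial - k * (n - 1).factorial := by
    rw [av_of_FF, FF_star]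
    · have : (univ.image (gr y x)).card = k := by
        rw [card_image_of_injective, card_univ, Fintype.card_fin]
        intro s t h
        have := congrArg (fun p : Fin n × Fin n => p.2.1) h
        simp only [gr, hyv] at this
        exact Fin.ext this
      rw [this]; ring
    · intro e he f hf h
      obtain ⟨s, _, rfl⟩ := mem_image.1 he
      obtain ⟨t, _, rfl⟩ := mem_image.1 hf
      exact h.1 rfl
  have c4 : (av (univ.image (gr y y)) : ℝ) = n.factorial - k * (n - 1).factorial + cc n k := by
    have him : univ.image (gr y y) = diag n k := by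
      ext f
      rw [mem_diag]
      simp only [mem_image, mem_univ, true_and, gr]
      constructor
      · rintro ⟨s, rfl⟩
        exact ⟨rfl, by simp only [hyv]; exact s.2⟩
      · rintro ⟨h1, h2⟩
        refine ⟨⟨f.1.1, h2⟩, ?_⟩
        have : y ⟨f.1.1, h2⟩ = f.1 := Fin.ext (hyv _)
        rw [this]
        exact Prod.ext rfl h1
    rw [him, av_of_FF, FF_diag hk, card_diag hk]; ring
  rw [c1, c2, c3, c4]
  have hnf : (n.factorial : ℝ) = n * (n - 1).factorial := by
    rw [← Nat.mul_factorial_pred (NeZero.ne n)]; push_cast; ring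
  rw [hnf]
  ring

end Run7.h391
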