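import Pool.Agent.Run7.h391.Slope
import Pool.Agent.W972.AW.Block

/-!
Combination of the bounds at the times of a grid.
-/

namespace Run7.h391

open Finset MeasureTheory
open scoped ENNReal

variable {n : ℕ}

/-- an event: the periods `[T - x, T + y)` (in units of `M'`) are represented by `T`, the base time `tau` -/
structure Ev where
  x : ℕ
  y : ℕ
  tau : ℕ
  c : ℕ → ℝ

/-- grid paths -/
def IsPath (i : ℕ → ℕ) : Prop := i 0 = 0 ∧ ∀ t, i (t + 1) = i t ∨ i (t + 1) = i t + 1

theorem hc_zero {K : ℕ} (w : ℕ) (u : Fin K → Fin n) : hc w 0 u = 0 := by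
  unfold hc per
  simp

theorem hc_mono {K : ℕ} (w : ℕ) {T T' : ℕ} (h : T ≤ T') (u : Fin K → Fin n) : hc w T u ≤ hc w T' u := by
  unfold hc per
  apply card_le_card
  intro s hs
  simp only [mem_filter, mem_univ, true_and] at hs ⊢
  exact ⟨hs.1.trans_le h, hs.2⟩

theorem hc_add_le {K : ℕ} (w T M : ℕ) (u : Fin K → Fin n) : hc w (T + M) u ≤ hc w T u + M := by
  classical
  unfold hc
  have h1 : (per K (T + M)).filter (fun s => u s ∈ heavy w u)
      ⊆ (per K T).filter (fun s => u s ∈ heavy w u) ∪ univ.filter (fun s : Fin K => T ≤ s.val ∧ s.val < T + M) := by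
    intro s hs
    simp only [mem_filter, mem_univ, true_and, mem_union, per] at hs ⊢
    by_cases h : s.val < T
    · left; exact ⟨h, hs.2⟩
    · right; exact ⟨not_lt.1 h, hs.1⟩
  refine (card_le_card h1).trans ((card_union_le _ _).trans ?_)
  apply Nat.add_le_add_left
  have h2 : (univ.filter (fun s : Fin K => T ≤ s.val ∧ s.val < T + M)).card ≤ (range M).card := by
    refine card_le_card_of_injOn (fun s => s.val - T) ?_ ?_
    · intro s hs
      rw [mem_coe, mem_filter] at hs
      rw [mem_coe, mem_range]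
      show s.val - T < M
      omega
    · intro s hs t ht h
      rw [mem_coe, mem_filter] at hs ht
      ext
      simp only at h
      omega
  rwa [card_range] at h2

theorem isPath_hc {K : ℕ} (w : ℕ) {M r : ℕ} (hr : r < M) (u : Fin K → Fin n) :
    IsPath (fun t => (hc w (t * M) u + r) / M) := by
  have hM : 0 < M := by omega
  constructor
  · simp only [zero_mul, hc_zero, zero_add]
    exact Nat.div_eq_of_lt hr
  · intro t
    have h1 : hc w (t * M) u ≤ hc w ((t + 1) * M) u := hc_mono w (by rw [add_mul]; omega) u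
    have h2 : hc w ((t + 1) * M) u ≤ hc w (t * M) u + M := by
      rw [add_mul, one_mul]; exact hc_add_le w _ _ u
    have h3 : (hc w (t * M) u + r) / M ≤ (hc w ((t + 1) * M) u + r) / M := Nat.div_le_div_right (by omega)
    have h4 : (hc w ((t + 1) * M) u + r) / M ≤ (hc w (t * M) u + r) / M + 1 := by
      rw [← Nat.add_div_right _ hM]
      exact Nat.div_le_div_right (by omega)
    simp only
    generalize (hc w (t * M) u + r) / M = p at *
    generalize (hc w ((t + 1) * M) u + r) / M = p' at *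
    omega

/-- from single words to the weighted sum -/
theorem words_bound {K w M0 : ℕ} (hM : 0 < M0) (D : Measure (Schedule n)) [IsProbabilityMeasure D] (eta : ℝ)
    (l : List Ev)
    (hev : ∀ e ∈ l, ∑ u : Fin K → Fin n, pw D K u * bar M0 e.c (hc w (e.tau * M0) u)
      ≤ ((e.x : ℝ) + e.y) * (missProb D (e.tau * M0) + eta))
    {V : ℝ} (hV : ∀ i, IsPath i → V ≤ (l.map fun e => e.c (i e.tau)).sum) :
    V ≤ (l.map fun e => ((e.x : ℝ) + e.y) * (missProb D (e.tau * M0) + eta)).sum := by
  have hp := pw_nonneg D K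
  have hp1 := pw_sum D K
  have h1 : ∀ l : List Ev, (l.map fun e => ∑ u : Fin K → Fin n, pw D K u * bar M0 e.c (hc w (e.tau * M0) u)).sum
      = ∑ u : Fin K → Fin n, pw D K u * ev M0 (fun r => (l.map fun e => e.c ((hc w (e.tau * M0) u + r) / M0)).sum) := by
    intro l
    induction l with
    | nil => simp [ev]
    | cons e l ih =>
      simp only [List.map_cons, List.sum_cons]
      rw [ih, ← sum_add_distrib]
      apply sum_congr rfl
      intro u _
      rw [ev_add, mul_add]
      rfl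
  have h2 : V ≤ ∑ u : Fin K → Fin n, pw D K u * ev M0 (fun r => (l.map fun e => e.c ((hc w (e.tau * M0) u + r) / M0)).sum) := by
    calc V = ∑ u : Fin K → Fin n, pw D K u * V := by rw [← sum_mul, hp1, one_mul]
      _ ≤ _ := by
        apply sum_le_sum
        intro u _
        apply mul_le_mul_of_nonneg_left _ (hp u)
        rw [← ev_const hM V]
        apply ev_mono
        intro r hr
        exact hV _ (isPath_hc w hr u)
  rw [← h1] at h2
  refine h2.trans ?_
  apply List.sum_le_sum
  exact hev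

/-- the representing periods fit together -/
def Chain (Wd : ℕ) : ℕ → List Ev → Prop
  | _, [] => True
  | pos, e :: l => pos + e.x = e.tau * Wd ∧ Chain Wd (pos + e.x + e.y) l

theorem chain_sum (hn : 0 < n) (D : Measure (Schedule n)) [IsProbabilityMeasure D] (Wd M' : ℕ) :
    ∀ (l : List Ev) (pos : ℕ), Chain Wd pos l →
      (M' : ℝ) * (l.map fun e => ((e.x : ℝ) + e.y) * missProb D (e.tau * (Wd * M'))).sum
        - (M' : ℝ) ^ 2 * (l.map fun e => (e.y : ℝ) ^ 2).sum / (2 * n)
      ≤ ∑ k ∈ range ((l.map fun e => e.x + e.y).sum * M'), missProb D (pos * M' + k) := by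
  intro l
  induction l with
  | nil => intro pos _; simp
  | cons e l ih =>
    intro pos h
    obtain ⟨h1, h2⟩ := h
    have h3 := ih _ h2
    have h4 := chunk_sum hn D (pos * M') (e.x * M') (e.y * M')
    have h5 : pos * M' + e.x * M' = e.tau * (Wd * M') := by
      rw [← add_mul, h1]; ring
    rw [h5] at h4
    simp only [List.map_cons, List.sum_cons]
    have e8 : (e.x + e.y + (l.map fun e => e.x + e.y).sum) * M'
        = (e.x + e.y) * M' + (l.map fun e => e.x + e.y).sum * M' := by ring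
    rw [e8, sum_range_add]
    have h6 : ∑ k ∈ range ((l.map fun e => e.x + e.y).sum * M'), missProb D (pos * M' + ((e.x + e.y) * M' + k))
        = ∑ k ∈ range ((l.map fun e => e.x + e.y).sum * M'), missProb D ((pos + e.x + e.y) * M' + k) := by
      apply sum_congr rfl
      intro k _
      congr 1; ring
    have h7 : e.x * M' + e.y * M' = (e.x + e.y) * M' := by ring
    rw [h7] at h4
    rw [h6]
    push_cast at h4
    have h8 : (M' : ℝ) ^ 2 * ((e.y : ℝ) ^ 2 + (l.map fun e => (e.y : ℝ) ^ 2).sum) / (2 * n)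
        = ((e.y : ℝ) * M') ^ 2 / (2 * n) + (M' : ℝ) ^ 2 * (l.map fun e => (e.y : ℝ) ^ 2).sum / (2 * n) := by ring
    rw [h8, mul_add]
    have h9 : ((e.x : ℝ) * M' + e.y * M') * missProb D (e.tau * (Wd * M'))
        = M' * (((e.x : ℝ) + e.y) * missProb D (e.tau * (Wd * M'))) := by ring
    rw [h9] at h4
    linarith

theorem combine (hn : 0 < n) {K w Wd M' : ℕ} (hM : 0 < Wd * M') (D : Measure (Schedule n)) [IsProbabilityMeasure D]
    (eta : ℝ) (y0 : ℕ) (l : List Ev) (hc' : Chain Wd y0 l)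
    (hev : ∀ e ∈ l, ∑ u : Fin K → Fin n, pw D K u * bar (Wd * M') e.c (hc w (e.tau * (Wd * M')) u)
      ≤ ((e.x : ℝ) + e.y) * (missProb D (e.tau * (Wd * M')) + eta))
    {V : ℝ} (hV : ∀ i, IsPath i → V ≤ (l.map fun e => e.c (i e.tau)).sum) :
    (M' : ℝ) * (y0 + V - ((l.map fun e => e.x + e.y).sum : ℕ) * eta)
      - (M' : ℝ) ^ 2 * ((y0 : ℝ) ^ 2 + (l.map fun e => (e.y : ℝ) ^ 2).sum) / (2 * n)
      ≤ ∑ k ∈ range ((y0 + (l.map fun e => e.x + e.y).sum) * M'), missProb D k := by
  have h1 := words_bound hM D eta l hev hV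
  have h2 := chain_sum hn D Wd M' l y0 hc'
  have h3 := chunk_sum hn D 0 0 (y0 * M')
  simp only [zero_add, missProb_zero, Nat.cast_zero] at h3
  have h4 : (l.map fun e => ((e.x : ℝ) + e.y) * (missProb D (e.tau * (Wd * M')) + eta)).sum
      = (l.map fun e => ((e.x : ℝ) + e.y) * missProb D (e.tau * (Wd * M'))).sum
        + ((l.map fun e => e.x + e.y).sum : ℕ) * eta := by
    clear hc' hev hV h1 h2
    induction l with
    | nil => simp
    | cons e l ih =>
      simp only [List.map_cons, List.sum_cons]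
      rw [ih]; push_cast; ring
  rw [h4] at h1
  have e8 : (y0 + (l.map fun e => e.x + e.y).sum) * M'
      = y0 * M' + (l.map fun e => e.x + e.y).sum * M' := by ring
  rw [e8, sum_range_add]
  have h5 : (M' : ℝ) * (V - ((l.map fun e => e.x + e.y).sum : ℕ) * eta)
      ≤ M' * (l.map fun e => ((e.x : ℝ) + e.y) * missProb D (e.tau * (Wd * M'))).sum :=
    mul_le_mul_of_nonneg_left (by linarith) (Nat.cast_nonneg _)
  push_cast at h3 h5 ⊢
  have h6 : (M' : ℝ) ^ 2 * ((y0 : ℝ) ^ 2 + (l.map fun e => (e.y : ℝ) ^ 2).sum) / (2 * n)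
      = ((y0 : ℝ) * M') ^ 2 / (2 * n) + (M' : ℝ) ^ 2 * (l.map fun e => (e.y : ℝ) ^ 2).sum / (2 * n) := by ring
  rw [h6]
  have h7 : (M' : ℝ) * (y0 + V - ((l.map fun e => e.x + e.y).sum : ℕ) * eta)
      = (y0 : ℝ) * M' * 1 + M' * (V - ((l.map fun e => e.x + e.y).sum : ℕ) * eta) := by ring
  push_cast at h7
  linarith

/-- the expected meeting time is at least any partial sum of the probabilities of not having met -/
theorem mean_ge (D : Measure (Schedule n)) [IsProbabilityMeasure D] (T : ℕ) :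
    ENNReal.ofReal (∑ k ∈ range T, missProb D k) ≤ Pool.Agent.W972.AW.meanTime D := by
  have hf0 : (n.factorial : ℝ≥0∞) ≠ 0 := by exact_mod_cast n.factorial_ne_zero
  have hft : (n.factorial : ℝ≥0∞) ≠ ⊤ := ENNReal.natCast_ne_top _
  unfold Pool.Agent.W972.AW.meanTime
  rw [ENNReal.le_div_iff_mul_le (Or.inl hf0) (Or.inl hft)]
  have h1 : ∀ τ : Equiv.Perm (Fin n), ∑ k ∈ range T, (D.prod D) {q : Schedule n × Schedule n | Pool.Agent.W972.AW.NoMeet τ k q.1 q.2}
      ≤ ∫⁻ x, ∫⁻ y, Pool.Agent.W972.AW.meetTime τ x y ∂D ∂D := by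
    intro τ
    have h2 : ∫⁻ x, ∫⁻ y, ∑ k ∈ range T, (if Pool.Agent.W972.AW.NoMeet τ k x y then (1 : ℝ≥0∞) else 0) ∂D ∂D
        ≤ ∫⁻ x, ∫⁻ y, Pool.Agent.W972.AW.meetTime τ x y ∂D ∂D := by
      apply lintegral_mono
      intro x
      apply lintegral_mono
      intro y
      show ∑ k ∈ range T, (if Pool.Agent.W972.AW.NoMeet τ k x y then (1 : ℝ≥0∞) else 0) ≤ Pool.Agent.W972.AW.meetTime τ x y
      rw [Pool.Agent.W972.AW.meetTime_eq_tsum]
      exact ENNReal.sum_le_tsum _
    refine le_trans (le_of_eq ?_) h2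
    have hmeas : ∀ k, Measurable (fun q : Schedule n × Schedule n =>
        (if Pool.Agent.W972.AW.NoMeet τ k q.1 q.2 then (1 : ℝ≥0∞) else 0)) :=
      fun k => Pool.Agent.W972.AW.measurable_noMeet τ k
    have h3 : ∫⁻ x, ∫⁻ y, ∑ k ∈ range T, (if Pool.Agent.W972.AW.NoMeet τ k x y then (1 : ℝ≥0∞) else 0) ∂D ∂D
        = ∫⁻ q, ∑ k ∈ range T, (if Pool.Agent.W972.AW.NoMeet τ k q.1 q.2 then (1 : ℝ≥0∞) else 0) ∂(D.prod D) := by
      rw [lintegral_prod]
      exact (Finset.measurable_fun_sum _ fun k _ => hmeas k).aemeasurable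
    rw [h3, lintegral_finsetSum _ fun k _ => hmeas k]
    apply sum_congr rfl
    intro k _
    have h4 : (fun q : Schedule n × Schedule n => (if Pool.Agent.W972.AW.NoMeet τ k q.1 q.2 then (1 : ℝ≥0∞) else 0))
        = Set.indicator {q : Schedule n × Schedule n | Pool.Agent.W972.AW.NoMeet τ k q.1 q.2} 1 := by
      funext q
      by_cases h : Pool.Agent.W972.AW.NoMeet τ k q.1 q.2
      · rw [if_pos h, Set.indicator_of_mem (by exact h)]; rfl
      · rw [if_neg h, Set.indicator_of_notMem (by exact h)]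
    rw [h4, lintegral_indicator_one (Pool.Agent.W972.AW.measurableSet_noMeet τ k)]
  have h5 : ENNReal.ofReal (∑ k ∈ range T, missProb D k) * n.factorial
      = ∑ τ : Equiv.Perm (Fin n), ∑ k ∈ range T, (D.prod D) {q : Schedule n × Schedule n | Pool.Agent.W972.AW.NoMeet τ k q.1 q.2} := by
    have h6 : ((n.factorial : ℕ) : ℝ≥0∞) = ENNReal.ofReal (n.factorial : ℝ) := by
      rw [ENNReal.ofReal_natCast]
    rw [h6, ← ENNReal.ofReal_mul (sum_nonneg fun k _ => missProb_nonneg D k)]
    have h7 : (∑ k ∈ range T, missProb D k) * (n.factorial : ℝ)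
        = ∑ τ : Equiv.Perm (Fin n), ∑ k ∈ range T, (D.prod D).real {q : Schedule n × Schedule n | Pool.Agent.W972.AW.NoMeet τ k q.1 q.2} := by
      rw [sum_comm, sum_mul]
      apply sum_congr rfl
      intro k _
      unfold missProb
      rw [div_mul_cancel₀ _ (by exact_mod_cast n.factorial_ne_zero)]
      rfl
    rw [h7, ENNReal.ofReal_sum_of_nonneg fun τ _ => sum_nonneg fun k _ => measureReal_nonneg]
    apply sum_congr rfl
    intro τ _
    rw [ENNReal.ofReal_sum_of_nonneg fun k _ => measureReal_nonneg]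
    apply sum_congr rfl
    intro k _
    rw [ofReal_measureReal]
  rw [h5]
  exact sum_le_sum fun τ _ => h1 τ

end Run7.h391
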