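import Pool.Agent.Run7.h391.Checker
import Pool.Agent.Run7.h391.Combine

/-!
Certificates and the soundness of the checker.
-/

namespace Run7.h391

open Finset

/-- a certificate for one time -/
structure Cert where
  x : ℕ
  y : ℕ
  g : ℕ
  N : ℕ
  m : ℕ
  L2 : ℕ
  hs : ℕ
  rq : ℕ
  rg : ℕ
  sq : List ℕ
  sg : List ℕ
  C : List ℕ
  lam : List ℤ
  rows : List Row

/-- the zero row -/
def row0 : Row := ⟨0, [], [], 0⟩

/-- finite sums of integers -/
def sumTo (f : ℕ → ℤ) : ℕ → ℤ
  | 0 => 0
  | n + 1 => sumTo f n + f n

theorem sumTo_eq (f : ℕ → ℤ) (n : ℕ) : (sumTo f n : ℝ) = ∑ l : Fin n, (f l : ℝ) := by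
  induction n with
  | zero => simp [sumTo]
  | succ n ih =>
    rw [Fin.sum_univ_castSucc]
    unfold sumTo
    push_cast
    rw [ih]
    simp

theorem dot_nil (bs : List ℕ) : dot [] bs = 0 := rfl

theorem dot_cons (a : ℕ) (as : List ℕ) (b : ℕ) (bs : List ℕ) : dot (a :: as) (b :: bs) = a * b + dot as bs := rfl

theorem dot_eq : ∀ (as bs : List ℕ) (r : ℕ), as.length = r → bs.length = r →
    (dot as bs : ℝ) = ∑ l : Fin r, (as.getD l 0 : ℝ) * (bs.getD l 0 : ℝ) := by
  intro as
  induction as with
  | nil =>
    intro bs r h1 h2
    rw [List.length_nil] at h1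
    subst h1
    rw [dot_nil]; simp
  | cons a as ih =>
    intro bs r h1 h2
    rw [List.length_cons] at h1
    subst h1
    match bs, h2 with
    | b :: bs, h2 =>
      rw [List.length_cons, Nat.succ_inj] at h2
      rw [dot_cons, Fin.sum_univ_succ]
      push_cast
      rw [ih bs as.length rfl h2]
      simp

theorem dropE_zero (l : List ℕ) : dropE 0 l = l := rfl

theorem dropE_eq (n : ℕ) : ∀ l : List ℕ, dropE n l = l.drop n := by
  induction n with
  | zero => intro l; rfl
  | succ n ih =>
    intro l
    cases l with
    | nil => rfl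
    | cons a l => exact ih l

theorem inner_zero (dP dQ : ℕ) (E : List ℕ) (x y P Q : ℕ) : inner dP dQ 0 E x y P Q = true := rfl

theorem inner_succ_cons (dP dQ fuel e : ℕ) (es : List ℕ) (x y P Q : ℕ) :
    inner dP dQ (fuel + 1) (e :: es) x y P Q
      = cond (Nat.ble (P + e) (x * y * e + Q)) (inner dP dQ fuel es (x + 1) (y + 1) (P + dP) (Q + dQ)) false := rfl

theorem inner_succ_nil (dP dQ fuel : ℕ) (x y P Q : ℕ) : inner dP dQ (fuel + 1) [] x y P Q = false := rfl

theorem inner_spec (dP dQ : ℕ) : ∀ (fuel : ℕ) (E : List ℕ) (x y P Q : ℕ), inner dP dQ fuel E x y P Q = true →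
    ∀ s < fuel, P + s * dP + E.getD s 0 ≤ (x + s) * (y + s) * E.getD s 0 + (Q + s * dQ) := by
  intro fuel
  induction fuel with
  | zero => intro E x y P Q _ s hs; omega
  | succ fuel ih =>
    intro E x y P Q h s hs
    cases E with
    | nil => rw [inner_succ_nil] at h; exact absurd h (by decide)
    | cons e es =>
      rw [inner_succ_cons] at h
      by_cases hb : Nat.ble (P + e) (x * y * e + Q) = true
      · rw [hb, cond_true] at h
        cases s with
        | zero =>
          have := Nat.le_of_ble_eq_true hb
          simpa using this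
        | succ s =>
          have := ih es (x + 1) (y + 1) (P + dP) (Q + dQ) h s (by omega)
          rw [List.getD_cons_succ]
          have e1 : P + (s + 1) * dP = P + dP + s * dP := by ring
          have e2 : Q + (s + 1) * dQ = Q + dQ + s * dQ := by ring
          have e3 : x + (s + 1) = x + 1 + s := by ring
          have e4 : y + (s + 1) = y + 1 + s := by ring
          rw [e1, e2, e3, e4]
          exact this
      · rw [Bool.not_eq_true] at hb
        rw [hb, cond_false] at h
        exact absurd h (by decide)

theorem nmax_eq (a b : ℕ) : nmax a b = max a b := by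
  unfold nmax
  by_cases h : a ≤ b
  · rw [Nat.ble_eq_true_of_le h, cond_true, max_eq_right h]
  · have : Nat.ble a b = false := by
      rw [← Bool.not_eq_true]; intro h'; exact h (Nat.le_of_ble_eq_true h')
    rw [this, cond_false, max_eq_left (by omega)]

theorem nmin_eq (a b : ℕ) : nmin a b = min a b := by
  unfold nmin
  by_cases h : a ≤ b
  · rw [Nat.ble_eq_true_of_le h, cond_true, min_eq_left h]
  · have : Nat.ble a b = false := by
      rw [← Bool.not_eq_true]; intro h'; exact h (Nat.le_of_ble_eq_true h')
    rw [this, cond_false, min_eq_right (by omega)]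

theorem cond_eq_true {a b : Bool} (h : cond a b false = true) : a = true ∧ b = true := by
  cases a <;> cases b <;> simp_all

theorem jLoop_spec (f : ℕ → Row → Bool) : ∀ (l : List Row) (j : ℕ), jLoop f l j = true →
    ∀ s < l.length, f (j - s) (l.getD s row0) = true := by
  intro l
  induction l with
  | nil => intro j _ s hs; simp at hs
  | cons r l ih =>
    intro j h s hs
    have h' : cond (f j r) (jLoop f l (j - 1)) false = true := h
    obtain ⟨h1, h2⟩ := cond_eq_true h'
    cases s with
    | zero => simpa using h1
    | succ s =>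
      rw [List.getD_cons_succ]
      have := ih (j - 1) h2 s (by rw [List.length_cons] at hs; omega)
      rwa [show j - 1 - s = j - (s + 1) by omega] at this

theorem iLoop_spec (f : ℕ → Row → ℕ → Row → Bool) : ∀ (l acc : List Row) (i : ℕ), acc.length = i →
    iLoop f l acc i = true → ∀ a, i ≤ a → a < i + l.length → ∀ b ≤ a,
      f a ((acc.reverse ++ l).getD a row0) b ((acc.reverse ++ l).getD b row0) = true := by
  intro l
  induction l with
  | nil => intro acc i _ _ a h1 h2; simp at h2; omega
  | cons r l ih =>
    intro acc i hacc h a h1 h2 b hb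
    have h' : cond (jLoop (f i r) (r :: acc) i) (iLoop f l (r :: acc) (i + 1)) false = true := h
    obtain ⟨h3, h4⟩ := cond_eq_true h'
    have hL : acc.reverse ++ r :: l = (r :: acc).reverse ++ l := by simp
    rw [hL]
    rcases Nat.eq_or_lt_of_le h1 with h5 | h5
    · subst h5
      have h6 := jLoop_spec (f i r) (r :: acc) i h3 (i - b) (by rw [List.length_cons]; omega)
      have h7 : i - (i - b) = b := by omega
      rw [h7] at h6
      have h8 : ((r :: acc).reverse ++ l).getD i row0 = r := by
        rw [List.reverse_cons, List.append_assoc, List.getD_append_right _ _ _ _ (by simp [hacc])]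
        simp [hacc]
      have h9 : ((r :: acc).reverse ++ l).getD b row0 = (r :: acc).getD (i - b) row0 := by
        rw [List.getD_append _ _ _ _ (by simp [hacc] <;> omega)]
        rw [List.getD_eq_getElem _ _ (by simp [hacc] <;> omega), List.getD_eq_getElem _ _ (by simp [hacc] <;> omega)]
        rw [List.getElem_reverse]
        congr 1
        simp [hacc]
      rw [h8, h9]
      exact h6
    · exact ih (r :: acc) (i + 1) (by simp [hacc]) h4 a h5 (by rw [List.length_cons] at h2; omega) b hb

end Run7.h391
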