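import Pool.Agent.Run7.h391.Cert

/-!
Soundness of the check of pairs.
-/

namespace Run7.h391

open Finset

theorem pairCheck_spec {m N L2 tt : ℕ} {E : List ℕ} {i j : ℕ} {ri rj : Row}
    (h : pairCheck m N L2 tt E i ri j rj = true) (hji : j ≤ i) (him : i ≤ m) {k : ℕ}
    (hk : i + j ≤ m + k) (hkj : k ≤ j) :
    (i ≤ N + k → ri.lp + rj.lp + dot ri.Q rj.Q + i * j * (ri.t + rj.t) + k * (m * (dot ri.G rj.G + tt)) + 1
        + E.getD (m + k - (i + j)) 0
        ≤ (N + k - i) * (N + k - j) * E.getD (m + k - (i + j)) 0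
          + (L2 + i * j * (dot ri.G rj.G + tt) + k * (m * (ri.t + rj.t))))
    ∧ (N + k < i → ri.lp + rj.lp + dot ri.Q rj.Q + i * j * (ri.t + rj.t) + k * (m * (dot ri.G rj.G + tt))
        ≤ L2 + i * j * (dot ri.G rj.G + tt) + k * (m * (ri.t + rj.t))) := by
  unfold pairCheck pairAux at h
  simp only [Nat.add_eq, Nat.mul_eq, Nat.sub_eq, nmax_eq, nmin_eq, dropE_eq] at h
  set Rp := dot ri.G rj.G + tt
  set Rm := ri.t + rj.t
  set bP := ri.lp + rj.lp + dot ri.Q rj.Q
  obtain ⟨h1, h2⟩ := cond_eq_true h
  constructor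
  · intro hiN
    have h3 := inner_spec _ _ _ _ _ _ _ _ h1 (k - max (i + j - m) (i - N)) (by omega)
    have e1 : (E.drop (m + max (i + j - m) (i - N) - (i + j))).getD (k - max (i + j - m) (i - N)) 0
        = E.getD (m + k - (i + j)) 0 := by
      rw [List.getD_eq_getElem?_getD, List.getD_eq_getElem?_getD, List.getElem?_drop]
      congr 2
      omega
    have e2 : N + max (i + j - m) (i - N) - i + (k - max (i + j - m) (i - N)) = N + k - i := by omega
    have e3 : N + max (i + j - m) (i - N) - j + (k - max (i + j - m) (i - N)) = N + k - j := by omega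
    rw [e1, e2, e3] at h3
    have e4 : max (i + j - m) (i - N) * (m * Rp) + (k - max (i + j - m) (i - N)) * (m * Rp) = k * (m * Rp) := by
      rw [← add_mul]; congr 1; omega
    have e5 : max (i + j - m) (i - N) * (m * Rm) + (k - max (i + j - m) (i - N)) * (m * Rm) = k * (m * Rm) := by
      rw [← add_mul]; congr 1; omega
    omega
  · intro hiN
    have h3 : Nat.ble (i - N) (i + j - m) = false := by
      rw [← Bool.not_eq_true]
      intro h'
      have := Nat.le_of_ble_eq_true h'
      omega
    rw [h3, cond_false] at h2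
    obtain ⟨h4, h5⟩ := cond_eq_true h2
    have h4' := Nat.le_of_ble_eq_true h4
    have h5' := Nat.le_of_ble_eq_true h5
    have hk0 : i + j - m ≤ k := by omega
    have hk1 : k ≤ min j (i - N - 1) := by omega
    generalize i + j - m = k0 at *
    generalize min j (i - N - 1) = ke at *
    rcases le_total Rm Rp with hR | hR
    · obtain ⟨δ, hδ⟩ := Nat.exists_eq_add_of_le hR
      obtain ⟨s, hs⟩ := Nat.exists_eq_add_of_le hk1
      rw [hδ] at h5' ⊢
      rw [hs] at h5'
      have e1 : (k + s) * (m * (Rm + δ)) = k * (m * (Rm + δ)) + s * (m * Rm) + s * (m * δ) := by ring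
      have e2 : (k + s) * (m * Rm) = k * (m * Rm) + s * (m * Rm) := by ring
      rw [e1, e2] at h5'
      generalize k * (m * (Rm + δ)) = z1 at *
      generalize k * (m * Rm) = z2 at *
      generalize s * (m * Rm) = z3 at *
      generalize s * (m * δ) = z4 at *
      generalize i * j * (Rm + δ) = z5 at *
      generalize i * j * Rm = z6 at *
      omega
    · obtain ⟨δ, hδ⟩ := Nat.exists_eq_add_of_le hR
      obtain ⟨s, hs⟩ := Nat.exists_eq_add_of_le hk0
      rw [hδ] at h4' ⊢
      rw [hs]
      have e1 : (k0 + s) * (m * (Rp + δ)) = k0 * (m * (Rp + δ)) + s * (m * Rp) + s * (m * δ) := by ring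
      have e2 : (k0 + s) * (m * Rp) = k0 * (m * Rp) + s * (m * Rp) := by ring
      rw [e1, e2]
      generalize k0 * (m * (Rp + δ)) = z1 at *
      generalize k0 * (m * Rp) = z2 at *
      generalize s * (m * Rp) = z3 at *
      generalize s * (m * δ) = z4 at *
      generalize i * j * (Rp + δ) = z5 at *
      generalize i * j * Rp = z6 at *
      omega

/-- shifted entries -/
def qZ (sq : List ℕ) (r : Row) (l : ℕ) : ℤ := (r.Q.getD l 0 : ℤ) - (sq.getD l 0 : ℤ)

/-- shifted entries -/
def gZ (sg : List ℕ) (r : Row) (l : ℕ) : ℤ := (r.G.getD l 0 : ℤ) - (sg.getD l 0 : ℤ)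

/-- twice the value of the linear part of a certificate -/
def ell2Z (c : Cert) (r : Row) : ℤ := 2 * (r.lp : ℤ) - c.L2 + 2 * (dot c.sq r.Q : ℤ) - 2 * c.hs

/-- row check -/
def rowOK (c : Cert) (r : Row) : Bool :=
  (r.Q.length == c.rq) && ((r.G.length == c.rg) && (r.t == dot c.sg r.G))

/-- check of the bound of `i * g i` -/
def cOK (c : Cert) (i : ℕ) (r : Row) : Bool :=
  (List.range c.rg).all fun l => decide (|(i : ℤ) * gZ c.sg r l| ≤ (c.C.getD l 0 : ℤ))

/-- error on a cell, times `8 N` -/
def errZ (c : Cert) (I : ℕ) (r1 r2 : Row) : ℤ :=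
  c.N * sumTo (fun l => (qZ c.sq r2 l - qZ c.sq r1 l) ^ 2) c.rq
  + sumTo (fun l => c.m * max (gZ c.sg r1 l ^ 2) (gZ c.sg r2 l ^ 2)
      + c.N * (c.m * (c.N + I + 1)) * (gZ c.sg r2 l - gZ c.sg r1 l) ^ 2
      + c.N * ((I + 1) * gZ c.sg r2 l - I * gZ c.sg r1 l) ^ 2) c.rg
  + 2 * c.N * sumTo (fun l => (c.C.getD l 0 : ℤ) * |gZ c.sg r2 l - gZ c.sg r1 l|) c.rg

/-- check of the final linear part on a cell -/
def lamOK (c : Cert) (I : ℕ) (r1 r2 : Row) (l1 l2 : ℤ) : Bool :=
  decide (errZ c I r1 r2 ≤ 4 * c.N * (ell2Z c r1 - 2 * l1)) && decide (errZ c I r1 r2 ≤ 4 * c.N * (ell2Z c r2 - 2 * l2))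

/-- check along the rows -/
def rowsLoop (c : Cert) : List Row → List ℤ → ℕ → Bool
  | r1 :: r2 :: rs, l1 :: l2 :: ls, I =>
    rowOK c r1 && (cOK c I r1 && (lamOK c I r1 r2 l1 l2 && rowsLoop c (r2 :: rs) (l2 :: ls) (I + 1)))
  | [r], [_], I => rowOK c r && (cOK c I r && (I == c.m))
  | _, _, _ => false

/-- the whole check of a certificate -/
def certOK (c : Cert) (E : List ℕ) : Bool :=
  (c.sq.length == c.rq) && ((c.sg.length == c.rg) && ((decide (dot c.sq c.sq ≤ 2 * c.hs))
    && ((decide (c.m < E.length)) && (rowsLoop c c.rows c.lam 0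
      && iLoop (pairCheck c.m c.N c.L2 (dot c.sg c.sg) E) c.rows [] 0))))

theorem rowsLoop_spec (c : Cert) : ∀ (rows : List Row) (lam : List ℤ) (I : ℕ), rowsLoop c rows lam I = true →
    rows.length = lam.length ∧ I + rows.length = c.m + 1 ∧
    (∀ s < rows.length, rowOK c (rows.getD s row0) = true ∧ cOK c (I + s) (rows.getD s row0) = true) ∧
    (∀ s, s + 1 < rows.length → lamOK c (I + s) (rows.getD s row0) (rows.getD (s + 1) row0) (lam.getD s 0)
      (lam.getD (s + 1) 0) = true) := by
  intro rows
  induction rows with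
  | nil => intro lam I h; simp [rowsLoop] at h
  | cons r1 rs ih =>
    intro lam I h
    cases rs with
    | nil =>
      match lam, h with
      | [a], h =>
        simp only [rowsLoop, Bool.and_eq_true, beq_iff_eq] at h
        obtain ⟨h1, h2, h3⟩ := h
        refine ⟨rfl, by simp [h3], ?_, ?_⟩
        · intro s hs
          simp only [List.length_cons, List.length_nil] at hs
          have : s = 0 := by omega
          subst this
          exact ⟨h1, h2⟩
        · intro s hs
          simp only [List.length_cons, List.length_nil] at hs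
          omega
      | [], h => simp [rowsLoop] at h
      | _ :: _ :: _, h => simp [rowsLoop] at h
    | cons r2 rs =>
      match lam, h with
      | l1 :: l2 :: ls, h =>
        simp only [rowsLoop, Bool.and_eq_true] at h
        obtain ⟨h1, h2, h3, h4⟩ := h
        obtain ⟨h5, h6, h7, h8⟩ := ih (l2 :: ls) (I + 1) h4
        refine ⟨by simpa using h5, by simp only [List.length_cons] at h6 ⊢; omega, ?_, ?_⟩
        · intro s hs
          cases s with
          | zero => exact ⟨h1, h2⟩
          | succ s =>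
            rw [List.getD_cons_succ, show I + (s + 1) = I + 1 + s by ring]
            exact h7 s (by simpa using hs)
        · intro s hs
          cases s with
          | zero => exact h3
          | succ s =>
            rw [show I + (s + 1) = I + 1 + s by ring]
            exact h8 s (by simpa using hs)
      | [], h => simp [rowsLoop] at h
      | [_], h => simp [rowsLoop] at h

end Run7.h391
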