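import Pool.Agent.Run7.h391.Cert2

/-!
From a checked certificate to a bound for the probability of not having met.
-/

namespace Run7.h391

open Finset MeasureTheory

/-- the table of the exponential function -/
def TableOK (S : ℝ) (N m : ℕ) (E : List ℕ) : Prop :=
  ∀ z ≤ m, (E.getD z 0 : ℝ) ≤ S * Real.exp (-(z : ℝ) / N) ∧ S * Real.exp (-(z : ℝ) / N) ≤ (E.getD z 0 : ℝ) + 1

/-- row number `i` -/
def Cert.row (c : Cert) (i : ℕ) : Row := c.rows.getD i row0

/-- first family of functions -/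
noncomputable def qR (S : ℝ) (c : Cert) (l : Fin c.rq) (i : ℕ) : ℝ := (qZ c.sq (c.row i) l : ℝ) * Real.sqrt (1 / S)

/-- second family of functions -/
noncomputable def gR (S : ℝ) (c : Cert) (l : Fin c.rg) (i : ℕ) : ℝ := (gZ c.sg (c.row i) l : ℝ) * Real.sqrt (c.m / S)

/-- linear part -/
noncomputable def ellR (S : ℝ) (c : Cert) (i : ℕ) : ℝ := (ell2Z c (c.row i) : ℝ) / (2 * S)

/-- final linear part -/
noncomputable def lamR (S : ℝ) (c : Cert) (i : ℕ) : ℝ := (c.lam.getD i 0 : ℝ) / S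

theorem Kv_symm (N x y z : ℕ) : Kv N x y z = Kv N y x z := by
  unfold Kv
  by_cases h : x ≤ N ∧ y ≤ N
  · rw [if_pos h, if_pos h.symm]; ring
  · rw [if_neg h, if_neg (fun h' => h h'.symm)]

theorem qsum {c : Cert} {S : ℝ} (hS : 0 < S) {i j : ℕ} (hi : (c.row i).Q.length = c.rq)
    (hj : (c.row j).Q.length = c.rq) (hsq : c.sq.length = c.rq) :
    S * ∑ l, qR S c l i * qR S c l j = dot (c.row i).Q (c.row j).Q - dot c.sq (c.row i).Q - dot c.sq (c.row j).Q
      + dot c.sq c.sq := by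
  rw [dot_eq _ _ c.rq hi hj, dot_eq _ _ c.rq hsq hi, dot_eq _ _ c.rq hsq hj, dot_eq _ _ c.rq hsq hsq,
    mul_sum, ← sum_sub_distrib, ← sum_sub_distrib, ← sum_add_distrib]
  apply sum_congr rfl
  intro l _
  have h1 : Real.sqrt (1 / S) * Real.sqrt (1 / S) = 1 / S := Real.mul_self_sqrt (by positivity)
  unfold qR qZ
  push_cast
  have h2 : ∀ a b : ℝ, S * (a * Real.sqrt (1 / S) * (b * Real.sqrt (1 / S))) = a * b := by
    intro a b
    have : S * (a * Real.sqrt (1 / S) * (b * Real.sqrt (1 / S)))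
        = S * a * b * (Real.sqrt (1 / S) * Real.sqrt (1 / S)) := by ring
    rw [this, h1]; field_simp
  rw [h2]; ring

theorem gsum {c : Cert} {S : ℝ} (hS : 0 < S) {i j : ℕ} (hi : (c.row i).G.length = c.rg)
    (hj : (c.row j).G.length = c.rg) (hsg : c.sg.length = c.rg) :
    S * ∑ l, gR S c l i * gR S c l j = c.m * (dot (c.row i).G (c.row j).G - dot c.sg (c.row i).G
      - dot c.sg (c.row j).G + dot c.sg c.sg) := by
  rw [dot_eq _ _ c.rg hi hj, dot_eq _ _ c.rg hsg hi, dot_eq _ _ c.rg hsg hj, dot_eq _ _ c.rg hsg hsg,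
    mul_sum, ← sum_sub_distrib, ← sum_sub_distrib, ← sum_add_distrib, mul_sum]
  apply sum_congr rfl
  intro l _
  have h1 : Real.sqrt (c.m / S) * Real.sqrt (c.m / S) = c.m / S := Real.mul_self_sqrt (by positivity)
  unfold gR gZ
  push_cast
  have h2 : ∀ a b : ℝ, S * (a * Real.sqrt (c.m / S) * (b * Real.sqrt (c.m / S))) = c.m * (a * b) := by
    intro a b
    have : S * (a * Real.sqrt (c.m / S) * (b * Real.sqrt (c.m / S)))
        = S * a * b * (Real.sqrt (c.m / S) * Real.sqrt (c.m / S)) := by ring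
    rw [this, h1]; field_simp
  rw [h2]; ring

theorem cert_unfold {c : Cert} {E : List ℕ} (h : certOK c E = true) :
    c.sq.length = c.rq ∧ c.sg.length = c.rg ∧ dot c.sq c.sq ≤ 2 * c.hs ∧ c.m < E.length
      ∧ rowsLoop c c.rows c.lam 0 = true ∧ iLoop (pairCheck c.m c.N c.L2 (dot c.sg c.sg) E) c.rows [] 0 = true := by
  unfold certOK at h
  simp only [Bool.and_eq_true, beq_iff_eq, decide_eq_true_eq] at h
  obtain ⟨h1, h2, h3, h4, h5, h6⟩ := h
  exact ⟨h1, h2, h3, h4, h5, h6⟩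

theorem vertex_aux {c : Cert} {E : List ℕ} {S : ℝ} (hS : 0 < S) (hm : 0 < c.m) (h : certOK c E = true)
    (hE : TableOK S c.N c.m E) {x t y z : ℕ} (hs : x + t + y + z = c.m) (hyx : y ≤ x) :
    ellR S c (x + t) + ellR S c (t + y) + ∑ l, qR S c l (x + t) * qR S c l (t + y)
        + ∑ l, (gR S c l (x + t) * gR S c l (t + y) * (t : ℝ)
          - ((x + t : ℕ) * gR S c l (x + t)) * ((t + y : ℕ) * gR S c l (t + y)) / c.m) ≤ Kv c.N x y z := by
  obtain ⟨h1, h2, h3, h4, h5, h6⟩ := cert_unfold h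
  obtain ⟨h7, h8, h9, h10⟩ := rowsLoop_spec c _ _ _ h5
  rw [zero_add] at h8
  have hm0 : (0 : ℝ) < c.m := by exact_mod_cast hm
  set i := x + t with hi
  set j := t + y with hj
  have hpc := iLoop_spec _ c.rows [] 0 rfl h6 i (Nat.zero_le _) (by omega) j (by omega)
  rw [List.reverse_nil, List.nil_append] at hpc
  have hsp := pairCheck_spec hpc (by omega) (by omega) (k := t) (by omega) (by omega)
  have hri : rowOK c (c.row i) = true := (h9 i (by omega)).1
  have hrj : rowOK c (c.row j) = true := (h9 j (by omega)).1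
  unfold rowOK at hri hrj
  simp only [Bool.and_eq_true, beq_iff_eq] at hri hrj
  obtain ⟨hi1, hi2, hi3⟩ := hri
  obtain ⟨hj1, hj2, hj3⟩ := hrj
  have hq := qsum hS hi1 hj1 h1
  have hg := gsum hS hi2 hj2 h2
  have hgs : ∑ l, (gR S c l i * gR S c l j * (t : ℝ)
          - ((i : ℕ) * gR S c l i) * ((j : ℕ) * gR S c l j) / c.m)
      = (∑ l, gR S c l i * gR S c l j) * (t - (i : ℝ) * j / c.m) := by
    rw [sum_mul]
    apply sum_congr rfl
    intro l _
    field_simp
  rw [hgs]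
  -- multiply by `S`
  have hri' : c.row i = c.rows.getD i row0 := rfl
  have hrj' : c.row j = c.rows.getD j row0 := rfl
  rw [← hri', ← hrj'] at hsp
  have h3' : (dot c.sq c.sq : ℝ) ≤ 2 * c.hs := by exact_mod_cast h3
  have hti : ((c.row i).t : ℝ) = dot c.sg (c.row i).G := by exact_mod_cast hi3
  have htj : ((c.row j).t : ℝ) = dot c.sg (c.row j).G := by exact_mod_cast hj3
  have hLHS : S * (ellR S c i + ellR S c j + ∑ l, qR S c l i * qR S c l j
        + (∑ l, gR S c l i * gR S c l j) * (t - (i : ℝ) * j / c.m))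
      ≤ ((c.row i).lp : ℝ) + (c.row j).lp + dot (c.row i).Q (c.row j).Q - c.L2
        + (c.m * t - (i : ℝ) * j) * ((dot (c.row i).G (c.row j).G + dot c.sg c.sg) - ((c.row i).t + (c.row j).t)) := by
    have e1 : S * (ellR S c i + ellR S c j + ∑ l, qR S c l i * qR S c l j
        + (∑ l, gR S c l i * gR S c l j) * (t - (i : ℝ) * j / c.m))
        = S * (ellR S c i + ellR S c j) + S * ∑ l, qR S c l i * qR S c l j
        + (S * ∑ l, gR S c l i * gR S c l j) * (t - (i : ℝ) * j / c.m) := by ring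
    rw [e1, hq, hg]
    have e2 : S * (ellR S c i + ellR S c j) = ((c.row i).lp : ℝ) + (c.row j).lp - c.L2
        + dot c.sq (c.row i).Q + dot c.sq (c.row j).Q - 2 * c.hs := by
      unfold ellR ell2Z
      push_cast
      field_simp
      ring
    have e3 : (c.m : ℝ) * (dot (c.row i).G (c.row j).G - dot c.sg (c.row i).G
      - dot c.sg (c.row j).G + dot c.sg c.sg) * (t - (i : ℝ) * j / c.m)
      = (c.m * t - (i : ℝ) * j) * ((dot (c.row i).G (c.row j).G + dot c.sg c.sg) - ((c.row i).t + (c.row j).t)) := by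
      rw [hti, htj]
      field_simp
      ring
    rw [e2, e3]
    linarith
  by_cases hxN : x ≤ c.N
  · have hyN : y ≤ c.N := hyx.trans hxN
    have h11 := hsp.1 (by omega)
    have e1 : c.N + t - i = c.N - x := by omega
    have e2 : c.N + t - j = c.N - y := by omega
    have e3 : c.m + t - (i + j) = z := by omega
    rw [e1, e2, e3] at h11
    obtain ⟨hE1, hE2⟩ := hE z (by omega)
    set w := Real.exp (-(z : ℝ) / c.N)
    set e := E.getD z 0
    have h12 : (((c.row i).lp : ℝ) + (c.row j).lp + dot (c.row i).Q (c.row j).Q + (i : ℝ) * j * ((c.row i).t + (c.row j).t)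
        + t * (c.m * (dot (c.row i).G (c.row j).G + dot c.sg c.sg)) + 1 + e)
        ≤ ((c.N - x : ℕ) : ℝ) * ((c.N - y : ℕ) : ℝ) * e
          + (c.L2 + (i : ℝ) * j * (dot (c.row i).G (c.row j).G + dot c.sg c.sg)
            + t * (c.m * ((c.row i).t + (c.row j).t))) := by
      exact_mod_cast h11
    have hX : ((c.N - x : ℕ) : ℝ) = (c.N : ℝ) - x := by push_cast [hxN]; ring
    have hY : ((c.N - y : ℕ) : ℝ) = (c.N : ℝ) - y := by push_cast [hyN]; ring
    have hKv : Kv c.N x y z = (((c.N - x : ℕ) : ℝ) * ((c.N - y : ℕ) : ℝ) - 1) * w := by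
      unfold Kv
      rw [if_pos ⟨hxN, hyN⟩, hX, hY]
    have hXY : ((c.N - x : ℕ) : ℝ) * ((c.N - y : ℕ) : ℝ) * e - e - 1
        ≤ S * ((((c.N - x : ℕ) : ℝ) * ((c.N - y : ℕ) : ℝ) - 1) * w) := by
      rcases Nat.eq_zero_or_pos ((c.N - x) * (c.N - y)) with h13 | h13
      · have h14 : ((c.N - x : ℕ) : ℝ) * ((c.N - y : ℕ) : ℝ) = 0 := by exact_mod_cast h13
        rw [h14]
        linarith
      · have h14 : (1 : ℝ) ≤ ((c.N - x : ℕ) : ℝ) * ((c.N - y : ℕ) : ℝ) := by exact_mod_cast h13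
        nlinarith
    rw [hKv]
    have h15 : S * (ellR S c i + ellR S c j + ∑ l, qR S c l i * qR S c l j
        + (∑ l, gR S c l i * gR S c l j) * (t - (i : ℝ) * j / c.m))
        ≤ S * ((((c.N - x : ℕ) : ℝ) * ((c.N - y : ℕ) : ℝ) - 1) * w) := by
      refine hLHS.trans (le_trans ?_ hXY)
      linarith
    exact le_of_mul_le_mul_left h15 hS
  · have h11 := hsp.2 (by omega)
    have h12 : (((c.row i).lp : ℝ) + (c.row j).lp + dot (c.row i).Q (c.row j).Q + (i : ℝ) * j * ((c.row i).t + (c.row j).t)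
        + t * (c.m * (dot (c.row i).G (c.row j).G + dot c.sg c.sg)))
        ≤ (c.L2 + (i : ℝ) * j * (dot (c.row i).G (c.row j).G + dot c.sg c.sg)
            + t * (c.m * ((c.row i).t + (c.row j).t))) := by
      exact_mod_cast h11
    have hKv : Kv c.N x y z = 0 := by
      unfold Kv
      rw [if_neg]
      intro h; exact hxN h.1
    rw [hKv]
    have h15 : S * (ellR S c i + ellR S c j + ∑ l, qR S c l i * qR S c l j
        + (∑ l, gR S c l i * gR S c l j) * (t - (i : ℝ) * j / c.m)) ≤ S * 0 := by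
      refine hLHS.trans ?_
      linarith
    exact le_of_mul_le_mul_left h15 hS

theorem vertex {c : Cert} {E : List ℕ} {S : ℝ} (hS : 0 < S) (hm : 0 < c.m) (h : certOK c E = true)
    (hE : TableOK S c.N c.m E) (x t y z : ℕ) (hs : x + t + y + z = c.m) :
    ellR S c (x + t) + ellR S c (t + y) + ∑ l, qR S c l (x + t) * qR S c l (t + y)
        + ∑ l, (gR S c l (x + t) * gR S c l (t + y) * (t : ℝ)
          - ((x + t : ℕ) * gR S c l (x + t)) * ((t + y : ℕ) * gR S c l (t + y)) / c.m) ≤ Kv c.N x y z := by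
  rcases le_total y x with hyx | hyx
  · exact vertex_aux hS hm h hE hs hyx
  · have h1 := vertex_aux hS hm h hE (x := y) (t := t) (y := x) (z := z) (by omega) hyx
    rw [Kv_symm, add_comm x t, add_comm t y]
    refine le_trans (le_of_eq ?_) h1
    rw [add_comm t x]
    have e1 : ∑ l, qR S c l (x + t) * qR S c l (y + t) = ∑ l, qR S c l (y + t) * qR S c l (x + t) :=
      sum_congr rfl fun l _ => mul_comm _ _
    have e2 : ∑ l, (gR S c l (x + t) * gR S c l (y + t) * (t : ℝ)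
          - ((x + t : ℕ) * gR S c l (x + t)) * ((y + t : ℕ) * gR S c l (y + t)) / c.m)
        = ∑ l, (gR S c l (y + t) * gR S c l (x + t) * (t : ℝ)
          - ((y + t : ℕ) * gR S c l (y + t)) * ((x + t : ℕ) * gR S c l (x + t)) / c.m) :=
      sum_congr rfl fun l _ => by ring
    rw [e1, e2]
    ring

theorem lam_cond {c : Cert} {E : List ℕ} {S : ℝ} (hS : 0 < S) (hm : 0 < c.m) (hN : 0 < c.N) (h : certOK c E = true) :
    ∀ I < c.m, ∀ i, (i = I ∨ i = I + 1) → lamR S c i ≤ ellR S c i - sErr c.N c.m (qR S c) (gR S c) I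
      - (∑ l : Fin c.rg, ((c.C.getD l 0 : ℝ) * Real.sqrt (c.m / S)) * |gR S c l (I + 1) - gR S c l I|) / (4 * c.m) := by
  intro I hI i hi
  obtain ⟨-, -, -, -, h5, -⟩ := cert_unfold h
  obtain ⟨h7, h8, h9, h10⟩ := rowsLoop_spec c _ _ _ h5
  rw [zero_add] at h8
  have h11 := h10 I (by omega)
  rw [zero_add] at h11
  have hm0 : (0 : ℝ) < c.m := by exact_mod_cast hm
  have hN0 : (0 : ℝ) < c.N := by exact_mod_cast hN
  unfold lamOK at h11
  simp only [Bool.and_eq_true, decide_eq_true_eq] at h11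
  have hr1 : c.rows.getD I row0 = c.row I := rfl
  have hr2 : c.rows.getD (I + 1) row0 = c.row (I + 1) := rfl
  rw [hr1, hr2] at h11
  have hρ : Real.sqrt (c.m / S) * Real.sqrt (c.m / S) = c.m / S := Real.mul_self_sqrt (by positivity)
  have hσ : Real.sqrt (1 / S) * Real.sqrt (1 / S) = 1 / S := Real.mul_self_sqrt (by positivity)
  have hρ0 : 0 ≤ Real.sqrt (c.m / S) := Real.sqrt_nonneg _
  set ρ := Real.sqrt (c.m / S) with hρd
  set σ := Real.sqrt (1 / S) with hσd
  -- the error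
  have herr : sErr c.N c.m (qR S c) (gR S c) I
      + (∑ l : Fin c.rg, ((c.C.getD l 0 : ℝ) * ρ) * |gR S c l (I + 1) - gR S c l I|) / (4 * c.m)
      = (errZ c I (c.row I) (c.row (I + 1)) : ℝ) / (8 * c.N * S) := by
    unfold errZ sErr
    push_cast
    rw [sumTo_eq, sumTo_eq, sumTo_eq]
    have e1 : (∑ l : Fin c.rq, (qR S c l (I + 1) - qR S c l I) ^ 2) / 8
        = c.N * (∑ l : Fin c.rq, (((qZ c.sq (c.row (I + 1)) l - qZ c.sq (c.row I) l) ^ 2 : ℤ) : ℝ)) / (8 * c.N * S) := by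
      rw [sum_div, mul_sum, sum_div]
      apply sum_congr rfl
      intro l _
      unfold qR
      rw [← hσd]
      push_cast
      have : ((qZ c.sq (c.row (I + 1)) l : ℝ) * σ - (qZ c.sq (c.row I) l : ℝ) * σ) ^ 2
          = ((qZ c.sq (c.row (I + 1)) l : ℝ) - (qZ c.sq (c.row I) l : ℝ)) ^ 2 * (σ * σ) := by ring
      rw [this, hσ]; field_simp
    have e2 : (∑ l : Fin c.rg, (max (gR S c l I ^ 2) (gR S c l (I + 1) ^ 2) / c.N
        + (c.N + (I : ℝ) + 1) * (gR S c l (I + 1) - gR S c l I) ^ 2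
        + (((I : ℝ) + 1) * gR S c l (I + 1) - (I : ℝ) * gR S c l I) ^ 2 / c.m)) / 8
        = (∑ l : Fin c.rg, ((c.m * max (gZ c.sg (c.row I) l ^ 2) (gZ c.sg (c.row (I + 1)) l ^ 2)
      + c.N * (c.m * (c.N + I + 1)) * (gZ c.sg (c.row (I + 1)) l - gZ c.sg (c.row I) l) ^ 2
      + c.N * ((I + 1) * gZ c.sg (c.row (I + 1)) l - I * gZ c.sg (c.row I) l) ^ 2 : ℤ) : ℝ)) / (8 * c.N * S) := by
      rw [sum_div, sum_div]
      apply sum_congr rfl
      intro l _
      unfold gR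
      rw [← hρd]
      push_cast
      set A := (gZ c.sg (c.row I) l : ℝ)
      set B := (gZ c.sg (c.row (I + 1)) l : ℝ)
      have f1 : max ((A * ρ) ^ 2) ((B * ρ) ^ 2) = max (A ^ 2) (B ^ 2) * (ρ * ρ) := by
        have : ∀ x : ℝ, (x * ρ) ^ 2 = x ^ 2 * (ρ * ρ) := fun x => by ring
        rw [this, this, max_mul_of_nonneg _ _ (mul_nonneg hρ0 hρ0)]
      have f2 : (B * ρ - A * ρ) ^ 2 = (B - A) ^ 2 * (ρ * ρ) := by ring
      have f3 : (((I : ℝ) + 1) * (B * ρ) - I * (A * ρ)) ^ 2 = ((I + 1) * B - I * A) ^ 2 * (ρ * ρ) := by ring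
      rw [f1, f2, f3, hρ]
      field_simp
    have e3 : (∑ l : Fin c.rg, ((c.C.getD l 0 : ℝ) * ρ) * |gR S c l (I + 1) - gR S c l I|) / (4 * c.m)
        = 2 * c.N * (∑ l : Fin c.rg, (((c.C.getD l 0 : ℤ) * |gZ c.sg (c.row (I + 1)) l - gZ c.sg (c.row I) l| : ℤ) : ℝ))
          / (8 * c.N * S) := by
      rw [sum_div, mul_sum, sum_div]
      apply sum_congr rfl
      intro l _
      unfold gR
      rw [← hρd]
      push_cast
      have : |(gZ c.sg (c.row (I + 1)) l : ℝ) * ρ - (gZ c.sg (c.row I) l : ℝ) * ρ|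
          = |(gZ c.sg (c.row (I + 1)) l : ℝ) - (gZ c.sg (c.row I) l : ℝ)| * ρ := by
        rw [← sub_mul, abs_mul, abs_of_nonneg hρ0]
      rw [this]
      have h12 : (c.C.getD l 0 : ℝ) * ρ * (|(gZ c.sg (c.row (I + 1)) l : ℝ) - (gZ c.sg (c.row I) l : ℝ)| * ρ)
          = (c.C.getD l 0 : ℝ) * |(gZ c.sg (c.row (I + 1)) l : ℝ) - (gZ c.sg (c.row I) l : ℝ)| * (ρ * ρ) := by ring
      rw [h12, hρ]
      field_simp
      ring
    rw [e1, e2, e3, ← add_div, ← add_div]
  have hd : (0 : ℝ) < 8 * c.N * S := by positivity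
  have key : ∀ r : Row, ∀ lz : ℤ, errZ c I (c.row I) (c.row (I + 1)) ≤ 4 * c.N * (ell2Z c r - 2 * lz) →
      (lz : ℝ) / S ≤ (ell2Z c r : ℝ) / (2 * S) - (errZ c I (c.row I) (c.row (I + 1)) : ℝ) / (8 * c.N * S) := by
    intro r lz h12
    have h13 : (errZ c I (c.row I) (c.row (I + 1)) : ℝ) ≤ 4 * c.N * ((ell2Z c r : ℝ) - 2 * lz) := by
      exact_mod_cast h12
    have h14 : (errZ c I (c.row I) (c.row (I + 1)) : ℝ) / (8 * c.N * S) ≤ 4 * c.N * ((ell2Z c r : ℝ) - 2 * lz) / (8 * c.N * S) :=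
      div_le_div_of_nonneg_right h13 hd.le
    have h15 : 4 * (c.N : ℝ) * ((ell2Z c r : ℝ) - 2 * lz) / (8 * c.N * S) = (ell2Z c r : ℝ) / (2 * S) - lz / S := by
      field_simp; ring
    linarith
  have hfin : lamR S c i ≤ ellR S c i - (errZ c I (c.row I) (c.row (I + 1)) : ℝ) / (8 * c.N * S) := by
    unfold lamR ellR
    rcases hi with rfl | rfl
    · exact key _ _ h11.1
    · exact key _ _ h11.2
  linarith

theorem c_cond {c : Cert} {E : List ℕ} {S : ℝ} (h : certOK c E = true) (l : Fin c.rg) :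
    ∀ i ≤ c.m, |(i : ℝ) * gR S c l i| ≤ (c.C.getD l 0 : ℝ) * Real.sqrt (c.m / S) := by
  intro i hi
  obtain ⟨-, -, -, -, h5, -⟩ := cert_unfold h
  obtain ⟨h7, h8, h9, h10⟩ := rowsLoop_spec c _ _ _ h5
  rw [zero_add] at h8
  have h11 := (h9 i (by omega)).2
  rw [zero_add] at h11
  unfold cOK at h11
  rw [List.all_eq_true] at h11
  have h12 := h11 l.1 (List.mem_range.2 l.2)
  rw [decide_eq_true_eq] at h12
  have h13 : |(i : ℝ) * (gZ c.sg (c.row i) l : ℝ)| ≤ (c.C.getD l 0 : ℝ) := by exact_mod_cast h12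
  unfold gR
  rw [← mul_assoc, abs_mul, abs_of_nonneg (Real.sqrt_nonneg _)]
  exact mul_le_mul_of_nonneg_right h13 (Real.sqrt_nonneg _)

/-- the bound from a certificate -/
theorem cert_bound {n K : ℕ} (D : Measure (Schedule n)) [IsProbabilityMeasure D] {c : Cert} {E : List ℕ} {S : ℝ}
    (hS : 0 < S) (hm : 0 < c.m) (h : certOK c E = true) (hE : TableOK S c.N c.m E)
    {M w : ℕ} (hN : 16 ≤ c.N) (hM : 0 < M) (hNM : c.N * M ≤ n) (hw : 0 < w)
    (hwn : 2 * w + 2 ≤ n) (hT : c.m * M ≤ K) :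
    2 * ∑ u, pw D K u * bar M (lamR S c) (hc w (c.m * M) u)
      ≤ (c.N : ℝ) ^ 2 * (missProb D (c.m * M) + eta n K w (c.N * M)) :=
  time_bound D hN hM hm hNM hw hwn hT (ellR S c) (qR S c) (gR S c)
    (fun l => (c.C.getD l 0 : ℝ) * Real.sqrt (c.m / S)) (fun l => c_cond h l)
    (fun x t y z hs => vertex hS hm h hE x t y z hs) (lamR S c) (lam_cond hS hm (by omega) h)

end Run7.h391
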