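import Mathlib

/-!
A checker for certificates, to be evaluated by the kernel.
-/

namespace Run7.h391

/-- dot product -/
def dot (as : List ℕ) : List ℕ → ℕ :=
  @List.rec ℕ (fun _ => List ℕ → ℕ) (fun _ => 0)
    (fun a _ ih bs => @List.rec ℕ (fun _ => ℕ) 0 (fun b bs' _ => Nat.add (Nat.mul a b) (ih bs')) bs) as

/-- drop -/
def dropE (n : ℕ) : List ℕ → List ℕ :=
  @Nat.rec (fun _ => List ℕ → List ℕ) (fun l => l)
    (fun _ ih l => @List.rec ℕ (fun _ => List ℕ) [] (fun _ l' _ => ih l') l) n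

/-- the check for one pair of indices, where the kernel is not zero -/
def inner (dP dQ : ℕ) (fuel : ℕ) : List ℕ → ℕ → ℕ → ℕ → ℕ → Bool :=
  @Nat.rec (fun _ => List ℕ → ℕ → ℕ → ℕ → ℕ → Bool) (fun _ _ _ _ _ => true)
    (fun _ ih E x y P Q => @List.rec ℕ (fun _ => Bool) false
      (fun e es _ => cond (Nat.ble (Nat.add P e) (Nat.add (Nat.mul (Nat.mul x y) e) Q))
        (ih es (Nat.succ x) (Nat.succ y) (Nat.add P dP) (Nat.add Q dQ)) false) E) fuel

/-- a row of a certificate -/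
structure Row where
  lp : ℕ
  Q : List ℕ
  G : List ℕ
  t : ℕ

/-- maximum -/
def nmax (a b : ℕ) : ℕ := cond (Nat.ble a b) b a

/-- minimum -/
def nmin (a b : ℕ) : ℕ := cond (Nat.ble a b) a b

/-- check of a pair of indices; `Rp - Rm` is the coefficient of the overlap -/
def pairAux (m N L2 : ℕ) (E : List ℕ) (i j : ℕ) (k1 Rp Rm bP : ℕ) : Bool :=
  cond (inner (Nat.mul m Rp) (Nat.mul m Rm) (Nat.sub (Nat.add j 1) k1) (dropE (Nat.sub (Nat.add m k1) (Nat.add i j)) E)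
      (Nat.sub (Nat.add N k1) i) (Nat.sub (Nat.add N k1) j)
      (Nat.add (Nat.add (Nat.add bP (Nat.mul (Nat.mul i j) Rm)) (Nat.mul k1 (Nat.mul m Rp))) 1)
      (Nat.add (Nat.add L2 (Nat.mul (Nat.mul i j) Rp)) (Nat.mul k1 (Nat.mul m Rm))))
    (cond (Nat.ble (Nat.sub i N) (Nat.sub (Nat.add i j) m)) true
      (cond (Nat.ble (Nat.add (Nat.add bP (Nat.mul (Nat.mul i j) Rm)) (Nat.mul (Nat.sub (Nat.add i j) m) (Nat.mul m Rp)))
          (Nat.add (Nat.add L2 (Nat.mul (Nat.mul i j) Rp)) (Nat.mul (Nat.sub (Nat.add i j) m) (Nat.mul m Rm))))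
        (Nat.ble (Nat.add (Nat.add bP (Nat.mul (Nat.mul i j) Rm)) (Nat.mul (nmin j (Nat.sub (Nat.sub i N) 1)) (Nat.mul m Rp)))
          (Nat.add (Nat.add L2 (Nat.mul (Nat.mul i j) Rp)) (Nat.mul (nmin j (Nat.sub (Nat.sub i N) 1)) (Nat.mul m Rm))))
        false))
    false

/-- check of a pair of rows -/
def pairCheck (m N L2 tt : ℕ) (E : List ℕ) (i : ℕ) (ri : Row) (j : ℕ) (rj : Row) : Bool :=
  pairAux m N L2 E i j (nmax (Nat.sub (Nat.add i j) m) (Nat.sub i N)) (Nat.add (dot ri.G rj.G) tt)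
    (Nat.add ri.t rj.t) (Nat.add (Nat.add ri.lp rj.lp) (dot ri.Q rj.Q))

/-- check of a row against the rows before it, given in reverse order -/
def jLoop (f : ℕ → Row → Bool) (l : List Row) : ℕ → Bool :=
  @List.rec Row (fun _ => ℕ → Bool) (fun _ => true)
    (fun r _ ih j => cond (f j r) (ih (Nat.sub j 1)) false) l

/-- check of all pairs of rows -/
def iLoop (f : ℕ → Row → ℕ → Row → Bool) (l : List Row) : List Row → ℕ → Bool :=
  @List.rec Row (fun _ => List Row → ℕ → Bool) (fun _ _ => true)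
    (fun r _ ih acc i => cond (jLoop (f i r) (r :: acc) i) (ih (r :: acc) (Nat.succ i)) false) l

end Run7.h391
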