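import Mathlib

/-!
Counting permutations that avoid a set of pairs.
-/

namespace Run7.h391

open Finset

variable {n : ℕ}

/-- `π` avoids the set `G` of pairs. -/
def Avoids (π : Equiv.Perm (Fin n)) (G : Finset (Fin n × Fin n)) : Prop := ∀ e ∈ G, π e.1 ≠ e.2

instance (π : Equiv.Perm (Fin n)) (G : Finset (Fin n × Fin n)) : Decidable (Avoids π G) := by
  unfold Avoids; infer_instance

/-- number of permutations avoiding `G` -/
def av (G : Finset (Fin n × Fin n)) : ℕ := (univ.filter fun π : Equiv.Perm (Fin n) => Avoids π G).card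

/-- number of permutations through `e` avoiding `G` -/
def hv (e : Fin n × Fin n) (G : Finset (Fin n × Fin n)) : ℕ :=
  (univ.filter fun π : Equiv.Perm (Fin n) => π e.1 = e.2 ∧ Avoids π G).card

/-- number of permutations through `e` hitting `G` -/
def hh (e : Fin n × Fin n) (G : Finset (Fin n × Fin n)) : ℕ :=
  (univ.filter fun π : Equiv.Perm (Fin n) => π e.1 = e.2 ∧ ¬ Avoids π G).card

/-- disjoint pairs -/
def Dj (e f : Fin n × Fin n) : Prop := e.1 ≠ f.1 ∧ e.2 ≠ f.2

instance (e f : Fin n × Fin n) : Decidable (Dj e f) := by unfold Dj; infer_instance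

theorem Dj.symm {e f : Fin n × Fin n} (h : Dj e f) : Dj f e := ⟨h.1.symm, h.2.symm⟩

theorem avoids_insert {π : Equiv.Perm (Fin n)} {f : Fin n × Fin n} {G : Finset (Fin n × Fin n)} :
    Avoids π (insert f G) ↔ π f.1 ≠ f.2 ∧ Avoids π G := by
  unfold Avoids
  simp

theorem hv_add_hh (e : Fin n × Fin n) (G : Finset (Fin n × Fin n)) :
    hv e G + hh e G = (univ.filter fun π : Equiv.Perm (Fin n) => π e.1 = e.2).card := by
  unfold hv hh
  rw [← filter_filter, ← filter_filter]
  exact card_filter_add_card_filter_not _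

theorem av_insert (e : Fin n × Fin n) (G : Finset (Fin n × Fin n)) :
    av (insert e G) + hv e G = av G := by
  unfold av hv
  rw [← card_union_of_disjoint]
  · congr 1
    ext π
    simp only [mem_union, mem_filter, mem_univ, true_and, avoids_insert]
    tauto
  · rw [disjoint_left]
    intro π h1 h2
    simp only [mem_filter, mem_univ, true_and, avoids_insert] at h1 h2
    exact h1.1 h2.1

/-- number of permutations through two pairs, avoiding `G` -/
def hv2 (e f : Fin n × Fin n) (G : Finset (Fin n × Fin n)) : ℕ :=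
  (univ.filter fun π : Equiv.Perm (Fin n) => π e.1 = e.2 ∧ π f.1 = f.2 ∧ Avoids π G).card

theorem hv_insert (e f : Fin n × Fin n) (G : Finset (Fin n × Fin n)) :
    hv e (insert f G) + hv2 e f G = hv e G := by
  unfold hv hv2
  rw [← card_union_of_disjoint]
  · congr 1
    ext π
    simp only [mem_union, mem_filter, mem_univ, true_and, avoids_insert]
    tauto
  · rw [disjoint_left]
    intro π h1 h2
    simp only [mem_filter, mem_univ, true_and, avoids_insert] at h1 h2
    exact h1.2.1 h2.2.1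

/-- relabelling -/
theorem hv_relabel (σ τ : Equiv.Perm (Fin n)) (e : Fin n × Fin n) (G : Finset (Fin n × Fin n)) :
    hv (σ e.1, τ e.2) (G.image fun f => (σ f.1, τ f.2)) = hv e G := by
  unfold hv
  symm
  refine Finset.card_bij' (fun π _ => τ * π * σ⁻¹) (fun π _ => τ⁻¹ * π * σ) ?_ ?_ ?_ ?_
  · intro π h
    rw [mem_filter] at h ⊢
    obtain ⟨-, h1, h2⟩ := h
    refine ⟨mem_univ _, by simp [Equiv.Perm.mul_apply, h1], ?_⟩
    intro e' he'
    obtain ⟨f, hf, rfl⟩ := mem_image.1 he'
    simpa [Equiv.Perm.mul_apply] using h2 f hf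
  · intro π h
    rw [mem_filter] at h ⊢
    obtain ⟨-, h1, h2⟩ := h
    refine ⟨mem_univ _, by simp only [Equiv.Perm.mul_apply]; simp only at h1; rw [h1]; simp, ?_⟩
    intro f hf hh
    apply h2 _ (mem_image_of_mem _ hf)
    simp only [Equiv.Perm.mul_apply] at hh ⊢
    rw [← hh]; simp
  · intro π h; ext x; simp [Equiv.Perm.mul_apply]
  · intro π h; ext x; simp [Equiv.Perm.mul_apply]

/-- inverse -/
theorem hv_inv (e : Fin n × Fin n) (G : Finset (Fin n × Fin n)) :
    hv e.swap (G.image Prod.swap) = hv e G := by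
  unfold hv
  symm
  refine Finset.card_bij' (fun π _ => π⁻¹) (fun π _ => π⁻¹) ?_ ?_ ?_ ?_
  · intro π h
    rw [mem_filter] at h ⊢
    obtain ⟨-, h1, h2⟩ := h
    refine ⟨mem_univ _, by simp only [Prod.fst_swap, Prod.snd_swap]; rw [← h1]; simp, ?_⟩
    intro e' he' hh
    obtain ⟨f, hf, rfl⟩ := mem_image.1 he'
    apply h2 f hf
    simp only [Prod.fst_swap, Prod.snd_swap] at hh
    rw [← hh]; simp
  · intro π h
    rw [mem_filter] at h ⊢
    obtain ⟨-, h1, h2⟩ := h
    simp only [Prod.fst_swap, Prod.snd_swap] at h1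
    refine ⟨mem_univ _, by rw [← h1]; simp, ?_⟩
    intro f hf hh
    apply h2 _ (mem_image_of_mem _ hf)
    simp only [Prod.fst_swap, Prod.snd_swap]
    rw [← hh]; simp
  · intro π h; simp
  · intro π h; simp

/-- swapping inequality on the left -/
theorem hv2_swap_le {e : Fin n × Fin n} {i i' r : Fin n} {H : Finset (Fin n × Fin n)}
    (hi : e.1 ≠ i) (hi' : e.1 ≠ i') (hir : (i, r) ∉ H) (hH : ∀ f ∈ H, f.1 ≠ i') :
    hv2 e (i', r) H ≤ hv2 e (i, r) H := by
  unfold hv2
  refine Finset.card_le_card_of_injOn (fun π => π * Equiv.swap i i') ?_ ?_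
  · intro π h
    rw [mem_coe, mem_filter] at h ⊢
    obtain ⟨-, h1, h2, h3⟩ := h
    simp only at h2
    refine ⟨mem_univ _, ?_, ?_, ?_⟩
    · rw [Equiv.Perm.mul_apply, Equiv.swap_apply_of_ne_of_ne hi hi']; exact h1
    · simp only [Equiv.Perm.mul_apply, Equiv.swap_apply_left]; exact h2
    · intro f hf
      rw [Equiv.Perm.mul_apply]
      by_cases hfi : f.1 = i
      · rw [hfi, Equiv.swap_apply_left, h2]
        rintro rfl
        apply hir
        rw [← hfi]; exact hf
      · rw [Equiv.swap_apply_of_ne_of_ne hfi (hH f hf)]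
        exact h3 f hf
  · intro π _ π' _ h
    exact mul_right_cancel h

theorem hv_move_left {e : Fin n × Fin n} {i i' r : Fin n} {H : Finset (Fin n × Fin n)}
    (hi : e.1 ≠ i) (hi' : e.1 ≠ i') (hir : (i, r) ∉ H) (hH : ∀ f ∈ H, f.1 ≠ i') :
    hv e (insert (i, r) H) ≤ hv e (insert (i', r) H) := by
  have h1 := hv_insert e (i, r) H
  have h2 := hv_insert e (i', r) H
  have h3 := hv2_swap_le hi hi' hir hH
  omega

theorem hv_move_right {e : Fin n × Fin n} {i r r' : Fin n} {H : Finset (Fin n × Fin n)}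
    (hr : e.2 ≠ r) (hr' : e.2 ≠ r') (hir : (i, r) ∉ H) (hH : ∀ f ∈ H, f.2 ≠ r') :
    hv e (insert (i, r) H) ≤ hv e (insert (i, r') H) := by
  rw [← hv_inv e (insert (i, r) H), ← hv_inv e (insert (i, r') H)]
  rw [image_insert, image_insert]
  apply hv_move_left
  · exact hr
  · exact hr'
  · simp only [mem_image, not_exists, not_and]
    intro f hf h
    apply hir
    have : f = (i, r) := by
      have := congrArg Prod.swap h
      simpa using this
    rwa [← this]
  · intro f hf
    simp only [mem_image] at hf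
    obtain ⟨g, hg, rfl⟩ := hf
    exact hH g hg

/-- an injective partial labelling extends to a permutation -/
theorem exists_perm_extend {m : ℕ} (hm : m ≤ n) (a : Fin m → Fin n) (ha : Function.Injective a) :
    ∃ σ : Equiv.Perm (Fin n), ∀ i : Fin m, σ (Fin.castLE hm i) = a i := by
  classical
  let e1 : Fin m ≃ {x : Fin n // x ∈ Set.range (Fin.castLE hm)} :=
    Equiv.ofInjective (Fin.castLE hm) (Fin.castLE_injective hm)
  let e2 : Fin m ≃ {x : Fin n // x ∈ Set.range a} := Equiv.ofInjective a ha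
  let e : {x : Fin n // x ∈ Set.range (Fin.castLE hm)} ≃ {x : Fin n // x ∈ Set.range a} :=
    e1.symm.trans e2
  refine ⟨e.extendSubtype, fun i => ?_⟩
  rw [Equiv.extendSubtype_apply_of_mem e _ ⟨i, rfl⟩]
  have h : e1.symm ⟨Fin.castLE hm i, ⟨i, rfl⟩⟩ = i := by
    rw [Equiv.symm_apply_eq]; rfl
  show ((e2 (e1.symm ⟨Fin.castLE hm i, ⟨i, rfl⟩⟩)) : Fin n) = a i
  rw [h]; rfl

/-- the diagonal pairs `(i, i)`, `i < j` -/
def diag (n j : ℕ) : Finset (Fin n × Fin n) := (univ.filter fun i : Fin n => i.1 < j).image fun i => (i, i)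

theorem mem_diag {j : ℕ} {f : Fin n × Fin n} : f ∈ diag n j ↔ f.1 = f.2 ∧ f.1.1 < j := by
  unfold diag
  simp only [mem_image, mem_filter, mem_univ, true_and]
  constructor
  · rintro ⟨i, hi, rfl⟩; exact ⟨rfl, hi⟩
  · rintro ⟨h1, h2⟩; exact ⟨f.1, h2, by ext <;> simp [h1]⟩

theorem card_diag {j : ℕ} (hj : j ≤ n) : (diag n j).card = j := by
  unfold diag
  rw [card_image_of_injective _ (fun a b h => (Prod.mk.inj h).1)]
  have : (univ.filter fun i : Fin n => i.1 < j) = (univ : Finset (Fin j)).map (Fin.castLEEmb hj) := by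
    ext i
    simp only [mem_filter, mem_univ, true_and, mem_map, Fin.castLEEmb_apply]
    constructor
    · intro h; exact ⟨⟨i.1, h⟩, by ext; simp⟩
    · rintro ⟨a, rfl⟩; simp
  rw [this, card_map, card_univ, Fintype.card_fin]

/-- number of permutations through `(j, j)` that hit one of the `(i, i)`, `i < j` -/
def hd (n j : ℕ) : ℕ := if h : j < n then hh ((⟨j, h⟩, ⟨j, h⟩) : Fin n × Fin n) (diag n j) else 0

theorem hv_matching {j : ℕ} (hj : j < n) {e : Fin n × Fin n} {G : Finset (Fin n × Fin n)}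
    (hG : G.card = j) (he : ∀ f ∈ G, Dj e f) (hM : ∀ f ∈ G, ∀ g ∈ G, f ≠ g → Dj f g) :
    hv e G = hv ((⟨j, hj⟩, ⟨j, hj⟩) : Fin n × Fin n) (diag n j) := by
  classical
  obtain ⟨φ⟩ : Nonempty (Fin j ≃ G) := ⟨(finCongr hG.symm).trans G.equivFin.symm⟩
  -- left labels
  let a : Fin (j + 1) → Fin n := Fin.snoc (fun i => (φ i).1.1) e.1
  let b : Fin (j + 1) → Fin n := Fin.snoc (fun i => (φ i).1.2) e.2
  have ha : Function.Injective a := by
    apply Fin.snoc_injective_of_injective
    · intro i i' h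
      by_contra hne
      have h1 : (φ i).1 ≠ (φ i').1 := fun h => hne (φ.injective (Subtype.ext h))
      exact (hM _ (φ i).2 _ (φ i').2 h1).1 h
    · rintro ⟨i, hi⟩
      exact (he _ (φ i).2).1 hi.symm
  have hb : Function.Injective b := by
    apply Fin.snoc_injective_of_injective
    · intro i i' h
      by_contra hne
      have h1 : (φ i).1 ≠ (φ i').1 := fun h => hne (φ.injective (Subtype.ext h))
      exact (hM _ (φ i).2 _ (φ i').2 h1).2 h
    · rintro ⟨i, hi⟩
      exact (he _ (φ i).2).2 hi.symm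
  obtain ⟨σ, hσ⟩ := exists_perm_extend (Nat.succ_le_of_lt hj) a ha
  obtain ⟨τ, hτ⟩ := exists_perm_extend (Nat.succ_le_of_lt hj) b hb
  rw [← hv_relabel σ τ ((⟨j, hj⟩, ⟨j, hj⟩) : Fin n × Fin n) (diag n j)]
  have h1 : σ ⟨j, hj⟩ = e.1 := by
    have := hσ (Fin.last j)
    simp only [a, Fin.snoc_last] at this
    rw [← this]; congr 1
  have h2 : τ ⟨j, hj⟩ = e.2 := by
    have := hτ (Fin.last j)
    simp only [b, Fin.snoc_last] at this
    rw [← this]; congr 1
  have hcs : ∀ i : Fin j, σ ⟨i.1, i.2.trans hj⟩ = (φ i).1.1 ∧ τ ⟨i.1, i.2.trans hj⟩ = (φ i).1.2 := by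
    intro i
    constructor
    · have := hσ (Fin.castSucc i)
      simp only [a, Fin.snoc_castSucc] at this
      rw [← this]; congr 1
    · have := hτ (Fin.castSucc i)
      simp only [b, Fin.snoc_castSucc] at this
      rw [← this]; congr 1
  simp only [h1, h2]
  congr 1
  ext f
  simp only [mem_image, mem_diag]
  constructor
  · intro hf
    obtain ⟨i, hi⟩ := φ.surjective ⟨f, hf⟩
    refine ⟨(⟨i.1, i.2.trans hj⟩, ⟨i.1, i.2.trans hj⟩), ⟨rfl, i.2⟩, ?_⟩
    simp only [(hcs i).1, (hcs i).2, hi]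
  · rintro ⟨⟨x, y⟩, ⟨hxy, hx⟩, rfl⟩
    simp only at hxy hx
    subst hxy
    have := hcs ⟨x.1, hx⟩
    simp only [Fin.eta] at this
    rw [this.1, this.2]
    exact (φ ⟨x.1, hx⟩).2

end Run7.h391
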