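import Pool.Agent.Run7.h391.Core

/-!
Among the sets of `j` pairs disjoint from `e`, matchings are the easiest to avoid.
-/

namespace Run7.h391

open Finset

variable {n : ℕ}

theorem hv_le_aux {j : ℕ} (hj : j < n) : ∀ (d : ℕ) (e : Fin n × Fin n) (G : Finset (Fin n × Fin n)),
    G.card = j → (∀ f ∈ G, Dj e f) →
    2 * j = (G.image Prod.fst).card + (G.image Prod.snd).card + d →
    hv e G ≤ hv ((⟨j, hj⟩, ⟨j, hj⟩) : Fin n × Fin n) (diag n j) := by
  intro d
  induction d using Nat.strong_induction_on with
  | _ d ih =>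
  intro e G hG he hd
  by_cases h1 : ∃ f ∈ G, ∃ g ∈ G, f ≠ g ∧ f.1 = g.1
  · obtain ⟨f, hf, g, hg, hfg, h1⟩ := h1
    have hgH : g ∈ G.erase f := mem_erase.2 ⟨hfg.symm, hg⟩
    have hGH : insert (f.1, f.2) (G.erase f) = G := by
      rw [Prod.mk.eta]; exact insert_erase hf
    have himg : (G.erase f).image Prod.fst = G.image Prod.fst := by
      apply Subset.antisymm (image_subset_image (erase_subset _ _))
      intro x hx
      obtain ⟨f', hf', rfl⟩ := mem_image.1 hx
      by_cases hff : f' = f
      · rw [hff, h1]; exact mem_image_of_mem _ hgH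
      · exact mem_image_of_mem _ (mem_erase.2 ⟨hff, hf'⟩)
    have hc1 : (G.image Prod.fst).card ≤ j - 1 := by
      rw [← himg]
      refine card_image_le.trans ?_
      rw [card_erase_of_mem hf, hG]
    have hj0 : 0 < j := by rw [← hG]; exact card_pos.2 ⟨f, hf⟩
    obtain ⟨i', hi'⟩ : ∃ i' : Fin n, i' ∉ insert e.1 (G.image Prod.fst) := by
      by_contra hcon
      push Not at hcon
      have h2 : (univ : Finset (Fin n)) ⊆ insert e.1 (G.image Prod.fst) := fun x _ => hcon x
      have h3 := card_le_card h2
      have h4 := card_insert_le e.1 (G.image Prod.fst)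
      rw [card_univ, Fintype.card_fin] at h3
      omega
    rw [mem_insert, not_or] at hi'
    have hmem : ∀ g ∈ G, g.1 ≠ i' := by
      intro g hg h; exact hi'.2 (h ▸ mem_image_of_mem _ hg)
    have hstep : hv e G ≤ hv e (insert (i', f.2) (G.erase f)) := by
      conv_lhs => rw [← hGH]
      apply hv_move_left (he f hf).1 (Ne.symm hi'.1)
      · rw [Prod.mk.eta]; exact notMem_erase f G
      · intro g hg; exact hmem g (mem_of_mem_erase hg)
    refine hstep.trans ?_
    have hnot : (i', f.2) ∉ G.erase f := fun h => hmem _ (mem_of_mem_erase h) rfl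
    have hcard : (insert (i', f.2) (G.erase f)).card = j := by
      rw [card_insert_of_notMem hnot, card_erase_of_mem hf, hG]; omega
    have hfst : ((insert (i', f.2) (G.erase f)).image Prod.fst).card = (G.image Prod.fst).card + 1 := by
      rw [image_insert, himg, card_insert_of_notMem hi'.2]
    have hsnd : (insert (i', f.2) (G.erase f)).image Prod.snd = G.image Prod.snd := by
      conv_rhs => rw [← insert_erase hf]
      rw [image_insert, image_insert]
    refine ih (d - 1) ?_ e _ hcard ?_ ?_
    · have h5 : (G.image Prod.snd).card ≤ j := by rw [← hG]; exact card_image_le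
      omega
    · intro g hg
      rcases mem_insert.1 hg with rfl | hg
      · exact ⟨Ne.symm hi'.1, (he f hf).2⟩
      · exact he g (mem_of_mem_erase hg)
    · have h5 : (G.image Prod.snd).card ≤ j := by rw [← hG]; exact card_image_le
      rw [hfst, hsnd]; omega
  · by_cases h2 : ∃ f ∈ G, ∃ g ∈ G, f ≠ g ∧ f.2 = g.2
    · obtain ⟨f, hf, g, hg, hfg, h1⟩ := h2
      have hgH : g ∈ G.erase f := mem_erase.2 ⟨hfg.symm, hg⟩
      have hGH : insert (f.1, f.2) (G.erase f) = G := by
        rw [Prod.mk.eta]; exact insert_erase hf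
      have himg : (G.erase f).image Prod.snd = G.image Prod.snd := by
        apply Subset.antisymm (image_subset_image (erase_subset _ _))
        intro x hx
        obtain ⟨f', hf', rfl⟩ := mem_image.1 hx
        by_cases hff : f' = f
        · rw [hff, h1]; exact mem_image_of_mem _ hgH
        · exact mem_image_of_mem _ (mem_erase.2 ⟨hff, hf'⟩)
      have hc1 : (G.image Prod.snd).card ≤ j - 1 := by
        rw [← himg]
        refine card_image_le.trans ?_
        rw [card_erase_of_mem hf, hG]
      have hj0 : 0 < j := by rw [← hG]; exact card_pos.2 ⟨f, hf⟩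
      obtain ⟨i', hi'⟩ : ∃ i' : Fin n, i' ∉ insert e.2 (G.image Prod.snd) := by
        by_contra hcon
        push Not at hcon
        have h2 : (univ : Finset (Fin n)) ⊆ insert e.2 (G.image Prod.snd) := fun x _ => hcon x
        have h3 := card_le_card h2
        have h4 := card_insert_le e.2 (G.image Prod.snd)
        rw [card_univ, Fintype.card_fin] at h3
        omega
      rw [mem_insert, not_or] at hi'
      have hmem : ∀ g ∈ G, g.2 ≠ i' := by
        intro g hg h; exact hi'.2 (h ▸ mem_image_of_mem _ hg)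
      have hstep : hv e G ≤ hv e (insert (f.1, i') (G.erase f)) := by
        conv_lhs => rw [← hGH]
        apply hv_move_right (he f hf).2 (Ne.symm hi'.1)
        · rw [Prod.mk.eta]; exact notMem_erase f G
        · intro g hg; exact hmem g (mem_of_mem_erase hg)
      refine hstep.trans ?_
      have hnot : (f.1, i') ∉ G.erase f := fun h => hmem _ (mem_of_mem_erase h) rfl
      have hcard : (insert (f.1, i') (G.erase f)).card = j := by
        rw [card_insert_of_notMem hnot, card_erase_of_mem hf, hG]; omega
      have hfst : ((insert (f.1, i') (G.erase f)).image Prod.snd).card = (G.image Prod.snd).card + 1 := by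
        rw [image_insert, himg, card_insert_of_notMem hi'.2]
      have hsnd : (insert (f.1, i') (G.erase f)).image Prod.fst = G.image Prod.fst := by
        conv_rhs => rw [← insert_erase hf]
        rw [image_insert, image_insert]
      refine ih (d - 1) ?_ e _ hcard ?_ ?_
      · have h5 : (G.image Prod.fst).card ≤ j := by rw [← hG]; exact card_image_le
        omega
      · intro g hg
        rcases mem_insert.1 hg with rfl | hg
        · exact ⟨(he f hf).1, Ne.symm hi'.1⟩
        · exact he g (mem_of_mem_erase hg)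
      · have h5 : (G.image Prod.fst).card ≤ j := by rw [← hG]; exact card_image_le
        rw [hfst, hsnd]; omega
    · push Not at h1 h2
      exact (hv_matching hj hG he fun f hf g hg hfg => ⟨h1 f hf g hg hfg, h2 f hf g hg hfg⟩).le

theorem hv_le {j : ℕ} (hj : j < n) {e : Fin n × Fin n} {G : Finset (Fin n × Fin n)}
    (hG : G.card = j) (he : ∀ f ∈ G, Dj e f) :
    hv e G ≤ hv ((⟨j, hj⟩, ⟨j, hj⟩) : Fin n × Fin n) (diag n j) := by
  have h1 : (G.image Prod.fst).card ≤ j := by rw [← hG]; exact card_image_le
  have h2 : (G.image Prod.snd).card ≤ j := by rw [← hG]; exact card_image_le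
  exact hv_le_aux hj (2 * j - (G.image Prod.fst).card - (G.image Prod.snd).card) e G hG he (by omega)

/-- the permutations through a pair -/
theorem card_through (e : Fin n × Fin n) :
    (univ.filter fun π : Equiv.Perm (Fin n) => π e.1 = e.2).card = (n - 1).factorial := by
  have hn : 0 < n := Nat.pos_of_ne_zero (by rintro rfl; exact Fin.elim0 e.1)
  have hall : ∀ j : Fin n, (univ.filter fun π : Equiv.Perm (Fin n) => π e.1 = j).card
      = (univ.filter fun π : Equiv.Perm (Fin n) => π e.1 = e.2).card := by
    intro j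
    refine Finset.card_bij' (fun π _ => Equiv.swap j e.2 * π) (fun π _ => Equiv.swap j e.2 * π) ?_ ?_ ?_ ?_
    · intro π h
      rw [mem_filter] at h ⊢
      refine ⟨mem_univ _, ?_⟩
      rw [Equiv.Perm.mul_apply, h.2, Equiv.swap_apply_left]
    · intro π h
      rw [mem_filter] at h ⊢
      refine ⟨mem_univ _, ?_⟩
      rw [Equiv.Perm.mul_apply, h.2, Equiv.swap_apply_right]
    · intro π _; rw [← mul_assoc, Equiv.swap_mul_self, one_mul]
    · intro π _; rw [← mul_assoc, Equiv.swap_mul_self, one_mul]
  have hsum : ∑ j : Fin n, (univ.filter fun π : Equiv.Perm (Fin n) => π e.1 = j).card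
      = (univ : Finset (Equiv.Perm (Fin n))).card := by
    rw [card_eq_sum_card_fiberwise (f := fun π : Equiv.Perm (Fin n) => π e.1) (t := univ)
      (fun _ _ => mem_coe.2 (mem_univ _))]
  rw [sum_congr rfl fun j _ => hall j, sum_const, card_univ, card_univ, Fintype.card_fin,
    Fintype.card_perm, Fintype.card_fin, smul_eq_mul] at hsum
  obtain ⟨m, rfl⟩ : ∃ m, n = m + 1 := ⟨n - 1, by omega⟩
  rw [Nat.factorial_succ] at hsum
  exact Nat.eq_of_mul_eq_mul_left hn (by simpa using hsum)

theorem hh_ge {j : ℕ} (hj : j < n) {e : Fin n × Fin n} {G : Finset (Fin n × Fin n)}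
    (hG : G.card = j) (he : ∀ f ∈ G, Dj e f) : hd n j ≤ hh e G := by
  have h1 := hv_add_hh e G
  have h2 := hv_add_hh ((⟨j, hj⟩, ⟨j, hj⟩) : Fin n × Fin n) (diag n j)
  have h3 := hv_le hj hG he
  rw [card_through] at h1 h2
  unfold hd
  rw [dif_pos hj]
  omega

theorem hh_matching {j : ℕ} (hj : j < n) {e : Fin n × Fin n} {G : Finset (Fin n × Fin n)}
    (hG : G.card = j) (he : ∀ f ∈ G, Dj e f) (hM : ∀ f ∈ G, ∀ g ∈ G, f ≠ g → Dj f g) :
    hh e G = hd n j := by
  have h1 := hv_add_hh e G
  have h2 := hv_add_hh ((⟨j, hj⟩, ⟨j, hj⟩) : Fin n × Fin n) (diag n j)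
  have h3 := hv_matching hj hG he hM
  rw [card_through] at h1 h2
  unfold hd
  rw [dif_pos hj]
  omega

theorem hd_zero : hd n 0 = 0 := by
  unfold hd
  split_ifs with h
  · unfold hh
    rw [card_eq_zero, filter_eq_empty_iff]
    rintro π - ⟨-, h2⟩
    apply h2
    intro f hf
    rw [mem_diag] at hf
    omega
  · rfl

/-- `(j + 1) * hd j ≥ j * hd (j + 1)` -/
theorem hd_mono {j : ℕ} (hj : j + 1 < n) : j * hd n (j + 1) ≤ (j + 1) * hd n j := by
  set e : Fin n × Fin n := (⟨j + 1, hj⟩, ⟨j + 1, hj⟩) with he
  have hD : ∀ f ∈ diag n (j + 1), Dj e f := by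
    intro f hf
    rw [mem_diag] at hf
    constructor
    · intro h; rw [← h] at hf; simp [he] at hf
    · intro h; rw [hf.1, ← h] at hf; simp [he] at hf
  have hM : ∀ f ∈ diag n (j + 1), ∀ g ∈ diag n (j + 1), f ≠ g → Dj f g := by
    intro f hf g hg hfg
    rw [mem_diag] at hf hg
    constructor
    · intro h; apply hfg; ext <;> [rw [h]; rw [← hf.1, ← hg.1, h]]
    · intro h; apply hfg; ext <;> [rw [hf.1, hg.1, h]; rw [h]]
  have h1 : ∀ i ∈ diag n (j + 1), hh e ((diag n (j + 1)).erase i) = hd n j := by
    intro i hi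
    apply hh_matching (by omega)
    · rw [card_erase_of_mem hi, card_diag (by omega)]; rfl
    · intro f hf; exact hD f (mem_of_mem_erase hf)
    · intro f hf g hg hfg; exact hM f (mem_of_mem_erase hf) g (mem_of_mem_erase hg) hfg
  have h2 : hd n (j + 1) = hh e (diag n (j + 1)) := by
    unfold hd; rw [dif_pos hj]
  have h3 : ∑ i ∈ diag n (j + 1), hh e ((diag n (j + 1)).erase i) = (j + 1) * hd n j := by
    rw [sum_congr rfl h1, sum_const, card_diag (by omega), smul_eq_mul]
  rw [← h3, h2]
  -- double counting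
  have h4 : ∑ i ∈ diag n (j + 1), hh e ((diag n (j + 1)).erase i)
      = ∑ π ∈ univ.filter (fun π : Equiv.Perm (Fin n) => π e.1 = e.2),
          ((diag n (j + 1)).filter fun i => ¬ Avoids π ((diag n (j + 1)).erase i)).card := by
    simp only [hh, card_filter, sum_filter]
    rw [sum_comm]
    apply sum_congr rfl
    intro π _
    by_cases hπ : π e.1 = e.2
    · simp [hπ]
    · simp [hπ]
  have h5 : hh e (diag n (j + 1)) = ∑ π ∈ univ.filter (fun π : Equiv.Perm (Fin n) => π e.1 = e.2),
      (if ¬ Avoids π (diag n (j + 1)) then 1 else 0) := by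
    unfold hh
    rw [← filter_filter, card_filter]
  rw [h4, h5, mul_sum]
  apply sum_le_sum
  intro π _
  by_cases hπ : Avoids π (diag n (j + 1))
  · rw [if_neg (not_not.2 hπ)]; simp
  · rw [if_pos hπ]
    obtain ⟨i0, hi0, hi1⟩ : ∃ i0 ∈ diag n (j + 1), π i0.1 = i0.2 := by
      unfold Avoids at hπ
      push Not at hπ
      exact hπ
    have h6 : (diag n (j + 1)).erase i0 ⊆
        (diag n (j + 1)).filter fun i => ¬ Avoids π ((diag n (j + 1)).erase i) := by
      intro i hi
      rw [mem_filter]
      refine ⟨mem_of_mem_erase hi, fun h => ?_⟩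
      exact h i0 (mem_erase.2 ⟨(mem_erase.1 hi).1.symm, hi0⟩) hi1
    have h7 := card_le_card h6
    rw [card_erase_of_mem hi0, card_diag (by omega)] at h7
    simpa using h7

end Run7.h391
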