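import Pool.Agent.Run7.h391.Core2

/-!
The excess `F(G) = #(avoiding G) - n! + |G| (n-1)!` and its lower bound in terms of disjoint pairs.
-/

namespace Run7.h391

open Finset

variable {n : ℕ}

/-- the excess -/
noncomputable def FF (G : Finset (Fin n × Fin n)) : ℝ :=
  (av G : ℝ) - n.factorial + G.card * (n - 1).factorial

theorem FF_empty : FF (∅ : Finset (Fin n × Fin n)) = 0 := by
  have : av (∅ : Finset (Fin n × Fin n)) = n.factorial := by
    unfold av
    rw [filter_true_of_mem, card_univ, Fintype.card_perm, Fintype.card_fin]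
    intro π _ e he
    exact absurd he (notMem_empty e)
  unfold FF
  rw [this]; simp

theorem FF_insert {e : Fin n × Fin n} {G : Finset (Fin n × Fin n)} (he : e ∉ G) :
    FF (insert e G) = FF G + hh e G := by
  have h1 := av_insert e G
  have h2 := hv_add_hh e G
  rw [card_through] at h2
  have h1' : (av (insert e G) : ℝ) + hv e G = av G := by exact_mod_cast h1
  have h2' : (hv e G : ℝ) + hh e G = (n - 1).factorial := by exact_mod_cast h2
  unfold FF
  rw [card_insert_of_notMem he]
  push_cast
  linarith

theorem FF_nonneg (G : Finset (Fin n × Fin n)) : 0 ≤ FF G := by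
  induction G using Finset.induction_on with
  | empty => rw [FF_empty]
  | insert e G he ih => rw [FF_insert he]; positivity

theorem hh_mono {e : Fin n × Fin n} {G H : Finset (Fin n × Fin n)} (h : H ⊆ G) : hh e H ≤ hh e G := by
  unfold hh
  apply card_le_card
  intro π hπ
  rw [mem_filter] at hπ ⊢
  exact ⟨hπ.1, hπ.2.1, fun hA => hπ.2.2 fun f hf => hA f (h hf)⟩

/-- number of elements of `G` disjoint from `e` -/
def qq (e : Fin n × Fin n) (G : Finset (Fin n × Fin n)) : ℕ := (G.filter (Dj e)).card

/-- number of ordered disjoint pairs in `G` -/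
def RR (G : Finset (Fin n × Fin n)) : ℕ := ∑ e ∈ G, qq e G

theorem not_Dj_self (e : Fin n × Fin n) : ¬ Dj e e := fun h => h.1 rfl

theorem qq_erase_self (e : Fin n × Fin n) (G : Finset (Fin n × Fin n)) :
    qq e (G.erase e) = qq e G := by
  unfold qq
  congr 1
  ext f
  simp only [mem_filter, mem_erase]
  constructor
  · rintro ⟨⟨_, h⟩, h2⟩; exact ⟨h, h2⟩
  · rintro ⟨h, h2⟩
    exact ⟨⟨fun hfe => not_Dj_self e (hfe ▸ h2), h⟩, h2⟩

theorem RR_erase {e : Fin n × Fin n} {G : Finset (Fin n × Fin n)} (he : e ∈ G) :
    RR (G.erase e) + 2 * qq e G = RR G := by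
  have h1 : RR G = qq e G + ∑ f ∈ G.erase e, qq f G := by
    unfold RR; rw [← add_sum_erase G _ he]
  have h2 : ∀ f ∈ G.erase e, qq f G = qq f (G.erase e) + (if Dj e f then 1 else 0) := by
    intro f hf
    unfold qq
    conv_lhs => rw [← insert_erase he]
    rw [filter_insert]
    by_cases h : Dj f e
    · rw [if_pos h, if_pos h.symm, card_insert_of_notMem]
      intro h'
      exact notMem_erase e G (mem_of_mem_filter _ h')
    · rw [if_neg h, if_neg fun h' => h h'.symm, add_zero]
  have h3 : ∑ f ∈ G.erase e, (if Dj e f then 1 else 0) = qq e G := by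
    rw [← qq_erase_self e G]
    unfold qq
    rw [card_filter]
  rw [h1, sum_congr rfl h2, sum_add_distrib, h3]
  unfold RR
  ring

theorem qq_le {e : Fin n × Fin n} {G : Finset (Fin n × Fin n)} (he : e ∈ G) : qq e G ≤ G.card - 1 := by
  rw [← qq_erase_self]
  unfold qq
  refine (card_filter_le _ _).trans ?_
  rw [card_erase_of_mem he]

theorem hd_ratio {q m : ℕ} (hqm : q ≤ m) (hm : m < n) : q * hd n m ≤ m * hd n q := by
  induction m, hqm using Nat.le_induction with
  | base => exact le_rfl
  | succ m hqm ih =>
    have h1 := ih (by omega)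
    have h2 := hd_mono (n := n) (j := m) hm
    rcases Nat.eq_zero_or_pos m with rfl | hm0
    · have : q = 0 := by omega
      subst this; simp
    · have h3 : m * (q * hd n (m + 1)) ≤ m * ((m + 1) * hd n q) := by
        calc m * (q * hd n (m + 1)) = q * (m * hd n (m + 1)) := by ring
          _ ≤ q * ((m + 1) * hd n m) := Nat.mul_le_mul_left _ h2
          _ = (m + 1) * (q * hd n m) := by ring
          _ ≤ (m + 1) * (m * hd n q) := Nat.mul_le_mul_left _ h1
          _ = m * ((m + 1) * hd n q) := by ring
      exact Nat.le_of_mul_le_mul_left h3 hm0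

/-- `c_m = ∑_{j<m} hd j` -/
def cc (n m : ℕ) : ℕ := ∑ j ∈ range m, hd n j

theorem cc_succ (m : ℕ) : cc n (m + 1) = cc n m + hd n m := sum_range_succ _ _

theorem hh_ge_qq {e : Fin n × Fin n} {G : Finset (Fin n × Fin n)} (he : e ∈ G) (hG : G.card ≤ n) :
    hd n (qq e G) ≤ hh e (G.erase e) := by
  rw [← qq_erase_self]
  have hc : 0 < G.card := card_pos.2 ⟨e, he⟩
  have h1 : qq e (G.erase e) < n := by
    have := qq_le he
    rw [qq_erase_self]; omega
  refine (hh_ge h1 (G := (G.erase e).filter (Dj e)) rfl fun f hf => (mem_filter.1 hf).2).trans ?_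
  exact hh_mono (filter_subset _ _)

/-- Claim 1 -/
theorem claim1 : ∀ (m : ℕ) (G : Finset (Fin n × Fin n)), G.card = m → m ≤ n →
    (RR G : ℝ) * cc n m ≤ (m : ℝ) * (m - 1) * FF G := by
  intro m
  induction m with
  | zero =>
    intro G hG _
    have : G = ∅ := card_eq_zero.1 hG
    subst this
    simp [RR]
  | succ m ih =>
    intro G hG hmn
    rcases Nat.eq_zero_or_pos m with rfl | hm0
    · obtain ⟨e, rfl⟩ := card_eq_one.1 hG
      have : RR ({e} : Finset (Fin n × Fin n)) = 0 := by
        unfold RR
        rw [sum_singleton]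
        unfold qq
        rw [card_eq_zero, filter_eq_empty_iff]
        intro f hf h
        rw [mem_singleton] at hf
        subst hf
        exact not_Dj_self _ h
      rw [this]; simp
    · -- main step
      have hm0' : (0 : ℝ) < m := by exact_mod_cast hm0
      have key : ∀ e ∈ G, ((qq e G : ℝ)) * hd n m ≤ m * (FF G - FF (G.erase e)) := by
        intro e he
        have h1 : FF G = FF (G.erase e) + hh e (G.erase e) := by
          conv_lhs => rw [← insert_erase he]
          exact FF_insert (notMem_erase e G)
        have h2 : qq e G * hd n m ≤ m * hd n (qq e G) := hd_ratio (by have := qq_le he; omega) (by omega)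
        have h3 : hd n (qq e G) ≤ hh e (G.erase e) := hh_ge_qq he (by omega)
        have h4 : qq e G * hd n m ≤ m * hh e (G.erase e) := h2.trans (Nat.mul_le_mul_left _ h3)
        rw [h1]
        have h5 : ((qq e G : ℝ)) * hd n m ≤ m * hh e (G.erase e) := by exact_mod_cast h4
        linarith
      have hsumq : ∑ e ∈ G, (qq e G : ℝ) = RR G := by unfold RR; push_cast; rfl
      have hcardG : (G.card : ℝ) = m + 1 := by rw [hG]; push_cast; ring
      have hA : (RR G : ℝ) * hd n m ≤ m * ((m + 1) * FF G - ∑ e ∈ G, FF (G.erase e)) := by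
        have := sum_le_sum key
        rw [← sum_mul, hsumq, ← mul_sum, sum_sub_distrib, sum_const, nsmul_eq_mul, hcardG] at this
        exact this
      have hB : (RR G : ℝ) * cc n m ≤ m * ∑ e ∈ G, FF (G.erase e) := by
        rcases Nat.lt_or_ge m 2 with hm2 | hm2
        · have hm1 : m = 1 := by omega
          have : cc n m = 0 := by rw [hm1, cc_succ]; simp [cc, hd_zero]
          rw [this]
          have : 0 ≤ ∑ e ∈ G, FF (G.erase e) := sum_nonneg fun e _ => FF_nonneg _
          push_cast
          rw [mul_zero]
          positivity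
        · have hIH : ∀ e ∈ G, (RR (G.erase e) : ℝ) * cc n m ≤ (m : ℝ) * (m - 1) * FF (G.erase e) := by
            intro e he
            exact ih _ (by rw [card_erase_of_mem he, hG]; rfl) (by omega)
          have hR : ∀ e ∈ G, (RR (G.erase e) : ℝ) = RR G - 2 * qq e G := by
            intro e he
            have := RR_erase he
            have h' : (RR (G.erase e) : ℝ) + 2 * qq e G = RR G := by exact_mod_cast this
            linarith
          have h1 := sum_le_sum hIH
          rw [← sum_mul, ← mul_sum, sum_congr rfl hR, sum_sub_distrib, sum_const, nsmul_eq_mul,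
            ← mul_sum, hsumq, hcardG] at h1
          have hm1 : (0 : ℝ) < (m : ℝ) - 1 := by
            have : (2 : ℝ) ≤ m := by exact_mod_cast hm2
            linarith
          have h2 : ((m : ℝ) - 1) * (RR G * cc n m) ≤ (m - 1) * (m * ∑ e ∈ G, FF (G.erase e)) := by
            calc ((m : ℝ) - 1) * (RR G * cc n m) = ((m + 1) * RR G - 2 * RR G) * cc n m := by ring
              _ ≤ _ := h1
              _ = _ := by ring
          exact le_of_mul_le_mul_left h2 hm1
      rw [cc_succ]
      push_cast
      nlinarith [hA, hB]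

/-- Monotonicity of `c_m / (m (m-1))`. -/
theorem cc_ratio {m k : ℕ} (hmk : m ≤ k) (hk : k ≤ n) :
    (m : ℝ) * (m - 1) * cc n k ≤ k * (k - 1) * cc n m := by
  rcases Nat.lt_or_ge m 2 with hm2 | hm2
  · have h0 : (m : ℝ) * (m - 1) = 0 := by
      interval_cases m <;> simp
    rw [h0, zero_mul]
    rcases Nat.eq_zero_or_pos k with rfl | hk0
    · simp
    · have : (1 : ℝ) ≤ k := by exact_mod_cast hk0
      have h1 : (0 : ℝ) ≤ (k : ℝ) - 1 := by linarith
      positivity
  · induction k, hmk using Nat.le_induction with
    | base => exact le_rfl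
    | succ k hmk ih =>
      have h1 := ih (by omega)
      have hk0 : (0 : ℝ) < k := by
        have : 0 < k := by omega
        exact_mod_cast this
      -- `2 k c_m ≥ m (m-1) hd k`
      have h2 : (m : ℝ) * (m - 1) * hd n k ≤ 2 * k * cc n m := by
        have h3 : ∀ j ∈ range m, j * hd n k ≤ k * hd n j := by
          intro j hj
          rw [mem_range] at hj
          exact hd_ratio (by omega) (by omega)
        have h4 := sum_le_sum h3
        rw [← sum_mul, ← mul_sum] at h4
        have h5 : (∑ j ∈ range m, j) * 2 = m * (m - 1) := sum_range_id_mul_two m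
        have h6 : (m * (m - 1)) * hd n k ≤ 2 * (k * cc n m) := by
          rw [← h5]
          unfold cc
          calc (∑ j ∈ range m, j) * 2 * hd n k = 2 * ((∑ j ∈ range m, j) * hd n k) := by ring
            _ ≤ 2 * (k * ∑ j ∈ range m, hd n j) := Nat.mul_le_mul_left _ h4
        have h7 : ((m * (m - 1) : ℕ) : ℝ) * hd n k ≤ 2 * (k * cc n m) := by exact_mod_cast h6
        rw [Nat.cast_mul, Nat.cast_sub (by omega)] at h7
        push_cast at h7
        linarith
      rw [cc_succ]
      push_cast
      nlinarith [h1, h2]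

end Run7.h391
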