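import Pool.Agent.Run7.h391.Core3

/-!
`2 c_k ≤ (k-1) (n-1)!` and the pair inequality for words.
-/

namespace Run7.h391

open Finset

variable {n : ℕ}

theorem diag_succ {m : ℕ} (hm : m < n) :
    diag n (m + 1) = insert ((⟨m, hm⟩, ⟨m, hm⟩) : Fin n × Fin n) (diag n m) := by
  ext f
  rw [mem_insert, mem_diag, mem_diag]
  constructor
  · rintro ⟨h1, h2⟩
    by_cases h : f.1.1 = m
    · left
      have h3 : f.1 = ⟨m, hm⟩ := Fin.ext h
      exact Prod.ext h3 (by rw [← h1, h3])
    · right; exact ⟨h1, by omega⟩
  · rintro (rfl | ⟨h1, h2⟩)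
    · exact ⟨rfl, by simp⟩
    · exact ⟨h1, by omega⟩

theorem FF_diag {m : ℕ} (hm : m ≤ n) : FF (diag n m) = cc n m := by
  induction m with
  | zero =>
    have : diag n 0 = ∅ := by
      rw [eq_empty_iff_forall_notMem]
      intro f hf
      rw [mem_diag] at hf
      omega
    rw [this, FF_empty]; simp [cc]
  | succ m ih =>
    have hm' : m < n := hm
    rw [diag_succ hm', FF_insert, ih (by omega), cc_succ]
    · unfold hd
      rw [dif_pos hm']
      push_cast
      ring
    · rw [mem_diag]; simp

theorem av_diag_self : av (diag n n) = numDerangements n := by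
  rw [← card_derangements_fin_eq_numDerangements, Fintype.card_subtype]
  unfold av
  congr 1
  ext π
  simp only [mem_filter, mem_univ, true_and]
  constructor
  · intro h x
    exact h (x, x) (mem_diag.2 ⟨rfl, x.2⟩)
  · intro h f hf
    rw [mem_diag] at hf
    rw [← hf.1]
    exact h f.1

theorem numDer_bound : ∀ m : ℕ, 1 ≤ m → 2 * (numDerangements m + numDerangements (m + 1)) ≤ (m + 1).factorial := by
  intro m hm
  induction m, hm using Nat.le_induction with
  | base => decide
  | succ m hm ih =>
    have h1 := numDerangements_add_two m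
    have h2 : (m + 1 + 1).factorial = (m + 1 + 1) * (m + 1).factorial := Nat.factorial_succ _
    rw [h1, h2]
    have h3 : 2 * numDerangements (m + 1) ≤ (m + 1).factorial := by omega
    nlinarith [Nat.mul_le_mul_left (m + 1) ih]

theorem cc_self_bound (hn : 3 ≤ n) : 2 * cc n n ≤ (n - 1) * (n - 1).factorial := by
  have h1 : (cc n n : ℝ) = numDerangements n := by
    rw [← FF_diag le_rfl, ← av_diag_self]
    unfold FF
    rw [card_diag le_rfl]
    have : (n : ℝ) * (n - 1).factorial = n.factorial := by
      rw [← Nat.mul_factorial_pred (by omega : n ≠ 0)]; push_cast; ring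
    linarith
  have h2 : cc n n = numDerangements n := by exact_mod_cast h1
  obtain ⟨m, rfl⟩ : ∃ m, n = m + 2 := ⟨n - 2, by omega⟩
  rw [h2, numDerangements_add_two]
  have h3 := numDer_bound m (by omega)
  have h4 : m + 2 - 1 = m + 1 := by omega
  rw [h4]
  calc 2 * ((m + 1) * (numDerangements m + numDerangements (m + 1)))
      = (m + 1) * (2 * (numDerangements m + numDerangements (m + 1))) := by ring
    _ ≤ _ := Nat.mul_le_mul_left _ h3

theorem hd_one_le (hn : 2 ≤ n) : (n - 1) * hd n 1 ≤ (n - 1).factorial := by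
  have h0 : 0 < n := by omega
  set z : Fin n := ⟨0, h0⟩
  set o : Fin n := ⟨1, by omega⟩
  have hzo : z ≠ o := by simp [z, o, Fin.ext_iff]
  have h1 : ∀ y ∈ univ.erase z, hd n 1 ≤ hh (z, z) {(o, y)} := by
    intro y hy
    apply hh_ge (by omega) (card_singleton _)
    intro f hf
    rw [mem_singleton] at hf
    subst hf
    exact ⟨hzo, (ne_of_mem_erase hy).symm⟩
  have h2 := sum_le_sum h1
  rw [sum_const, card_erase_of_mem (mem_univ _), card_univ, Fintype.card_fin, smul_eq_mul] at h2
  refine h2.trans ?_
  have h3 : ∀ y, hh (z, z) {(o, y)}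
      = ((univ.filter fun π : Equiv.Perm (Fin n) => π z = z).filter fun π => π o = y).card := by
    intro y
    unfold hh
    congr 1
    ext π
    simp only [mem_filter, mem_univ, true_and, Avoids, mem_singleton, forall_eq, not_not]
  rw [sum_congr rfl fun y _ => h3 y]
  calc ∑ y ∈ univ.erase z, ((univ.filter fun π : Equiv.Perm (Fin n) => π z = z).filter fun π => π o = y).card
      ≤ ∑ y, ((univ.filter fun π : Equiv.Perm (Fin n) => π z = z).filter fun π => π o = y).card :=
        sum_le_sum_of_subset (erase_subset _ _)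
    _ = (univ.filter fun π : Equiv.Perm (Fin n) => π z = z).card := by
        rw [card_eq_sum_card_fiberwise (f := fun π : Equiv.Perm (Fin n) => π o) (t := univ)
          (fun _ _ => mem_coe.2 (mem_univ _))]
    _ = (n - 1).factorial := card_through ((z, z) : Fin n × Fin n)

theorem cc_bound {k : ℕ} (hn : 3 ≤ n) (hk : k ≤ n) :
    2 * cc n k ≤ (k - 1) * (n - 1).factorial := by
  rcases Nat.lt_or_ge k n with hkn | hkn
  · have h1 : ∀ j ∈ range k, hd n j ≤ j * hd n 1 := by
      intro j hj
      rw [mem_range] at hj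
      rcases Nat.eq_zero_or_pos j with rfl | hj0
      · rw [hd_zero]; exact Nat.zero_le _
      · have := hd_ratio (n := n) (q := 1) (m := j) hj0 (by omega)
        simpa using this
    have h2 := sum_le_sum h1
    rw [← sum_mul] at h2
    have h3 : (∑ j ∈ range k, j) * 2 = k * (k - 1) := sum_range_id_mul_two k
    have h4 : 2 * cc n k ≤ k * (k - 1) * hd n 1 := by
      rw [← h3]
      unfold cc
      calc 2 * ∑ j ∈ range k, hd n j ≤ 2 * ((∑ j ∈ range k, j) * hd n 1) := Nat.mul_le_mul_left _ h2
        _ = _ := by ring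
    refine h4.trans ?_
    have h5 := hd_one_le (n := n) (by omega)
    calc k * (k - 1) * hd n 1 ≤ (n - 1) * (k - 1) * hd n 1 := by
          apply Nat.mul_le_mul_right
          apply Nat.mul_le_mul_right
          omega
      _ = (k - 1) * ((n - 1) * hd n 1) := by ring
      _ ≤ _ := Nat.mul_le_mul_left _ h5
  · have : k = n := by omega
    subst this
    exact cc_self_bound hn

/-! ### Words -/

variable {k : ℕ}

/-- multiplicities -/
theorem sq_sum_bound (g : Fin k → Fin n × Fin n) :
    (univ.filter fun p : Fin k × Fin k => g p.1 = g p.2).card + (univ.image g).card + 2 * k * (univ.image g).card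
      ≤ k ^ 2 + (univ.image g).card ^ 2 + 2 * k := by
  classical
  set G := univ.image g with hG
  let w : Fin n × Fin n → ℕ := fun e => (univ.filter fun s => g s = e).card
  have hw1 : ∀ e ∈ G, 1 ≤ w e := by
    intro e he
    obtain ⟨s, _, rfl⟩ := mem_image.1 he
    exact card_pos.2 ⟨s, mem_filter.2 ⟨mem_univ _, rfl⟩⟩
  have hwsum : ∑ e ∈ G, w e = k := by
    have := card_eq_sum_card_fiberwise (f := g) (s := univ) (t := G)
      (fun s _ => mem_coe.2 (mem_image_of_mem _ (mem_univ _)))
    rw [card_univ, Fintype.card_fin] at this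
    exact this.symm
  have hT : (univ.filter fun p : Fin k × Fin k => g p.1 = g p.2).card = ∑ e ∈ G, w e ^ 2 := by
    have h1 := card_eq_sum_card_fiberwise (f := fun p : Fin k × Fin k => g p.1)
      (s := univ.filter fun p : Fin k × Fin k => g p.1 = g p.2) (t := G)
      (fun s _ => mem_coe.2 (mem_image_of_mem _ (mem_univ _)))
    rw [h1]
    apply sum_congr rfl
    intro e _
    have h2 : (univ.filter fun p : Fin k × Fin k => g p.1 = g p.2).filter (fun p => g p.1 = e)
        = (univ.filter fun s => g s = e) ×ˢ (univ.filter fun s => g s = e) := by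
      ext ⟨s, t⟩
      simp only [mem_filter, mem_univ, true_and, mem_product]
      constructor
      · rintro ⟨h1, h2⟩; exact ⟨h2, by rw [← h1, h2]⟩
      · rintro ⟨h1, h2⟩; exact ⟨by rw [h1, h2], h1⟩
    rw [h2, card_product, sq]
  -- `v = w - 1`
  let v : Fin n × Fin n → ℕ := fun e => w e - 1
  have hv : ∀ e ∈ G, w e = v e + 1 := fun e he => by have := hw1 e he; simp only [v]; omega
  have hvsum : ∑ e ∈ G, v e + G.card = k := by
    rw [← hwsum, sum_congr rfl hv, sum_add_distrib]; simp
  have hvsq : ∑ e ∈ G, v e ^ 2 ≤ (∑ e ∈ G, v e) ^ 2 := by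
    rw [sq, sum_mul]
    apply sum_le_sum
    intro e he
    rw [sq]
    exact Nat.mul_le_mul_left _ (single_le_sum (f := v) (fun _ _ => Nat.zero_le _) he)
  have hT2 : ∑ e ∈ G, w e ^ 2 = ∑ e ∈ G, v e ^ 2 + 2 * ∑ e ∈ G, v e + G.card := by
    have : ∀ e ∈ G, w e ^ 2 = v e ^ 2 + 2 * v e + 1 := by
      intro e he; rw [hv e he]; ring
    rw [sum_congr rfl this, sum_add_distrib, sum_add_distrib, ← mul_sum]; simp
  rw [hT, hT2]
  set S := ∑ e ∈ G, v e
  have hk : k = S + G.card := hvsum.symm
  rw [hk]
  nlinarith [hvsq]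

theorem disjoint_pairs_bound (g : Fin k → Fin n × Fin n) :
    (univ.filter fun p : Fin k × Fin k => Dj (g p.1) (g p.2)).card
      + (univ.filter fun p : Fin k × Fin k => g p.1 = g p.2).card + (univ.image g).card ^ 2
      ≤ RR (univ.image g) + k ^ 2 + (univ.image g).card := by
  classical
  set G := univ.image g with hG
  -- adjacent pairs
  set Sadj := univ.filter fun p : Fin k × Fin k => g p.1 ≠ g p.2 ∧ ¬ Dj (g p.1) (g p.2) with hSadj
  set Gadj := (G ×ˢ G).filter fun p => p.1 ≠ p.2 ∧ ¬ Dj p.1 p.2 with hGadj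
  have h1 : Gadj.card ≤ Sadj.card := by
    have : Gadj ⊆ Sadj.image fun p => (g p.1, g p.2) := by
      rintro ⟨e, f⟩ h
      rw [hGadj, mem_filter, mem_product] at h
      obtain ⟨⟨he, hf⟩, h1, h2⟩ := h
      obtain ⟨s, _, hs⟩ := mem_image.1 he
      obtain ⟨t, _, ht⟩ := mem_image.1 hf
      simp only at hs ht h1 h2
      refine mem_image.2 ⟨(s, t), ?_, by simp only [hs, ht]⟩
      rw [hSadj, mem_filter]
      refine ⟨mem_univ _, ?_, ?_⟩
      · simp only [hs, ht]; exact h1
      · simp only [hs, ht]; exact h2
    exact (card_le_card this).trans card_image_le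
  have h2 : (univ.filter fun p : Fin k × Fin k => Dj (g p.1) (g p.2)).card
      + (univ.filter fun p : Fin k × Fin k => g p.1 = g p.2).card + Sadj.card = k ^ 2 := by
    have hk : k ^ 2 = (univ : Finset (Fin k × Fin k)).card := by
      rw [card_univ, Fintype.card_prod, Fintype.card_fin, sq]
    rw [hk, ← card_filter_add_card_filter_not (s := univ) (fun p : Fin k × Fin k => Dj (g p.1) (g p.2)),
      add_assoc]
    congr 1
    rw [← card_filter_add_card_filter_not (s := univ.filter fun p : Fin k × Fin k => ¬ Dj (g p.1) (g p.2))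
      (fun p : Fin k × Fin k => g p.1 = g p.2), filter_filter, filter_filter]
    congr 1
    · congr 1
      ext p
      simp only [mem_filter, mem_univ, true_and]
      constructor
      · intro h; exact ⟨by rw [h]; exact not_Dj_self _, h⟩
      · exact fun h => h.2
    · congr 1
      ext p
      simp only [hSadj, mem_filter, mem_univ, true_and]
      tauto
  have h3 : RR G + G.card + Gadj.card = G.card ^ 2 := by
    have hk : G.card ^ 2 = (G ×ˢ G).card := by rw [card_product, sq]
    have hR : RR G = ((G ×ˢ G).filter fun p => Dj p.1 p.2).card := by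
      unfold RR qq
      rw [card_filter, sum_product]
      apply sum_congr rfl
      intro e _
      rw [card_filter]
    have hE : G.card = ((G ×ˢ G).filter fun p => ¬ Dj p.1 p.2 ∧ p.1 = p.2).card := by
      symm
      refine card_bij (fun p _ => p.1) ?_ ?_ ?_
      · rintro ⟨e, f⟩ h
        rw [mem_filter, mem_product] at h
        exact h.1.1
      · rintro ⟨e, f⟩ h ⟨e', f'⟩ h' he
        rw [mem_filter] at h h'
        simp only at he h h'
        rw [← h.2.2, ← h'.2.2, he]
      · intro e he
        refine ⟨(e, e), ?_, rfl⟩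
        rw [mem_filter, mem_product]
        exact ⟨⟨he, he⟩, not_Dj_self _, rfl⟩
    rw [hk, ← card_filter_add_card_filter_not (s := G ×ˢ G) (fun p => Dj p.1 p.2), ← hR, add_assoc]
    congr 1
    rw [← card_filter_add_card_filter_not (s := (G ×ˢ G).filter fun p => ¬ Dj p.1 p.2)
      (fun p => p.1 = p.2), filter_filter, filter_filter, ← hE]
    congr 2
    ext p
    rw [hGadj]
    simp only [mem_filter]
    tauto
  omega

/-- The pair inequality. -/
theorem pair_ineq (hk2 : 2 ≤ k) (hk : k ≤ n) (g : Fin k → Fin n × Fin n) :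
    ((univ.filter fun p : Fin k × Fin k => g p.1 = g p.2).card - k : ℝ) * ((k - 1) * (n - 1).factorial)
      + (univ.filter fun p : Fin k × Fin k => Dj (g p.1) (g p.2)).card * cc n k
      ≤ (k : ℝ) * (k - 1) * (av (univ.image g) - n.factorial + k * (n - 1).factorial) := by
  have h1 := sq_sum_bound g
  have h2 := disjoint_pairs_bound g
  set G := univ.image g with hG
  set T := (univ.filter fun p : Fin k × Fin k => g p.1 = g p.2).card with hT
  set C := (univ.filter fun p : Fin k × Fin k => Dj (g p.1) (g p.2)).card with hC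
  set m := G.card with hm
  have hmk : m ≤ k := by
    rw [hm, hG]; refine card_image_le.trans ?_; rw [card_univ, Fintype.card_fin]
  have hm1 : 1 ≤ m := by
    rw [hm]; exact card_pos.2 ⟨g ⟨0, by omega⟩, mem_image_of_mem _ (mem_univ _)⟩
  have hTk : k ≤ T := by
    have : (univ.filter fun p : Fin k × Fin k => p.1 = p.2) ⊆ univ.filter fun p : Fin k × Fin k => g p.1 = g p.2 := by
      intro p hp
      rw [mem_filter] at hp ⊢
      exact ⟨mem_univ _, by rw [hp.2]⟩
    have h := card_le_card this
    have h' : (univ.filter fun p : Fin k × Fin k => p.1 = p.2).card = k := by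
      have : (univ.filter fun p : Fin k × Fin k => p.1 = p.2) = univ.image fun s : Fin k => (s, s) := by
        ext ⟨s, t⟩
        simp only [mem_filter, mem_univ, true_and, mem_image, Prod.mk.injEq]
        constructor
        · intro h; exact ⟨s, rfl, h⟩
        · rintro ⟨a, rfl, rfl⟩; rfl
      rw [this, card_image_of_injective _ (fun a b h => (Prod.mk.inj h).1), card_univ, Fintype.card_fin]
    omega
  have h1' : (T : ℝ) + m + 2 * k * m ≤ k ^ 2 + m ^ 2 + 2 * k := by exact_mod_cast h1
  have h2' : (C : ℝ) + T + m ^ 2 ≤ RR G + k ^ 2 + m := by exact_mod_cast h2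
  have hTk' : (k : ℝ) ≤ T := by exact_mod_cast hTk
  have hmk' : (m : ℝ) ≤ k := by exact_mod_cast hmk
  have hm1' : (1 : ℝ) ≤ m := by exact_mod_cast hm1
  have hk2' : (2 : ℝ) ≤ k := by exact_mod_cast hk2
  -- bound for `FF G`
  have hF : (RR G : ℝ) * cc n k ≤ k * (k - 1) * FF G := by
    have c1 := claim1 m G rfl (by omega)
    have c2 := cc_ratio (n := n) hmk hk
    rcases Nat.lt_or_ge m 2 with hm2 | hm2
    · have hm' : m = 1 := by omega
      have hR0 : RR G = 0 := by
        obtain ⟨e, he⟩ := card_eq_one.1 (hm.symm.trans hm')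
        rw [he]
        unfold RR
        rw [sum_singleton]
        unfold qq
        rw [card_eq_zero, filter_eq_empty_iff]
        intro f hf h
        rw [mem_singleton] at hf
        subst hf
        exact not_Dj_self _ h
      rw [hR0]
      have := FF_nonneg G
      push_cast
      rw [zero_mul]
      have : (0 : ℝ) ≤ (k : ℝ) - 1 := by linarith
      positivity
    · have hmm : (0 : ℝ) < (m : ℝ) * (m - 1) := by
        have : (2 : ℝ) ≤ m := by exact_mod_cast hm2
        nlinarith
      have h3 : (m : ℝ) * (m - 1) * (RR G * cc n k) ≤ (m : ℝ) * (m - 1) * (k * (k - 1) * FF G) := by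
        calc (m : ℝ) * (m - 1) * (RR G * cc n k) = RR G * ((m : ℝ) * (m - 1) * cc n k) := by ring
          _ ≤ RR G * (k * (k - 1) * cc n m) := by gcongr
          _ = k * (k - 1) * (RR G * cc n m) := by ring
          _ ≤ k * (k - 1) * ((m : ℝ) * (m - 1) * FF G) := by
              apply mul_le_mul_of_nonneg_left c1
              nlinarith
          _ = _ := by ring
      exact le_of_mul_le_mul_left h3 hmm
  have hFdef : (av G : ℝ) - n.factorial + k * (n - 1).factorial = FF G + (k - m) * (n - 1).factorial := by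
    unfold FF; ring
  rw [hFdef]
  set N : ℝ := ((n - 1).factorial : ℝ) with hN
  have hN0 : 0 < N := by rw [hN]; exact_mod_cast Nat.factorial_pos _
  have hcc0 : (0 : ℝ) ≤ cc n k := by positivity
  -- remaining: `(T - k)(k-1) N + (C - R) cc ≤ k (k-1) (k-m) N`
  suffices hs : ((T : ℝ) - k) * ((k - 1) * N) + (C - RR G) * cc n k ≤ k * (k - 1) * ((k - m) * N) by
    nlinarith [hF, hs]
  rcases Nat.lt_or_ge k 3 with hk3 | hk3
  · have hk' : k = 2 := by omega
    have hm12 : m = 1 ∨ m = 2 := by omega
    rcases hm12 with hm' | hm'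
    · -- one pair: `C ≤ R`, `T = 4`
      rw [hm'] at h1' h2'
      rw [hk'] at h1' h2' hTk' ⊢
      have hT4 : T = 4 := by
        obtain ⟨e, he⟩ := card_eq_one.1 (hm.symm.trans hm')
        have hge : ∀ s, g s = e := by
          intro s
          have : g s ∈ G := mem_image_of_mem _ (mem_univ _)
          rw [he, mem_singleton] at this
          exact this
        have : T = (univ : Finset (Fin k × Fin k)).card := by
          rw [hT]
          congr 1
          rw [filter_true_of_mem]
          intro p _
          rw [hge, hge]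
        rw [this, card_univ, Fintype.card_prod, Fintype.card_fin, hk']
      have hT4' : (T : ℝ) = 4 := by exact_mod_cast hT4
      have hCR : (C : ℝ) - RR G ≤ 0 := by rw [hT4'] at h2'; push_cast at h2'; linarith
      rw [hT4', hm']
      push_cast
      nlinarith [mul_nonneg (neg_nonneg.2 hCR) hcc0, hcc0]
    · rw [hm'] at h1' h2'
      rw [hk'] at h1' h2' hTk' ⊢
      push_cast at h1' h2' hTk' ⊢
      have hT2 : (T : ℝ) = 2 := le_antisymm (by linarith) hTk'
      have hCR : (C : ℝ) - RR G ≤ 0 := by linarith
      rw [hT2, hm']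
      push_cast
      nlinarith [mul_nonneg (neg_nonneg.2 hCR) hcc0]
  · have hcb := cc_bound (n := n) (k := k) (by omega) hk
    have hcb' : 2 * (cc n k : ℝ) ≤ (k - 1) * N := by
      have : ((2 * cc n k : ℕ) : ℝ) ≤ (((k - 1) * (n - 1).factorial : ℕ) : ℝ) := by exact_mod_cast hcb
      rw [Nat.cast_mul, Nat.cast_mul, Nat.cast_sub (by omega)] at this
      push_cast at this
      exact this
    rcases le_total ((C : ℝ) - RR G) 0 with hCR | hCR
    · have h3 : ((C : ℝ) - RR G) * cc n k ≤ 0 := mul_nonpos_of_nonpos_of_nonneg hCR hcc0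
      have h40 : 0 ≤ ((m : ℝ) - 1) * (k - m) := mul_nonneg (by linarith) (by linarith)
      have h4 : ((T : ℝ) - k) ≤ k * (k - m) := by nlinarith only [h1', h40]
      have h5 : ((T : ℝ) - k) * ((k - 1) * N) ≤ (k * (k - m)) * ((k - 1) * N) := by
        apply mul_le_mul_of_nonneg_right h4
        have : (0 : ℝ) ≤ (k : ℝ) - 1 := by linarith
        positivity
      have h6 : (k : ℝ) * (k - 1) * ((k - m) * N) = (k * (k - m)) * ((k - 1) * N) := by ring
      rw [h6]
      linarith
    · have h3 : ((C : ℝ) - RR G) * cc n k ≤ (C - RR G) * ((k - 1) * N / 2) := by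
        apply mul_le_mul_of_nonneg_left _ hCR
        linarith
      have h4 : ((T : ℝ) - k) + (C - RR G) / 2 ≤ k * (k - m) := by nlinarith only [h1', h2']
      have h5 : (((T : ℝ) - k) + (C - RR G) / 2) * ((k - 1) * N) ≤ (k * (k - m)) * ((k - 1) * N) := by
        apply mul_le_mul_of_nonneg_right h4
        have : (0 : ℝ) ≤ (k : ℝ) - 1 := by linarith
        positivity
      have h6 : (k : ℝ) * (k - 1) * ((k - m) * N) = (k * (k - m)) * ((k - 1) * N) := by ring
      rw [h6]
      have h7 : (((T : ℝ) - k) + (C - RR G) / 2) * ((k - 1) * N)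
        = ((T : ℝ) - k) * ((k - 1) * N) + (C - RR G) * ((k - 1) * N / 2) := by ring
      linarith

end Run7.h391
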