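import Pool.Agent.Run7.h391.Cert3

/-!
A dynamic programme over the grid paths.
-/

namespace Run7.h391

open Finset MeasureTheory

/-- minimum of neighbours -/
def relaxAux : ℤ → List ℤ → List ℤ
  | p, [] => [p]
  | p, a :: l => (if p ≤ a then p else a) :: relaxAux a l

/-- one step of the dynamic programme -/
def relax : List ℤ → List ℤ
  | [] => []
  | a :: l => a :: relaxAux a l

/-- several steps of the dynamic programme -/
def relaxN : ℕ → List ℤ → List ℤ
  | 0, l => l
  | n + 1, l => relaxN n (relax l)

theorem relaxAux_length : ∀ (l : List ℤ) (p : ℤ), (relaxAux p l).length = l.length + 1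
  | [], _ => rfl
  | a :: l, p => by
    show (relaxAux a l).length + 1 = _
    rw [relaxAux_length l a]; rfl

theorem relaxAux_left : ∀ (l : List ℤ) (p : ℤ) (j : ℕ), j ≤ l.length → (relaxAux p l).getD j 0 ≤ (p :: l).getD j 0
  | [], p, j, h => by
    simp only [List.length_nil, nonpos_iff_eq_zero] at h
    subst h; exact le_refl _
  | a :: l, p, j, h => by
    cases j with
    | zero =>
      show (if p ≤ a then p else a) ≤ p
      split_ifs with h'
      · exact le_refl _
      · exact (not_le.1 h').le
    | succ j =>
      show (relaxAux a l).getD j 0 ≤ (a :: l).getD j 0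
      exact relaxAux_left l a j (by simpa using h)

theorem relaxAux_right : ∀ (l : List ℤ) (p : ℤ) (j : ℕ), j < l.length → (relaxAux p l).getD j 0 ≤ l.getD j 0
  | [], p, j, h => by simp at h
  | a :: l, p, j, h => by
    cases j with
    | zero =>
      show (if p ≤ a then p else a) ≤ a
      split_ifs with h'
      · exact h'
      · exact le_refl _
    | succ j =>
      show (relaxAux a l).getD j 0 ≤ l.getD j 0
      exact relaxAux_right l a j (by simpa using h)

theorem relax_length {l : List ℤ} (h : 0 < l.length) : (relax l).length = l.length + 1 := by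
  cases l with
  | nil => simp at h
  | cons a l =>
    show (relaxAux a l).length + 1 = _
    rw [relaxAux_length]; rfl

theorem relax_same {l : List ℤ} {j : ℕ} (h : j < l.length) : (relax l).getD j 0 ≤ l.getD j 0 := by
  cases l with
  | nil => simp at h
  | cons a l =>
    cases j with
    | zero => exact le_refl _
    | succ j => exact relaxAux_right l a j (by simpa using h)

theorem relax_up {l : List ℤ} {j : ℕ} (h : j < l.length) : (relax l).getD (j + 1) 0 ≤ l.getD j 0 := by
  cases l with
  | nil => simp at h
  | cons a l =>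
    show (relaxAux a l).getD j 0 ≤ (a :: l).getD j 0
    exact relaxAux_left l a j (by simpa using h)

theorem IsPath.le {i : ℕ → ℕ} (h : IsPath i) (t : ℕ) : i t ≤ t := by
  induction t with
  | zero => rw [h.1]
  | succ t ih =>
    rcases h.2 t with h1 | h1 <;> omega

theorem relaxN_spec {i : ℕ → ℕ} (hi : IsPath i) : ∀ (d t : ℕ) (l : List ℤ), l.length = t + 1 →
    (relaxN d l).length = t + d + 1 ∧ (relaxN d l).getD (i (t + d)) 0 ≤ l.getD (i t) 0 := by
  intro d
  induction d with
  | zero => intro t l h; exact ⟨h, le_refl _⟩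
  | succ d ih =>
    intro t l h
    have h1 : (relax l).length = (t + 1) + 1 := by rw [relax_length (by omega), h]
    obtain ⟨h2, h3⟩ := ih (t + 1) (relax l) h1
    have h4 : (relax l).getD (i (t + 1)) 0 ≤ l.getD (i t) 0 := by
      have h5 := hi.le t
      rcases hi.2 t with h6 | h6 <;> rw [h6]
      · exact relax_same (by omega)
      · exact relax_up (by omega)
    constructor
    · show (relaxN d (relax l)).length = _
      rw [h2]; ring
    · show (relaxN d (relax l)).getD (i (t + (d + 1))) 0 ≤ _
      rw [show t + (d + 1) = t + 1 + d by ring]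
      exact h3.trans h4

/-- sums of neighbours -/
def expand2 : List ℤ → List ℤ
  | [] => []
  | [a] => [a + a]
  | a :: b :: l => (a + a) :: (a + b) :: expand2 (b :: l)

theorem expand2_spec : ∀ (l : List ℤ) (i : ℕ), i ≤ 2 * (l.length - 1) → 0 < l.length →
    (expand2 l).getD i 0 = l.getD (i / 2) 0 + l.getD ((i + 1) / 2) 0
  | [], i, _, h => by simp at h
  | [a], i, h, _ => by
    simp only [List.length_cons, List.length_nil, zero_add, Nat.sub_self, mul_zero, nonpos_iff_eq_zero] at h
    subst h; rfl
  | a :: b :: l, i, h, _ => by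
    match i, h with
    | 0, _ => rfl
    | 1, _ => rfl
    | i + 2, h =>
      show (expand2 (b :: l)).getD i 0 = _
      rw [expand2_spec (b :: l) i (by simp only [List.length_cons] at h ⊢; omega) (by simp)]
      rw [show (i + 2) / 2 = i / 2 + 1 by omega, show (i + 2 + 1) / 2 = (i + 1) / 2 + 1 by omega]
      rfl

/-- list of costs -/
def costL (c : Cert) : List ℤ :=
  bif c.g == 1 then c.lam.map fun a => ((c.x + c.y : ℕ) : ℤ) * a
  else (expand2 c.lam).map fun a => ((2 * (c.x + c.y) : ℕ) : ℤ) * a

/-- cost function -/
def costZ (c : Cert) (i : ℕ) : ℤ := ((c.x + c.y : ℕ) : ℤ) * (c.g * ∑ s ∈ range c.g, c.lam.getD ((i + s) / c.g) 0)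

theorem expand2_length : ∀ (l : List ℤ), 0 < l.length → (expand2 l).length = 2 * (l.length - 1) + 1
  | [], h => by simp at h
  | [a], _ => rfl
  | a :: b :: l, _ => by
    show (expand2 (b :: l)).length + 1 + 1 = _
    rw [expand2_length (b :: l) (by simp)]
    simp only [List.length_cons]
    omega

theorem getD_map_mul (l : List ℤ) (a : ℤ) (i : ℕ) : (l.map fun b => a * b).getD i 0 = a * l.getD i 0 := by
  have := List.getD_map (l := l) (d := 0) (n := i) (f := fun b => a * b)
  rwa [mul_zero] at this

theorem costL_spec {c : Cert} (hg : c.g = 1 ∨ c.g = 2) (hl : c.lam.length = c.m + 1) {i : ℕ}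
    (hi : i ≤ c.g * c.m) : (costL c).length = c.g * c.m + 1 ∧ (costL c).getD i 0 = costZ c i := by
  unfold costL costZ
  rcases hg with hg | hg
  · rw [hg]
    simp only [beq_self_eq_true, cond_true]
    rw [getD_map_mul, List.length_map, hl, one_mul]
    refine ⟨rfl, ?_⟩
    rw [sum_range_one, add_zero, Nat.div_one]
    simp
  · rw [hg] at hi ⊢
    simp only [show ((2 : ℕ) == 1) = false from rfl, cond_false]
    rw [getD_map_mul, List.length_map, expand2_length _ (by omega), hl]
    refine ⟨by simp, ?_⟩
    rw [expand2_spec _ _ (by omega) (by omega), sum_range_succ, sum_range_one, add_zero]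
    push_cast
    ring

/-- the dynamic programme -/
def dpRun (V : ℤ) : List Cert → ℕ → List ℤ → Bool
  | [], _, ph => ph.all fun a => decide (V ≤ a)
  | c :: l, t, ph => decide (t ≤ c.g * c.m) &&
      dpRun V l (c.g * c.m) (List.zipWith (fun a b => a + b) (relaxN (c.g * c.m - t) ph) (costL c))

theorem dpRun_spec (V : ℤ) {i : ℕ → ℕ} (hi : IsPath i) : ∀ (l : List Cert) (t : ℕ) (ph : List ℤ) (P : ℤ),
    ph.length = t + 1 → ph.getD (i t) 0 ≤ P → (∀ c ∈ l, (c.g = 1 ∨ c.g = 2) ∧ c.lam.length = c.m + 1) →
    dpRun V l t ph = true → V ≤ P + (l.map fun c => costZ c (i (c.g * c.m))).sum := by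
  intro l
  induction l with
  | nil =>
    intro t ph P h1 h2 _ h3
    unfold dpRun at h3
    rw [List.all_eq_true] at h3
    have h4 := hi.le t
    have h5 : i t < ph.length := by omega
    have h6 := h3 (ph.getD (i t) 0) (by rw [List.getD_eq_getElem _ _ h5]; exact List.getElem_mem h5)
    rw [decide_eq_true_eq] at h6
    simp only [List.map_nil, List.sum_nil, add_zero]
    exact h6.trans h2
  | cons c l ih =>
    intro t ph P h1 h2 h3 h4
    unfold dpRun at h4
    rw [Bool.and_eq_true, decide_eq_true_eq] at h4
    obtain ⟨h5, h6⟩ := h4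
    obtain ⟨hg, hl⟩ := h3 c (List.mem_cons_self ..)
    obtain ⟨h7, h8⟩ := relaxN_spec hi (c.g * c.m - t) t ph h1
    rw [show t + (c.g * c.m - t) = c.g * c.m by omega] at h7 h8
    have h9 := hi.le (c.g * c.m)
    obtain ⟨h10, h11⟩ := costL_spec hg hl h9
    have h12 := ih (c.g * c.m) _ (P + costZ c (i (c.g * c.m))) (by
      rw [List.length_zipWith, h7, h10, min_self]) (by
      rw [List.getD_eq_getElem _ _ (by rw [List.length_zipWith, h7, h10, min_self]; omega), List.getElem_zipWith]
      rw [List.getD_eq_getElem _ _ (by omega)] at h8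
      rw [List.getD_eq_getElem _ _ (by omega)] at h11
      rw [h11]
      have := h8.trans h2
      omega) (fun c' hc' => h3 c' (List.mem_cons_of_mem _ hc')) h6
    rw [List.map_cons, List.sum_cons]
    omega

end Run7.h391
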