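import Pool.Agent.Run7.h391.FRound

/-!
Averaging the certificate over two independent draws.
-/

namespace Run7.h391

open Finset Real

theorem psd_sum {U : Type*} [Fintype U] (p x : U → ℝ) : 0 ≤ ∑ u, ∑ v, p u * p v * (x u * x v) := by
  have : ∑ u, ∑ v, p u * p v * (x u * x v) = (∑ u, p u * x u) * (∑ v, p v * x v) := by
    rw [sum_mul_sum]
    exact sum_congr rfl fun u _ => sum_congr rfl fun v _ => by ring
  rw [this]
  exact mul_self_nonneg _

theorem bar_mul_id {M m x : ℕ} (hM : 0 < M) (hm : 0 < m) (hx : x ≤ m * M) (g : ℕ → ℝ) :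
    |bar M (fun i => (i : ℝ) * g i) x - bar M g x * ((x : ℝ) / M)|
      ≤ |g (cell M m x + 1) - g (cell M m x)| / 4 := by
  have h := ev_cov_id (M := M) hM (f := fun r => (((x + r) / M : ℕ) : ℝ)) (g := fun r => g ((x + r) / M))
    (p := ((cell M m x : ℕ) : ℝ)) (p' := g (cell M m x)) (δ' := g (cell M m x + 1) - g (cell M m x))
    (by
      intro r hr
      rcases fl_cell hM hm hx hr with h | h
      · left; exact ⟨by rw [h], by rw [h]⟩
      · right; exact ⟨by rw [h]; push_cast; ring, by rw [h]; ring⟩)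
  have h1 : ev M (fun r => (((x + r) / M : ℕ) : ℝ)) = x / M := bar_id hM x
  rw [h1] at h
  have h2 : bar M g x * ((x : ℝ) / M) = (x : ℝ) / M * ev M (fun r => g ((x + r) / M)) := by
    unfold bar; ring
  rw [h2]
  exact h

theorem abs_bar_le {M m x : ℕ} (hM : 0 < M) (hx : x ≤ m * M) {φ : ℕ → ℝ} {C : ℝ}
    (h : ∀ i ≤ m, |φ i| ≤ C) : |bar M φ x| ≤ C := by
  have h1 : bar M φ x ≤ C := by
    rw [← ev_const hM C]
    exact ev_mono fun r hr => (abs_le.1 (h _ (fl_le_m hM hx hr))).2
  have h2 : -C ≤ bar M φ x := by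
    rw [← ev_const hM (-C)]
    exact ev_mono fun r hr => (abs_le.1 (h _ (fl_le_m hM hx hr))).1
  exact abs_le.2 ⟨h2, h1⟩

theorem psd_overlap {U S : Type*} [Fintype U] [Fintype S] [DecidableEq S] {M m : ℕ} (hM : 0 < M) (hm : 0 < m)
    (hS : Fintype.card S = m * M) (p : U → ℝ) (hp : ∀ u, 0 ≤ p u) (hp1 : ∑ u, p u = 1)
    (H : U → Finset S) (g : ℕ → ℝ) {C : ℝ} (hC : ∀ i ≤ m, |(i : ℝ) * g i| ≤ C) :
    -(C / (2 * m)) * ∑ u, p u * |g (cell M m (H u).card + 1) - g (cell M m (H u).card)|
      ≤ ∑ u, ∑ v, p u * p v * (bar M g (H u).card * bar M g (H v).card * (((H u ∩ H v).card : ℝ) / M)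
        - bar M (fun i => (i : ℝ) * g i) (H u).card * bar M (fun i => (i : ℝ) * g i) (H v).card / m) := by
  have hm0 : (0 : ℝ) < m := by exact_mod_cast hm
  have hM0 : (0 : ℝ) < M := by exact_mod_cast hM
  have hle : ∀ u, (H u).card ≤ m * M := fun u => by
    rw [← hS]; exact card_le_univ _
  have hC0 : 0 ≤ C := by
    have := hC 0 (Nat.zero_le _)
    exact (abs_nonneg _).trans this
  set X : S → ℝ := fun s => ∑ u, p u * (bar M g (H u).card * (if s ∈ H u then 1 else 0)) with hX
  have h1 : ∑ u, ∑ v, p u * p v * (bar M g (H u).card * bar M g (H v).card * (((H u ∩ H v).card : ℝ) / M))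
      = (∑ s, X s ^ 2) / M := by
    have h2 : ∀ s, X s ^ 2 = ∑ u, ∑ v, p u * p v * (bar M g (H u).card * bar M g (H v).card
        * ((if s ∈ H u then 1 else 0) * (if s ∈ H v then 1 else 0))) := by
      intro s
      rw [sq, hX, sum_mul_sum]
      exact sum_congr rfl fun u _ => sum_congr rfl fun v _ => by ring
    have h3 : ∀ u v, ∑ s : S, (if s ∈ H u then (1 : ℝ) else 0) * (if s ∈ H v then 1 else 0) = ((H u ∩ H v).card : ℝ) := by
      intro u v
      rw [card_eq_sum_ones, Nat.cast_sum]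
      rw [← sum_filter_add_sum_filter_not univ (fun s => s ∈ H u ∩ H v)]
      have h4 : (univ.filter fun s => s ∈ H u ∩ H v) = H u ∩ H v := by ext s; simp
      rw [h4]
      have h5 : ∑ s ∈ univ.filter (fun s => ¬ s ∈ H u ∩ H v), (if s ∈ H u then (1 : ℝ) else 0) * (if s ∈ H v then 1 else 0) = 0 := by
        apply sum_eq_zero
        intro s hs
        rw [mem_filter, mem_inter] at hs
        by_cases h6 : s ∈ H u
        · by_cases h7 : s ∈ H v
          · exact absurd ⟨h6, h7⟩ hs.2
          · simp [h7]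
        · simp [h6]
      rw [h5, add_zero]
      apply sum_congr rfl
      intro s hs
      rw [mem_inter] at hs
      simp [hs.1, hs.2]
    have h6 : ∑ s, X s ^ 2 = ∑ u, ∑ v, p u * p v * (bar M g (H u).card * bar M g (H v).card
        * ((H u ∩ H v).card : ℝ)) := by
      rw [sum_congr rfl fun s _ => h2 s, sum_comm]
      apply sum_congr rfl
      intro u _
      rw [sum_comm]
      apply sum_congr rfl
      intro v _
      rw [← mul_sum, ← mul_sum, h3 u v]
    rw [h6, sum_div]
    apply sum_congr rfl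
    intro u _
    rw [sum_div]
    apply sum_congr rfl
    intro v _
    ring
  have hsumX : ∑ s, X s = M * ∑ u, p u * (bar M g (H u).card * (((H u).card : ℝ) / M)) := by
    rw [hX, sum_comm, mul_sum]
    apply sum_congr rfl
    intro u _
    rw [← mul_sum, ← mul_sum]
    have : ∑ s : S, (if s ∈ H u then (1 : ℝ) else 0) = (H u).card := by
      rw [sum_ite_mem, univ_inter, sum_const, nsmul_eq_mul, mul_one]
    rw [this]; field_simp
  have hcs : (∑ s, X s) ^ 2 ≤ (m * M) * ∑ s, X s ^ 2 := by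
    have := sq_sum_le_card_mul_sum_sq (s := (univ : Finset S)) (f := X)
    rw [card_univ, hS] at this
    push_cast at this
    exact this
  set P : ℝ := ∑ u, p u * (bar M g (H u).card * (((H u).card : ℝ) / M)) with hP
  set Q : ℝ := ∑ u, p u * bar M (fun i => (i : ℝ) * g i) (H u).card with hQ
  have h3 : P ^ 2 / m ≤ (∑ s, X s ^ 2) / M := by
    rw [hsumX] at hcs
    rw [div_le_div_iff₀ hm0 hM0]
    have h4 : (M : ℝ) * (P ^ 2 * M) ≤ M * ((∑ s, X s ^ 2) * m) := by nlinarith
    exact le_of_mul_le_mul_left h4 hM0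
  have h5 : ∑ u, ∑ v, p u * p v * (bar M (fun i => (i : ℝ) * g i) (H u).card * bar M (fun i => (i : ℝ) * g i) (H v).card / m)
      = Q ^ 2 / m := by
    rw [hQ, sq, sum_mul_sum, sum_div]
    apply sum_congr rfl
    intro u _
    rw [sum_div]
    exact sum_congr rfl fun v _ => by ring
  have h6 : |P - Q| ≤ (∑ u, p u * |g (cell M m (H u).card + 1) - g (cell M m (H u).card)|) / 4 := by
    rw [hP, hQ, ← sum_sub_distrib, sum_div]
    refine (abs_sum_le_sum_abs _ _).trans (sum_le_sum fun u _ => ?_)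
    rw [← mul_sub, abs_mul, abs_of_nonneg (hp u), abs_sub_comm, mul_div_assoc]
    exact mul_le_mul_of_nonneg_left (bar_mul_id hM hm (hle u) g) (hp u)
  have h7 : |Q| ≤ C := by
    rw [hQ]
    refine (abs_sum_le_sum_abs _ _).trans ?_
    calc ∑ u, |p u * bar M (fun i => (i : ℝ) * g i) (H u).card| ≤ ∑ u, p u * C := by
          apply sum_le_sum; intro u _
          rw [abs_mul, abs_of_nonneg (hp u)]
          exact mul_le_mul_of_nonneg_left (abs_bar_le hM (hle u) hC) (hp u)
      _ = C := by rw [← sum_mul, hp1, one_mul]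
  have h8 : -(2 * C * |P - Q|) ≤ P ^ 2 - Q ^ 2 := by
    have h9 : P ^ 2 - Q ^ 2 = 2 * Q * (P - Q) + (P - Q) ^ 2 := by ring
    have h10 : -(C * |P - Q|) ≤ Q * (P - Q) := by
      have : |Q * (P - Q)| ≤ C * |P - Q| := by
        rw [abs_mul]; exact mul_le_mul_of_nonneg_right h7 (abs_nonneg _)
      exact (abs_le.1 this).1
    nlinarith [sq_nonneg (P - Q)]
  have hsplit : ∑ u, ∑ v, p u * p v * (bar M g (H u).card * bar M g (H v).card * (((H u ∩ H v).card : ℝ) / M)
        - bar M (fun i => (i : ℝ) * g i) (H u).card * bar M (fun i => (i : ℝ) * g i) (H v).card / m)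
      = (∑ s, X s ^ 2) / M - Q ^ 2 / m := by
    rw [← h1, ← h5, ← sum_sub_distrib]
    apply sum_congr rfl
    intro u _
    rw [← sum_sub_distrib]
    exact sum_congr rfl fun v _ => by ring
  rw [hsplit]
  have h11 : (P ^ 2 - Q ^ 2) / m ≤ (∑ s, X s ^ 2) / M - Q ^ 2 / m := by
    rw [sub_div]; linarith
  refine le_trans ?_ h11
  set E : ℝ := ∑ u, p u * |g (cell M m (H u).card + 1) - g (cell M m (H u).card)|
  have h12 : -(C / (2 * m)) * E = (-(2 * C * (E / 4))) / m := by field_simp; ring
  rw [h12]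
  apply div_le_div_of_nonneg_right _ hm0.le
  have : 2 * C * |P - Q| ≤ 2 * C * (E / 4) := mul_le_mul_of_nonneg_left h6 (by linarith)
  linarith

theorem split_sum {U ι κ : Type*} [Fintype U] [Fintype ι] [Fintype κ] (p : U → ℝ) (hp1 : ∑ u, p u = 1)
    (L R : U → ℝ) (Q : ι → U → U → ℝ) (G : κ → U → U → ℝ) :
    ∑ u, ∑ v, p u * p v * (L u + L v + ∑ l, Q l u v + ∑ l, G l u v - R u - R v)
      = 2 * (∑ u, p u * L u) - 2 * (∑ u, p u * R u) + ∑ l, ∑ u, ∑ v, p u * p v * Q l u v
        + ∑ l, ∑ u, ∑ v, p u * p v * G l u v := by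
  have hone : ∀ x : U → ℝ, ∑ u, ∑ v, p u * p v * x u = ∑ u, p u * x u := by
    intro x
    apply sum_congr rfl
    intro u _
    have : ∀ v, p u * p v * x u = (p u * x u) * p v := fun v => by ring
    rw [sum_congr rfl fun v _ => this v, ← mul_sum, hp1, mul_one]
  have hone' : ∀ x : U → ℝ, ∑ u, ∑ v, p u * p v * x v = ∑ u, p u * x u := by
    intro x
    rw [sum_comm, ← hone x]
    exact sum_congr rfl fun u _ => sum_congr rfl fun v _ => by ring
  have e1 : ∀ u v, p u * p v * (L u + L v + ∑ l, Q l u v + ∑ l, G l u v - R u - R v)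
      = p u * p v * L u + p u * p v * L v + ∑ l, p u * p v * Q l u v + ∑ l, p u * p v * G l u v
        - p u * p v * R u - p u * p v * R v := by
    intro u v
    rw [← mul_sum, ← mul_sum]; ring
  simp only [e1, sum_sub_distrib, sum_add_distrib]
  rw [hone L, hone' L, hone R, hone' R]
  have e2 : ∑ u, ∑ v, ∑ l, p u * p v * Q l u v = ∑ l, ∑ u, ∑ v, p u * p v * Q l u v := by
    rw [sum_congr rfl fun u _ => sum_comm, sum_comm]
  have e3 : ∑ u, ∑ v, ∑ l, p u * p v * G l u v = ∑ l, ∑ u, ∑ v, p u * p v * G l u v := by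
    rw [sum_congr rfl fun u _ => sum_comm, sum_comm]
  rw [e2, e3]; ring

/-- the certificate at one time, averaged -/
theorem expect_bound {U S ι κ : Type*} [Fintype U] [Fintype S] [DecidableEq S] [Fintype ι] [Fintype κ]
    {N M m : ℕ} (hN : 16 ≤ N) (hM : 0 < M) (hm : 0 < m)
    (hS : Fintype.card S = m * M) (p : U → ℝ) (hp : ∀ u, 0 ≤ p u) (hp1 : ∑ u, p u = 1)
    (H : U → Finset S) (ell : ℕ → ℝ) (q : ι → ℕ → ℝ) (g : κ → ℕ → ℝ) (C : κ → ℝ)
    (hC : ∀ l, ∀ i ≤ m, |(i : ℝ) * g l i| ≤ C l)
    (hV : ∀ x t y z : ℕ, x + t + y + z = m →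
      ell (x + t) + ell (t + y) + ∑ l, q l (x + t) * q l (t + y)
        + ∑ l, (g l (x + t) * g l (t + y) * (t : ℝ)
          - ((x + t : ℕ) * g l (x + t)) * ((t + y : ℕ) * g l (t + y)) / m) ≤ Kv N x y z)
    (lam : ℕ → ℝ)
    (hlam : ∀ I < m, ∀ i, (i = I ∨ i = I + 1) → lam i ≤ ell i - sErr N m q g I
      - (∑ l, C l * |g l (I + 1) - g l I|) / (4 * m)) :
    2 * ∑ u, p u * bar M lam (H u).card
      ≤ ∑ u, ∑ v, p u * p v * (max 0 ((N : ℝ) - ((H u \ H v).card : ℝ) / M)
        * max 0 ((N : ℝ) - ((H v \ H u).card : ℝ) / M) * exp (-(((univ \ (H u ∪ H v)).card : ℝ) / M) / N)) := by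
  have hm0 : (0 : ℝ) < m := by exact_mod_cast hm
  have hle : ∀ u, (H u).card ≤ m * M := fun u => by
    rw [← hS]; exact card_le_univ _
  -- the pairwise inequality
  have hpair : ∀ u v, bar M ell (H u).card + bar M ell (H v).card
      + ∑ l, bar M (q l) (H u).card * bar M (q l) (H v).card
      + ∑ l, (bar M (g l) (H u).card * bar M (g l) (H v).card * (((H u ∩ H v).card : ℝ) / M)
        - bar M (fun i => (i : ℝ) * g l i) (H u).card * bar M (fun i => (i : ℝ) * g l i) (H v).card / m)
      - sErr N m q g (cell M m (H u).card) - sErr N m q g (cell M m (H v).card)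
      ≤ max 0 ((N : ℝ) - ((H u \ H v).card : ℝ) / M)
        * max 0 ((N : ℝ) - ((H v \ H u).card : ℝ) / M) * exp (-(((univ \ (H u ∪ H v)).card : ℝ) / M) / N) := by
    intro u v
    have h1 : (H u \ H v).card + (H u ∩ H v).card = (H u).card := card_sdiff_add_card_inter _ _
    have h2 : (H u ∩ H v).card + (H v \ H u).card = (H v).card := by
      rw [inter_comm, add_comm]; exact card_sdiff_add_card_inter _ _
    have h3 : (H u \ H v).card + (H u ∩ H v).card + (H v \ H u).card + (univ \ (H u ∪ H v)).card = m * M := by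
      have h4 : (univ \ (H u ∪ H v)).card + (H u ∪ H v).card = Fintype.card S := by
        rw [← card_univ]
        have := card_sdiff_add_card_inter (univ : Finset S) (H u ∪ H v)
        rwa [univ_inter] at this
      have h5 := card_union_add_card_inter (H u) (H v)
      rw [hS] at h4
      omega
    have h6 := f_round hN hM hm h3 ell q g hV
    rw [h1, h2] at h6
    exact h6
  have hsum : ∑ u, ∑ v, p u * p v * (bar M ell (H u).card + bar M ell (H v).card
      + ∑ l, bar M (q l) (H u).card * bar M (q l) (H v).card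
      + ∑ l, (bar M (g l) (H u).card * bar M (g l) (H v).card * (((H u ∩ H v).card : ℝ) / M)
        - bar M (fun i => (i : ℝ) * g l i) (H u).card * bar M (fun i => (i : ℝ) * g l i) (H v).card / m)
      - sErr N m q g (cell M m (H u).card) - sErr N m q g (cell M m (H v).card))
      ≤ ∑ u, ∑ v, p u * p v * (max 0 ((N : ℝ) - ((H u \ H v).card : ℝ) / M)
        * max 0 ((N : ℝ) - ((H v \ H u).card : ℝ) / M) * exp (-(((univ \ (H u ∪ H v)).card : ℝ) / M) / N)) :=
    sum_le_sum fun u _ => sum_le_sum fun v _ =>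
      mul_le_mul_of_nonneg_left (hpair u v) (mul_nonneg (hp u) (hp v))
  refine le_trans ?_ hsum
  have hq : 0 ≤ ∑ l, ∑ u, ∑ v, p u * p v * (bar M (q l) (H u).card * bar M (q l) (H v).card) :=
    sum_nonneg fun l _ => psd_sum p fun u => bar M (q l) (H u).card
  have hg : ∑ l, (-(C l / (2 * m)) * ∑ u, p u * |g l (cell M m (H u).card + 1) - g l (cell M m (H u).card)|)
      ≤ ∑ l, ∑ u, ∑ v, p u * p v * (bar M (g l) (H u).card * bar M (g l) (H v).card * (((H u ∩ H v).card : ℝ) / M)
        - bar M (fun i => (i : ℝ) * g l i) (H u).card * bar M (fun i => (i : ℝ) * g l i) (H v).card / m) :=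
    sum_le_sum fun l _ => psd_overlap hM hm hS p hp hp1 H (g l) (hC l)
  have hsplit := split_sum p hp1 (fun u => bar M ell (H u).card) (fun u => sErr N m q g (cell M m (H u).card))
    (fun l u v => bar M (q l) (H u).card * bar M (q l) (H v).card)
    (fun l u v => bar M (g l) (H u).card * bar M (g l) (H v).card * (((H u ∩ H v).card : ℝ) / M)
        - bar M (fun i => (i : ℝ) * g l i) (H u).card * bar M (fun i => (i : ℝ) * g l i) (H v).card / m)
  rw [hsplit]
  -- the single-word bound
  have hbar : ∀ u, bar M lam (H u).card ≤ bar M ell (H u).card - sErr N m q g (cell M m (H u).card)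
      - (∑ l, C l * |g l (cell M m (H u).card + 1) - g l (cell M m (H u).card)|) / (4 * m) := by
    intro u
    set I := cell M m (H u).card with hI
    have hIm : I < m := by rw [hI]; unfold cell; omega
    have h1 : bar M lam (H u).card ≤ ev M (fun r => ell (((H u).card + r) / M) - (sErr N m q g I
      + (∑ l, C l * |g l (I + 1) - g l I|) / (4 * m))) := by
      apply ev_mono
      intro r hr
      have := hlam I hIm _ (fl_cell hM hm (hle u) hr)
      linarith
    rw [ev_sub, ev_const hM] at h1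
    have h2 : ev M (fun r => ell (((H u).card + r) / M)) = bar M ell (H u).card := rfl
    rw [h2] at h1
    linarith
  have hfin : ∑ u, p u * bar M lam (H u).card ≤ ∑ u, p u * bar M ell (H u).card
      - ∑ u, p u * sErr N m q g (cell M m (H u).card)
      - ∑ l, (C l / (4 * m)) * ∑ u, p u * |g l (cell M m (H u).card + 1) - g l (cell M m (H u).card)| := by
    have h1 : ∑ l, (C l / (4 * m)) * ∑ u, p u * |g l (cell M m (H u).card + 1) - g l (cell M m (H u).card)|
        = ∑ u, p u * ((∑ l, C l * |g l (cell M m (H u).card + 1) - g l (cell M m (H u).card)|) / (4 * m)) := by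
      simp only [mul_sum, sum_div]
      rw [sum_comm]
      exact sum_congr rfl fun u _ => sum_congr rfl fun l _ => by ring
    rw [h1, ← sum_sub_distrib, ← sum_sub_distrib]
    apply sum_le_sum
    intro u _
    have := mul_le_mul_of_nonneg_left (hbar u) (hp u)
    linarith
  have hg' : -(2 * ∑ l, (C l / (4 * m)) * ∑ u, p u * |g l (cell M m (H u).card + 1) - g l (cell M m (H u).card)|)
      = ∑ l, (-(C l / (2 * m)) * ∑ u, p u * |g l (cell M m (H u).card + 1) - g l (cell M m (H u).card)|) := by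
    rw [mul_sum, ← sum_neg_distrib]
    exact sum_congr rfl fun l _ => by ring
  rw [← hg'] at hg
  linarith

end Run7.h391
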