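import Pool.Agent.Run7.h391.KRound

/-!
Rounding the certificate.
-/

namespace Run7.h391

open Finset Real

theorem beta_cell {M m a b d : ℕ} (hM : 0 < M) (hm : 0 < m) (hB : d + b ≤ m * M) (r : ℕ) :
    (a + d + b + r) / M - (a + r) / M = cell M m (d + b) ∨
      (a + d + b + r) / M - (a + r) / M = cell M m (d + b) + 1 := by
  have h1 : (a + d + b + r) / M - (a + r) / M = (d + b + (a + r) % M) / M := by
    rw [← fl_sub hM a (d + b) r, ← add_assoc]
  rw [h1]
  exact fl_cell hM hm hB (Nat.mod_lt _ hM)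

theorem beta_bar {M a b d : ℕ} (hM : 0 < M) (φ : ℕ → ℝ) :
    ev M (fun r => φ ((a + d + b + r) / M - (a + r) / M)) = bar M φ (d + b) := by
  rw [← ev_fl_sub hM φ a (d + b)]
  simp only [add_assoc]

theorem q_round {M m a b d : ℕ} (hM : 0 < M) (hm : 0 < m) (hA : a + d ≤ m * M) (hB : d + b ≤ m * M)
    (q : ℕ → ℝ) :
    |ev M (fun r => q ((a + d + r) / M) * q ((a + d + b + r) / M - (a + r) / M))
      - bar M q (a + d) * bar M q (d + b)|
      ≤ ((q (cell M m (a + d) + 1) - q (cell M m (a + d))) ^ 2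
        + (q (cell M m (d + b) + 1) - q (cell M m (d + b))) ^ 2) / 8 := by
  have h := ev_cov (M := M) hM (f := fun r => q ((a + d + r) / M))
    (g := fun r => q ((a + d + b + r) / M - (a + r) / M))
    (p := q (cell M m (a + d))) (δ := q (cell M m (a + d) + 1) - q (cell M m (a + d)))
    (p' := q (cell M m (d + b))) (δ' := q (cell M m (d + b) + 1) - q (cell M m (d + b)))
    (by
      intro r hr
      rcases fl_cell hM hm hA hr with h | h
      · left; rw [h]
      · right; rw [h]; ring)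
    (by
      intro r _
      rcases beta_cell (a := a) hM hm hB r with h | h
      · left; rw [h]
      · right; rw [h]; ring)
  rw [beta_bar hM q] at h
  exact h

theorem bar_sq_le {M m x : ℕ} (hM : 0 < M) (hm : 0 < m) (hx : x ≤ m * M) (g : ℕ → ℝ) :
    bar M g x ^ 2 ≤ max (g (cell M m x) ^ 2) (g (cell M m x + 1) ^ 2) := by
  set I := cell M m x
  have h1 : bar M g x ^ 2 ≤ ev M (fun r => g ((x + r) / M) ^ 2) := by
    have h2 : 0 ≤ ev M (fun r => (g ((x + r) / M) - bar M g x) ^ 2) := ev_nonneg fun r _ => sq_nonneg _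
    have h3 : ∀ r < M, (g ((x + r) / M) - bar M g x) ^ 2
        = g ((x + r) / M) ^ 2 - 2 * bar M g x * g ((x + r) / M) + bar M g x ^ 2 := by
      intro r _; ring
    rw [ev_congr h3, ev_add, ev_sub, ev_mul_left, ev_const hM] at h2
    have h4 : ev M (fun r => g ((x + r) / M)) = bar M g x := rfl
    rw [h4] at h2
    nlinarith
  refine h1.trans ?_
  rw [← ev_const hM (max (g I ^ 2) (g (I + 1) ^ 2))]
  apply ev_mono
  intro r hr
  rcases fl_cell hM hm hx hr with h | h
  · rw [h]; exact le_max_left _ _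
  · rw [h]; exact le_max_right _ _

theorem d_round {N M m a b d : ℕ} (hN : 0 < N) (hM : 0 < M) (hm : 0 < m) (hA : a + d ≤ m * M)
    (hB : d + b ≤ m * M) (g : ℕ → ℝ) :
    bar M g (a + d) * bar M g (d + b) * ((d : ℝ) / M)
      - (max (g (cell M m (a + d)) ^ 2) (g (cell M m (a + d) + 1) ^ 2) / N
        + (N + (cell M m (a + d) : ℝ) + 1) * (g (cell M m (a + d) + 1) - g (cell M m (a + d))) ^ 2) / 8
      - (max (g (cell M m (d + b)) ^ 2) (g (cell M m (d + b) + 1) ^ 2) / N
        + (N + (cell M m (d + b) : ℝ) + 1) * (g (cell M m (d + b) + 1) - g (cell M m (d + b))) ^ 2) / 8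
      ≤ ev M (fun r => g ((a + d + r) / M) * g ((a + d + b + r) / M - (a + r) / M)
          * (((a + d + r) / M - (a + r) / M : ℕ) : ℝ)) := by
  have hN0 : (0 : ℝ) < N := by exact_mod_cast hN
  have hg1 := bar_sq_le hM hm hA g
  have hg2 := bar_sq_le hM hm hB g
  set I := cell M m (a + d) with hI
  set J := cell M m (d + b) with hJ
  set f1 : ℕ → ℝ := fun r => g ((a + d + r) / M) with hf1
  set f2 : ℕ → ℝ := fun r => g ((a + d + b + r) / M - (a + r) / M) with hf2
  set k : ℕ → ℝ := fun r => (((a + d + r) / M - (a + r) / M : ℕ) : ℝ) with hk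
  set G1 := bar M g (a + d) with hG1
  set G2 := bar M g (d + b) with hG2
  have e1 : ev M f1 = G1 := rfl
  have e2 : ev M f2 = G2 := beta_bar hM g
  have ek : ev M k = d / M := by
    rw [← bar_id hM d, ← ev_fl_sub hM (fun i => (i : ℝ)) a d]
  have t1 : ∀ r < M, f1 r = g I ∨ f1 r = g I + (g (I + 1) - g I) := by
    intro r hr
    rcases fl_cell hM hm hA hr with h | h
    · left; simp only [hf1, h, hI]
    · right; simp only [hf1, h, hI]; ring
  have t2 : ∀ r < M, f2 r = g J ∨ f2 r = g J + (g (J + 1) - g J) := by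
    intro r _
    rcases beta_cell (a := a) hM hm hB r with h | h
    · left; simp only [hf2, h, hJ]
    · right; simp only [hf2, h, hJ]; ring
  have tk : ∀ r < M, k r = ((d / M : ℕ) : ℝ) ∨ k r = ((d / M : ℕ) : ℝ) + 1 := by
    intro r _
    have : (a + d + r) / M - (a + r) / M = (d + (a + r) % M) / M := fl_sub hM a d r
    rcases fl_two hM d (Nat.mod_lt (a + r) hM) with h | h
    · left; simp only [hk, this, h]
    · right; simp only [hk, this, h]; push_cast; ring
  have v1 := ev_var hM t1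
  have v2 := ev_var hM t2
  have vk := ev_var hM tk
  rw [e1] at v1
  rw [e2] at v2
  rw [ek] at vk
  have hk0 : ∀ r < M, 0 ≤ k r := fun r _ => Nat.cast_nonneg _
  have hk1 : ∀ r < M, k r ≤ (I : ℝ) + 1 := by
    intro r hr
    have h1 : (a + d + r) / M - (a + r) / M ≤ I + 1 := by
      refine (Nat.sub_le _ _).trans ?_
      rcases fl_cell hM hm hA hr with h | h <;> rw [h] <;> omega
    simp only [hk]; exact_mod_cast h1
  have hk2 : ∀ r < M, k r ≤ (J : ℝ) + 1 := by
    intro r hr
    have h0 : (a + d + r) / M ≤ (a + d + b + r) / M := Nat.div_le_div_right (by omega)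
    have h1 : (a + d + r) / M - (a + r) / M ≤ J + 1 := by
      refine (Nat.sub_le_sub_right h0 _).trans ?_
      rcases beta_cell (a := a) hM hm hB r with h | h <;> rw [h] <;> omega
    simp only [hk]; exact_mod_cast h1
  -- expansion
  have hexp : ev M (fun r => f1 r * f2 r * k r) = G1 * G2 * (d / M)
      + ev M (fun r => G1 * ((f2 r - G2) * (k r - d / M)))
      + ev M (fun r => G2 * ((f1 r - G1) * (k r - d / M)))
      + ev M (fun r => (f1 r - G1) * (f2 r - G2) * k r) := by
    have h1 : ∀ r < M, f1 r * f2 r * k r = G1 * G2 * k r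
        + G1 * (d / M) * (f2 r - G2) + G2 * (d / M) * (f1 r - G1)
        + G1 * ((f2 r - G2) * (k r - d / M))
        + G2 * ((f1 r - G1) * (k r - d / M)) + (f1 r - G1) * (f2 r - G2) * k r := by
      intro r _; ring
    rw [ev_congr h1, ev_add, ev_add, ev_add, ev_add, ev_add, ev_mul_left, ev_mul_left M (G1 * (d / M)),
      ev_mul_left M (G2 * (d / M)), ev_sub, ev_sub, ev_const hM, ev_const hM, e1, e2, ek]
    ring
  have b1 : -((N : ℝ) * ((g (J + 1) - g J) ^ 2 / 4) / 2 + G1 ^ 2 / N * (1 / 4) / 2)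
      ≤ ev M (fun r => G1 * ((f2 r - G2) * (k r - d / M))) := by
    have h1 : ev M (fun r => (f2 r - G2) ^ 2 * (-(N : ℝ) / 2) + (k r - d / M) ^ 2 * (-(G1 ^ 2 / N) / 2))
        ≤ ev M (fun r => G1 * ((f2 r - G2) * (k r - d / M))) := by
      apply ev_mono
      intro r _
      have h2 : 0 ≤ (N * (f2 r - G2) + G1 * (k r - d / M)) ^ 2 / (2 * N) := by positivity
      have h3 : (N * (f2 r - G2) + G1 * (k r - d / M)) ^ 2 / (2 * N)
          = N / 2 * (f2 r - G2) ^ 2 + G1 * ((f2 r - G2) * (k r - d / M))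
            + (G1 ^ 2 / N) / 2 * (k r - d / M) ^ 2 := by
        field_simp; ring
      rw [h3] at h2
      linarith
    rw [ev_add, ev_mul_right, ev_mul_right] at h1
    have h4 : 0 ≤ G1 ^ 2 / N := by positivity
    nlinarith
  have b2 : -((N : ℝ) * ((g (I + 1) - g I) ^ 2 / 4) / 2 + G2 ^ 2 / N * (1 / 4) / 2)
      ≤ ev M (fun r => G2 * ((f1 r - G1) * (k r - d / M))) := by
    have h1 : ev M (fun r => (f1 r - G1) ^ 2 * (-(N : ℝ) / 2) + (k r - d / M) ^ 2 * (-(G2 ^ 2 / N) / 2))
        ≤ ev M (fun r => G2 * ((f1 r - G1) * (k r - d / M))) := by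
      apply ev_mono
      intro r _
      have h2 : 0 ≤ (N * (f1 r - G1) + G2 * (k r - d / M)) ^ 2 / (2 * N) := by positivity
      have h3 : (N * (f1 r - G1) + G2 * (k r - d / M)) ^ 2 / (2 * N)
          = N / 2 * (f1 r - G1) ^ 2 + G2 * ((f1 r - G1) * (k r - d / M))
            + (G2 ^ 2 / N) / 2 * (k r - d / M) ^ 2 := by
        field_simp; ring
      rw [h3] at h2
      linarith
    rw [ev_add, ev_mul_right, ev_mul_right] at h1
    have h4 : 0 ≤ G2 ^ 2 / N := by positivity
    nlinarith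
  have b3 : -(((I : ℝ) + 1) * ((g (I + 1) - g I) ^ 2 / 4) / 2 + ((J : ℝ) + 1) * ((g (J + 1) - g J) ^ 2 / 4) / 2)
      ≤ ev M (fun r => (f1 r - G1) * (f2 r - G2) * k r) := by
    have h1 : ev M (fun r => (f1 r - G1) ^ 2 * (-((I : ℝ) + 1) / 2) + (f2 r - G2) ^ 2 * (-((J : ℝ) + 1) / 2))
        ≤ ev M (fun r => (f1 r - G1) * (f2 r - G2) * k r) := by
      apply ev_mono
      intro r hr
      have h2 : 0 ≤ (f1 r - G1) ^ 2 * ((I : ℝ) + 1 - k r) :=
        mul_nonneg (sq_nonneg _) (by linarith [hk1 r hr])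
      have h3 : 0 ≤ (f2 r - G2) ^ 2 * ((J : ℝ) + 1 - k r) :=
        mul_nonneg (sq_nonneg _) (by linarith [hk2 r hr])
      have h4 : 0 ≤ ((f1 r - G1) + (f2 r - G2)) ^ 2 * k r := mul_nonneg (sq_nonneg _) (hk0 r hr)
      nlinarith
    rw [ev_add, ev_mul_right, ev_mul_right] at h1
    have h5 : (0 : ℝ) ≤ (I : ℝ) + 1 := by positivity
    have h6 : (0 : ℝ) ≤ (J : ℝ) + 1 := by positivity
    nlinarith
  rw [hexp]
  have c1 : G1 ^ 2 / N ≤ max (g I ^ 2) (g (I + 1) ^ 2) / N := by gcongr
  have c2 : G2 ^ 2 / N ≤ max (g J ^ 2) (g (J + 1) ^ 2) / N := by gcongr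
  linarith

/-- the rounding error of a certificate on a cell -/
noncomputable def sErr {ι κ : Type*} [Fintype ι] [Fintype κ] (N m : ℕ) (q : ι → ℕ → ℝ) (g : κ → ℕ → ℝ)
    (I : ℕ) : ℝ :=
  (∑ l, (q l (I + 1) - q l I) ^ 2) / 8
    + (∑ l, (max (g l I ^ 2) (g l (I + 1) ^ 2) / N + (N + (I : ℝ) + 1) * (g l (I + 1) - g l I) ^ 2
      + (((I + 1 : ℕ) : ℝ) * g l (I + 1) - (I : ℝ) * g l I) ^ 2 / m)) / 8

theorem f_round {ι κ : Type*} [Fintype ι] [Fintype κ] {N M m a b c d : ℕ} (hN : 16 ≤ N) (hM : 0 < M)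
    (hm : 0 < m) (hs : a + d + b + c = m * M) (ell : ℕ → ℝ) (q : ι → ℕ → ℝ) (g : κ → ℕ → ℝ)
    (hV : ∀ x t y z : ℕ, x + t + y + z = m →
      ell (x + t) + ell (t + y) + ∑ l, q l (x + t) * q l (t + y)
        + ∑ l, (g l (x + t) * g l (t + y) * (t : ℝ)
          - ((x + t : ℕ) * g l (x + t)) * ((t + y : ℕ) * g l (t + y)) / m) ≤ Kv N x y z) :
    bar M ell (a + d) + bar M ell (d + b) + ∑ l, bar M (q l) (a + d) * bar M (q l) (d + b)
      + ∑ l, (bar M (g l) (a + d) * bar M (g l) (d + b) * ((d : ℝ) / M)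
        - bar M (fun i => (i : ℝ) * g l i) (a + d) * bar M (fun i => (i : ℝ) * g l i) (d + b) / m)
      - sErr N m q g (cell M m (a + d)) - sErr N m q g (cell M m (d + b))
      ≤ max 0 ((N : ℝ) - a / M) * max 0 ((N : ℝ) - b / M) * exp (-((c : ℝ) / M) / N) := by
  have hA : a + d ≤ m * M := by omega
  have hB : d + b ≤ m * M := by omega
  have hm0 : (0 : ℝ) < m := by exact_mod_cast hm
  refine le_trans ?_ (k_round hN hM hs)
  -- the vertex inequality at each shift
  have hv : ∀ r < M, ell ((a + d + r) / M) + ell ((a + d + b + r) / M - (a + r) / M)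
      + ∑ l, q l ((a + d + r) / M) * q l ((a + d + b + r) / M - (a + r) / M)
      + ∑ l, (g l ((a + d + r) / M) * g l ((a + d + b + r) / M - (a + r) / M)
          * (((a + d + r) / M - (a + r) / M : ℕ) : ℝ)
        - ((((a + d + r) / M : ℕ) : ℝ) * g l ((a + d + r) / M))
          * (((((a + d + b + r) / M - (a + r) / M : ℕ)) : ℝ) * g l ((a + d + b + r) / M - (a + r) / M)) / m)
      ≤ Kv N ((a + r) / M) ((a + d + b + r) / M - (a + d + r) / M) (m - (a + d + b + r) / M) := by
    intro r hr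
    have h1 : (a + r) / M ≤ (a + d + r) / M := Nat.div_le_div_right (by omega)
    have h2 : (a + d + r) / M ≤ (a + d + b + r) / M := Nat.div_le_div_right (by omega)
    have h3 : (a + d + b + r) / M ≤ m := fl_le_m hM (by omega) hr
    have h4 := hV ((a + r) / M) ((a + d + r) / M - (a + r) / M)
      ((a + d + b + r) / M - (a + d + r) / M) (m - (a + d + b + r) / M) (by
        generalize (a + r) / M = p at *
        generalize (a + d + r) / M = p' at *
        generalize (a + d + b + r) / M = p'' at *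
        omega)
    have h5 : (a + r) / M + ((a + d + r) / M - (a + r) / M) = (a + d + r) / M := by
      generalize (a + r) / M = p at *
      generalize (a + d + r) / M = p' at *
      omega
    have h6 : (a + d + r) / M - (a + r) / M + ((a + d + b + r) / M - (a + d + r) / M)
        = (a + d + b + r) / M - (a + r) / M := by
      generalize (a + r) / M = p at *
      generalize (a + d + r) / M = p' at *
      generalize (a + d + b + r) / M = p'' at *
      omega
    rw [h5, h6] at h4
    exact h4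
  refine le_trans ?_ (ev_mono hv)
  rw [ev_add, ev_add, ev_add, ev_sum, ev_sum, beta_bar hM ell]
  have eL : ev M (fun r => ell ((a + d + r) / M)) = bar M ell (a + d) := rfl
  rw [eL]
  have hq : ∀ l, bar M (q l) (a + d) * bar M (q l) (d + b)
      - ((q l (cell M m (a + d) + 1) - q l (cell M m (a + d))) ^ 2) / 8
      - ((q l (cell M m (d + b) + 1) - q l (cell M m (d + b))) ^ 2) / 8
      ≤ ev M (fun r => q l ((a + d + r) / M) * q l ((a + d + b + r) / M - (a + r) / M)) := by
    intro l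
    have := (abs_le.1 (q_round hM hm hA hB (q l))).1
    linarith
  have hg : ∀ l, bar M (g l) (a + d) * bar M (g l) (d + b) * ((d : ℝ) / M)
        - bar M (fun i => (i : ℝ) * g l i) (a + d) * bar M (fun i => (i : ℝ) * g l i) (d + b) / m
      - (max (g l (cell M m (a + d)) ^ 2) (g l (cell M m (a + d) + 1) ^ 2) / N
        + (N + (cell M m (a + d) : ℝ) + 1) * (g l (cell M m (a + d) + 1) - g l (cell M m (a + d))) ^ 2
        + (((cell M m (a + d) + 1 : ℕ) : ℝ) * g l (cell M m (a + d) + 1)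
            - (cell M m (a + d) : ℝ) * g l (cell M m (a + d))) ^ 2 / m) / 8
      - (max (g l (cell M m (d + b)) ^ 2) (g l (cell M m (d + b) + 1) ^ 2) / N
        + (N + (cell M m (d + b) : ℝ) + 1) * (g l (cell M m (d + b) + 1) - g l (cell M m (d + b))) ^ 2
        + (((cell M m (d + b) + 1 : ℕ) : ℝ) * g l (cell M m (d + b) + 1)
            - (cell M m (d + b) : ℝ) * g l (cell M m (d + b))) ^ 2 / m) / 8
      ≤ ev M (fun r => g l ((a + d + r) / M) * g l ((a + d + b + r) / M - (a + r) / M)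
          * (((a + d + r) / M - (a + r) / M : ℕ) : ℝ)
        - ((((a + d + r) / M : ℕ) : ℝ) * g l ((a + d + r) / M))
          * (((((a + d + b + r) / M - (a + r) / M : ℕ)) : ℝ) * g l ((a + d + b + r) / M - (a + r) / M)) / m) := by
    intro l
    have h1 := d_round (N := N) (by omega) hM hm hA hB (g l)
    have h2 := (abs_le.1 (q_round hM hm hA hB (fun i => (i : ℝ) * g l i))).2
    rw [ev_sub]
    have h3 : ev M (fun r => ((((a + d + r) / M : ℕ) : ℝ) * g l ((a + d + r) / M))
          * (((((a + d + b + r) / M - (a + r) / M : ℕ)) : ℝ) * g l ((a + d + b + r) / M - (a + r) / M)) / m)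
        = ev M (fun r => ((((a + d + r) / M : ℕ) : ℝ) * g l ((a + d + r) / M))
          * (((((a + d + b + r) / M - (a + r) / M : ℕ)) : ℝ) * g l ((a + d + b + r) / M - (a + r) / M))) / m := by
      rw [div_eq_mul_inv, ← ev_mul_right]
      apply ev_congr; intro r _; rw [div_eq_mul_inv]
    rw [h3]
    have h4 : ev M (fun r => ((((a + d + r) / M : ℕ) : ℝ) * g l ((a + d + r) / M))
          * (((((a + d + b + r) / M - (a + r) / M : ℕ)) : ℝ) * g l ((a + d + b + r) / M - (a + r) / M))) / m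
        ≤ (bar M (fun i => (i : ℝ) * g l i) (a + d) * bar M (fun i => (i : ℝ) * g l i) (d + b)
          + ((((cell M m (a + d) + 1 : ℕ) : ℝ) * g l (cell M m (a + d) + 1)
            - (cell M m (a + d) : ℝ) * g l (cell M m (a + d))) ^ 2
          + (((cell M m (d + b) + 1 : ℕ) : ℝ) * g l (cell M m (d + b) + 1)
            - (cell M m (d + b) : ℝ) * g l (cell M m (d + b))) ^ 2) / 8) / m := by
      apply div_le_div_of_nonneg_right _ hm0.le
      linarith
    have h5 : (bar M (fun i => (i : ℝ) * g l i) (a + d) * bar M (fun i => (i : ℝ) * g l i) (d + b)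
          + ((((cell M m (a + d) + 1 : ℕ) : ℝ) * g l (cell M m (a + d) + 1)
            - (cell M m (a + d) : ℝ) * g l (cell M m (a + d))) ^ 2
          + (((cell M m (d + b) + 1 : ℕ) : ℝ) * g l (cell M m (d + b) + 1)
            - (cell M m (d + b) : ℝ) * g l (cell M m (d + b))) ^ 2) / 8) / m
        = bar M (fun i => (i : ℝ) * g l i) (a + d) * bar M (fun i => (i : ℝ) * g l i) (d + b) / m
          + (((cell M m (a + d) + 1 : ℕ) : ℝ) * g l (cell M m (a + d) + 1)
            - (cell M m (a + d) : ℝ) * g l (cell M m (a + d))) ^ 2 / m / 8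
          + (((cell M m (d + b) + 1 : ℕ) : ℝ) * g l (cell M m (d + b) + 1)
            - (cell M m (d + b) : ℝ) * g l (cell M m (d + b))) ^ 2 / m / 8 := by
      field_simp
      ring
    linarith
  have hqs := sum_le_sum fun l (_ : l ∈ (univ : Finset ι)) => hq l
  have hgs := sum_le_sum fun l (_ : l ∈ (univ : Finset κ)) => hg l
  unfold sErr
  simp only [sum_sub_distrib, ← sum_div] at hqs hgs ⊢
  linarith

end Run7.h391
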