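import Pool.Agent.Run7.h391.Core4

/-!
A lower bound for the number of permutations avoiding the pairs of two words, in terms of the number of
periods at which the two labels are heavy (used often).
-/

namespace Run7.h391

open Finset

variable {n : ℕ}

/-- switching -/
theorem hv_mul_le (e : Fin n × Fin n) (G : Finset (Fin n × Fin n)) {r c : ℕ}
    (hr : (G.filter fun f => f.1 = e.1).card ≤ r) (hc : (G.filter fun f => f.2 = e.2).card ≤ c) :
    (n - r - c) * hv e G ≤ av G := by
  classical
  by_cases he : e ∈ G
  · have : hv e G = 0 := by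
      unfold hv
      rw [card_eq_zero, filter_eq_empty_iff]
      rintro π - ⟨h1, h2⟩
      exact h2 e he h1
    rw [this]; simp
  set HV := univ.filter fun π : Equiv.Perm (Fin n) => π e.1 = e.2 ∧ Avoids π G with hHV
  let good : Equiv.Perm (Fin n) → Finset (Fin n) := fun π =>
    univ.filter fun i => (e.1, π i) ∉ G ∧ (i, e.2) ∉ G
  have hgood : ∀ π ∈ HV, n - r - c ≤ (good π).card := by
    intro π _
    have h1 : (univ.filter fun i => (e.1, π i) ∈ G).card ≤ r := by
      refine le_trans ?_ hr
      refine card_le_card_of_injOn (fun i => (e.1, π i)) ?_ ?_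
      · intro i hi
        rw [mem_coe, mem_filter] at hi ⊢
        exact ⟨hi.2, rfl⟩
      · intro i _ j _ h
        exact π.injective (Prod.mk.inj h).2
    have h2 : (univ.filter fun i => (i, e.2) ∈ G).card ≤ c := by
      refine le_trans ?_ hc
      refine card_le_card_of_injOn (fun i => (i, e.2)) ?_ ?_
      · intro i hi
        rw [mem_coe, mem_filter] at hi ⊢
        exact ⟨hi.2, rfl⟩
      · intro i _ j _ h
        exact (Prod.mk.inj h).1
    have h3 : (univ : Finset (Fin n)) ⊆ good π ∪ ((univ.filter fun i => (e.1, π i) ∈ G)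
        ∪ (univ.filter fun i => (i, e.2) ∈ G)) := by
      intro i _
      simp only [good, mem_union, mem_filter, mem_univ, true_and]
      tauto
    have h4 := card_le_card h3
    have h5 := card_union_le (good π) ((univ.filter fun i => (e.1, π i) ∈ G)
        ∪ (univ.filter fun i => (i, e.2) ∈ G))
    have h6 := card_union_le (univ.filter fun i => (e.1, π i) ∈ G) (univ.filter fun i => (i, e.2) ∈ G)
    rw [card_univ, Fintype.card_fin] at h4
    omega
  have hcard : (n - r - c) * hv e G ≤ (HV.sigma good).card := by
    rw [card_sigma]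
    unfold hv
    rw [mul_comm, ← smul_eq_mul]
    exact card_nsmul_le_sum _ _ _ hgood
  refine hcard.trans ?_
  unfold av
  refine card_le_card_of_injOn (fun q => q.1 * Equiv.swap e.1 q.2) ?_ ?_
  · rintro ⟨π, i⟩ h
    rw [mem_coe, mem_sigma] at h
    obtain ⟨hπ, hi⟩ := h
    simp only [hHV, good, mem_filter, mem_univ, true_and] at hπ hi
    obtain ⟨h1, h2⟩ := hπ
    rw [mem_coe, mem_filter]
    refine ⟨mem_univ _, ?_⟩
    intro f hf
    rw [Equiv.Perm.mul_apply]
    by_cases hf1 : f.1 = e.1
    · rw [hf1, Equiv.swap_apply_left]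
      intro h
      apply hi.1
      rw [h, ← hf1]; exact hf
    · by_cases hf2 : f.1 = i
      · rw [hf2, Equiv.swap_apply_right, h1]
        intro h
        apply hi.2
        rw [h, ← hf2]; exact hf
      · rw [Equiv.swap_apply_of_ne_of_ne hf1 hf2]
        exact h2 f hf
  · rintro ⟨π, i⟩ h ⟨π', i'⟩ h' heq
    rw [mem_coe, mem_sigma] at h h'
    have h1 : π e.1 = e.2 := by
      have := h.1; simp only [hHV, mem_filter, mem_univ, true_and] at this; exact this.1
    have h1' : π' e.1 = e.2 := by
      have := h'.1; simp only [hHV, mem_filter, mem_univ, true_and] at this; exact this.1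
    simp only at heq
    have h2 : (π * Equiv.swap e.1 i) i = e.2 := by
      rw [Equiv.Perm.mul_apply, Equiv.swap_apply_right, h1]
    have h3 : (π' * Equiv.swap e.1 i') i' = e.2 := by
      rw [Equiv.Perm.mul_apply, Equiv.swap_apply_right, h1']
    have hi : i = i' := by
      apply (π * Equiv.swap e.1 i).injective
      rw [h2, heq, h3]
    subst hi
    have hπ : π = π' := mul_right_cancel heq
    subst hπ
    rfl

/-- all permutations avoid nothing -/
theorem av_empty : av (∅ : Finset (Fin n × Fin n)) = n.factorial := by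
  unfold av Avoids
  simp [Fintype.card_perm]

theorem av_mono {G H : Finset (Fin n × Fin n)} (h : G ⊆ H) : av H ≤ av G := by
  unfold av
  apply card_le_card
  intro π hπ
  rw [mem_filter] at hπ ⊢
  exact ⟨mem_univ _, fun e he => hπ.2 e (h he)⟩

theorem av_le_union (G E : Finset (Fin n × Fin n)) : av G ≤ av (G ∪ E) + ∑ e ∈ E, hv e G := by
  classical
  have h1 : (univ.filter fun π : Equiv.Perm (Fin n) => Avoids π G) ⊆
      (univ.filter fun π : Equiv.Perm (Fin n) => Avoids π (G ∪ E)) ∪
        E.biUnion fun e => univ.filter fun π : Equiv.Perm (Fin n) => π e.1 = e.2 ∧ Avoids π G := by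
    intro π hπ
    rw [mem_filter] at hπ
    by_cases h : Avoids π (G ∪ E)
    · rw [mem_union]; left; rw [mem_filter]; exact ⟨mem_univ _, h⟩
    · rw [mem_union]; right
      unfold Avoids at h
      push Not at h
      obtain ⟨e, he, hπe⟩ := h
      rw [mem_biUnion]
      rw [mem_union] at he
      rcases he with he | he
      · exact absurd hπe (hπ.2 e he)
      · refine ⟨e, he, ?_⟩
        rw [mem_filter]
        exact ⟨mem_univ _, hπe, hπ.2⟩
  have h2 := card_le_card h1
  have h3 := card_union_le (univ.filter fun π : Equiv.Perm (Fin n) => Avoids π (G ∪ E))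
    (E.biUnion fun e => univ.filter fun π : Equiv.Perm (Fin n) => π e.1 = e.2 ∧ Avoids π G)
  have h4 : (E.biUnion fun e => univ.filter fun π : Equiv.Perm (Fin n) => π e.1 = e.2 ∧ Avoids π G).card
      ≤ ∑ e ∈ E, hv e G := by
    refine card_biUnion_le.trans ?_
    rfl
  unfold av
  omega

/-- adding pairs each of which is hit with probability at most `1 / D` -/
theorem av_union_ge {G E : Finset (Fin n × Fin n)} {D : ℝ} (hD : 0 < D)
    (h : ∀ e ∈ E, D * hv e G ≤ av G) : (av G : ℝ) * (1 - E.card / D) ≤ av (G ∪ E) := by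
  have h1 : (av G : ℝ) ≤ av (G ∪ E) + ∑ e ∈ E, (hv e G : ℝ) := by
    exact_mod_cast av_le_union G E
  have h2 : ∑ e ∈ E, (hv e G : ℝ) ≤ E.card * (av G / D) := by
    rw [← nsmul_eq_mul]
    apply sum_le_card_nsmul
    intro e he
    rw [le_div_iff₀ hD, mul_comm]
    exact h e he
  have h3 : (av G : ℝ) * (1 - E.card / D) = av G - E.card * (av G / D) := by
    field_simp
  rw [h3]; linarith

/-- adding pairs of small degree one after the other -/
theorem av_light_ge {F : Finset (Fin n × Fin n)} {D : ℕ} (hD : 0 < D)
    {E : Finset (Fin n × Fin n)} : ∀ {G : Finset (Fin n × Fin n)},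
    (∀ e ∈ E, ∀ G' : Finset (Fin n × Fin n), G' ⊆ F → D * hv e G' ≤ av G') → G ∪ E ⊆ F →
    (av G : ℝ) * (1 - 1 / D) ^ E.card ≤ av (G ∪ E) := by
  classical
  have hD' : (0 : ℝ) < D := by exact_mod_cast hD
  have hD1 : (0 : ℝ) ≤ 1 - 1 / D := by
    rw [sub_nonneg, div_le_one hD']
    exact_mod_cast hD
  induction E using Finset.induction_on with
  | empty => intro G _ _; simp
  | insert e E he ih =>
    intro G h hF
    have h1 : (av G : ℝ) * (1 - 1 / D) ≤ av (insert e G) := by
      have h2 := av_insert e G
      have h3 := h e (mem_insert_self _ _) G (subset_union_left.trans hF)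
      have h2' : (av (insert e G) : ℝ) + hv e G = av G := by exact_mod_cast h2
      have h3' : (D : ℝ) * hv e G ≤ av G := by exact_mod_cast h3
      have h4 : (hv e G : ℝ) ≤ av G / D := by
        rw [le_div_iff₀ hD', mul_comm]; exact h3'
      have h5 : (av G : ℝ) * (1 - 1 / D) = av G - av G / D := by field_simp
      rw [h5]; linarith
    have h6 := ih (G := insert e G) (fun e' he' => h e' (mem_insert_of_mem he')) (by
      intro x hx
      apply hF
      simp only [mem_union, mem_insert] at hx ⊢
      tauto)
    rw [card_insert_of_notMem he, pow_succ]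
    have h7 : insert e G ∪ E = G ∪ insert e E := by
      ext x; simp only [mem_union, mem_insert]; tauto
    rw [h7] at h6
    calc (av G : ℝ) * ((1 - 1 / D) ^ E.card * (1 - 1 / D))
        = (av G * (1 - 1 / D)) * (1 - 1 / D) ^ E.card := by ring
      _ ≤ av (insert e G) * (1 - 1 / D) ^ E.card := by gcongr
      _ ≤ _ := h6

end Run7.h391
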