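import Pool.Agent.Run7.h391.Core4

/-!
From words to strategies.
-/

namespace Run7.h391

open Finset MeasureTheory

/-- A schedule: `x t` is the label of the phone that the player picks up in period `t`. -/
abbrev Schedule (n : ℕ) := ℕ → Fin n

/-- The probability that two players who draw their schedules independently from `D` have not met in the
periods `0, …, k - 1`.  The relative labelling `π` is a uniformly random permutation: phone `i` of the
second player is wired to phone `π i` of the first player. -/
noncomputable def missProb {n : ℕ} (D : Measure (Schedule n)) (k : ℕ) : ℝ :=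
  (∑ π : Equiv.Perm (Fin n), (D.prod D).real {p | ∀ t < k, p.1 t ≠ π (p.2 t)}) / n.factorial

variable {n : ℕ}

/-- the first `k` labels -/
def rest (n k : ℕ) (x : Schedule n) : Fin k → Fin n := fun s => x s

theorem measurable_rest (k : ℕ) : Measurable (rest n k) :=
  measurable_pi_lambda _ fun s => measurable_pi_apply (s : ℕ)

/-- the law of the first `k` labels -/
noncomputable def pw (D : Measure (Schedule n)) (k : ℕ) (u : Fin k → Fin n) : ℝ := (D.map (rest n k)).real {u}

theorem pw_nonneg (D : Measure (Schedule n)) (k : ℕ) (u : Fin k → Fin n) : 0 ≤ pw D k u :=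
  measureReal_nonneg

theorem pw_sum (D : Measure (Schedule n)) [IsProbabilityMeasure D] (k : ℕ) : ∑ u, pw D k u = 1 := by
  have : IsProbabilityMeasure (D.map (rest n k)) :=
    Measure.isProbabilityMeasure_map (measurable_rest k).aemeasurable
  unfold pw
  rw [sum_measureReal_singleton]
  simp

theorem prod_real_eq (D : Measure (Schedule n)) [IsProbabilityMeasure D] (k : ℕ)
    (S : Finset ((Fin k → Fin n) × (Fin k → Fin n))) :
    (D.prod D).real {p | (rest n k p.1, rest n k p.2) ∈ S} = ∑ q ∈ S, pw D k q.1 * pw D k q.2 := by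
  have : IsProbabilityMeasure (D.map (rest n k)) :=
    Measure.isProbabilityMeasure_map (measurable_rest k).aemeasurable
  have h1 : (D.prod D).map (Prod.map (rest n k) (rest n k)) = (D.map (rest n k)).prod (D.map (rest n k)) :=
    (Measure.map_prod_map D D (measurable_rest k) (measurable_rest k)).symm
  have h2 : (D.prod D).real {p | (rest n k p.1, rest n k p.2) ∈ S}
      = ((D.map (rest n k)).prod (D.map (rest n k))).real (S : Set _) := by
    rw [← h1, measureReal_def, measureReal_def, Measure.map_apply
      ((measurable_rest k).prodMap (measurable_rest k)) (S.measurableSet)]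
    rfl
  rw [h2, ← sum_measureReal_singleton]
  apply sum_congr rfl
  rintro ⟨u, v⟩ _
  unfold pw
  rw [← Set.singleton_prod_singleton, measureReal_prod_prod]

/-- the pairs of labels -/
def gr {k : ℕ} (u v : Fin k → Fin n) : Fin k → Fin n × Fin n := fun s => (v s, u s)

theorem missProb_eq (D : Measure (Schedule n)) [IsProbabilityMeasure D] (k : ℕ) :
    missProb D k * n.factorial
      = ∑ u : Fin k → Fin n, ∑ v : Fin k → Fin n, pw D k u * pw D k v * av (univ.image (gr u v)) := by
  have hn : (n.factorial : ℝ) ≠ 0 := by exact_mod_cast n.factorial_ne_zero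
  unfold missProb
  rw [div_mul_cancel₀ _ hn]
  have h1 : ∀ π : Equiv.Perm (Fin n), (D.prod D).real {p | ∀ t < k, p.1 t ≠ π (p.2 t)}
      = ∑ u : Fin k → Fin n, ∑ v : Fin k → Fin n,
        if Avoids π (univ.image (gr u v)) then pw D k u * pw D k v else 0 := by
    intro π
    have h2 : {p : Schedule n × Schedule n | ∀ t < k, p.1 t ≠ π (p.2 t)}
        = {p | (rest n k p.1, rest n k p.2) ∈ (univ : Finset ((Fin k → Fin n) × (Fin k → Fin n))).filter
          fun q => Avoids π (univ.image (gr q.1 q.2))} := by
      ext p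
      simp only [Set.mem_ofPred_eq, mem_filter, mem_univ, true_and]
      unfold Avoids gr rest
      simp only [mem_image, mem_univ, true_and, forall_exists_index, forall_apply_eq_imp_iff]
      constructor
      · intro h s; exact (h s.1 s.2).symm
      · intro h t ht; exact (h ⟨t, ht⟩).symm
    rw [h2, prod_real_eq, sum_filter, ← univ_product_univ, sum_product]
  rw [sum_congr rfl fun π _ => h1 π, sum_comm]
  apply sum_congr rfl
  intro u _
  rw [sum_comm]
  apply sum_congr rfl
  intro v _
  unfold av
  rw [← sum_filter, sum_const, nsmul_eq_mul, mul_comm]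

theorem two_term {α γ P : ℝ} (h : 0 < α + γ) :
    α * γ / (α + γ) ≤ α * P ^ 2 + γ * (1 - P) ^ 2 := by
  rw [div_le_iff₀ h]
  nlinarith [sq_nonneg (α * P - γ * (1 - P))]

/-- same label at two times -/
noncomputable def Pst (D : Measure (Schedule n)) (k : ℕ) (s t : Fin k) : ℝ :=
  ∑ u : Fin k → Fin n, pw D k u * (if u s = u t then 1 else 0)

theorem lower_scaled (D : Measure (Schedule n)) [IsProbabilityMeasure D] {k : ℕ} (hk2 : 2 ≤ k) (hk : k ≤ n) :
    (((k : ℝ) - 1) * (n - 1).factorial) * cc n k / ((k - 1) * (n - 1).factorial + cc n k)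
      ≤ missProb D k * n.factorial - n.factorial + k * (n - 1).factorial := by
  set N : ℝ := ((n - 1).factorial : ℝ) with hN
  have hN0 : 0 < N := by rw [hN]; exact_mod_cast Nat.factorial_pos _
  have hk2' : (2 : ℝ) ≤ k := by exact_mod_cast hk2
  set α : ℝ := ((k : ℝ) - 1) * N with hα
  have hα0 : 0 < α := by
    have : (0 : ℝ) < (k : ℝ) - 1 := by linarith
    positivity
  set γ : ℝ := (cc n k : ℝ) with hγ
  have hγ0 : 0 ≤ γ := by positivity
  have hp := pw_sum D k
  have hp0 := pw_nonneg D k
  have hpp : ∑ u : Fin k → Fin n, ∑ v : Fin k → Fin n, pw D k u * pw D k v = 1 := by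
    rw [← sum_mul_sum, hp, one_mul]
  -- the sum of the pair inequalities
  have hsum : ∑ u : Fin k → Fin n, ∑ v : Fin k → Fin n, pw D k u * pw D k v *
      (((univ.filter fun p : Fin k × Fin k => gr u v p.1 = gr u v p.2).card - k : ℝ) * α
        + (univ.filter fun p : Fin k × Fin k => Dj (gr u v p.1) (gr u v p.2)).card * γ)
      ≤ k * (k - 1) * (missProb D k * n.factorial - n.factorial + k * N) := by
    have h1 : ∀ u v : Fin k → Fin n, pw D k u * pw D k v *
      (((univ.filter fun p : Fin k × Fin k => gr u v p.1 = gr u v p.2).card - k : ℝ) * α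
        + (univ.filter fun p : Fin k × Fin k => Dj (gr u v p.1) (gr u v p.2)).card * γ)
        ≤ pw D k u * pw D k v * (k * (k - 1) * (av (univ.image (gr u v)) - n.factorial + k * N)) := by
      intro u v
      exact mul_le_mul_of_nonneg_left (pair_ineq hk2 hk (gr u v)) (mul_nonneg (hp0 u) (hp0 v))
    refine (sum_le_sum fun u _ => sum_le_sum fun v _ => h1 u v).trans (le_of_eq ?_)
    rw [missProb_eq D k]
    have h2 : ∀ u v : Fin k → Fin n, pw D k u * pw D k v * (k * (k - 1) * (av (univ.image (gr u v)) - n.factorial + k * N))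
        = k * (k - 1) * (pw D k u * pw D k v * av (univ.image (gr u v)))
          + k * (k - 1) * (k * N - n.factorial) * (pw D k u * pw D k v) := by
      intro u v; ring
    have h3 : ∀ u : Fin k → Fin n, ∑ v : Fin k → Fin n, (k * (k - 1) * (pw D k u * pw D k v * av (univ.image (gr u v)))
          + k * (k - 1) * (k * N - n.factorial) * (pw D k u * pw D k v))
        = k * (k - 1) * ∑ v : Fin k → Fin n, pw D k u * pw D k v * av (univ.image (gr u v))
          + k * (k - 1) * (k * N - n.factorial) * ∑ v : Fin k → Fin n, pw D k u * pw D k v := by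
      intro u
      rw [sum_add_distrib, mul_sum, mul_sum]
    rw [sum_congr rfl fun u _ => (sum_congr rfl fun v _ => h2 u v).trans (h3 u), sum_add_distrib,
      ← mul_sum, ← mul_sum, hpp]
    ring
  -- expand in `s, t`
  have hT : ∀ u v : Fin k → Fin n, ((univ.filter fun p : Fin k × Fin k => gr u v p.1 = gr u v p.2).card - k : ℝ)
      = ∑ p ∈ (univ : Finset (Fin k × Fin k)).filter (fun p => p.1 ≠ p.2),
        (if u p.1 = u p.2 then 1 else 0) * (if v p.1 = v p.2 then (1 : ℝ) else 0) := by
    intro u v
    have h1 : ((univ.filter fun p : Fin k × Fin k => gr u v p.1 = gr u v p.2).card : ℝ)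
        = ∑ p : Fin k × Fin k, (if u p.1 = u p.2 then 1 else 0) * (if v p.1 = v p.2 then (1 : ℝ) else 0) := by
      rw [card_filter]
      push_cast
      apply sum_congr rfl
      intro p _
      unfold gr
      by_cases h1 : u p.1 = u p.2 <;> by_cases h2 : v p.1 = v p.2 <;> simp [h1, h2]
    rw [h1, ← sum_filter_add_sum_filter_not univ (fun p : Fin k × Fin k => p.1 ≠ p.2)]
    have h2 : ∑ p ∈ (univ : Finset (Fin k × Fin k)).filter (fun p => ¬ p.1 ≠ p.2),
        (if u p.1 = u p.2 then 1 else 0) * (if v p.1 = v p.2 then (1 : ℝ) else 0) = k := by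
      rw [sum_congr rfl (g := fun _ => (1 : ℝ))]
      · rw [sum_const, nsmul_eq_mul, mul_one]
        congr 1
        have : (univ : Finset (Fin k × Fin k)).filter (fun p => ¬ p.1 ≠ p.2) = univ.image fun s : Fin k => (s, s) := by
          ext ⟨s, t⟩
          simp only [mem_filter, mem_univ, true_and, mem_image, Prod.mk.injEq, not_not]
          constructor
          · intro h; exact ⟨s, rfl, h⟩
          · rintro ⟨a, rfl, rfl⟩; rfl
        rw [this, card_image_of_injective _ (fun a b h => (Prod.mk.inj h).1), card_univ, Fintype.card_fin]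
      · intro p hp
        rw [mem_filter] at hp
        have := not_not.1 hp.2
        rw [this]; simp
    rw [h2]; ring
  have hC : ∀ u v : Fin k → Fin n, ((univ.filter fun p : Fin k × Fin k => Dj (gr u v p.1) (gr u v p.2)).card : ℝ)
      = ∑ p ∈ (univ : Finset (Fin k × Fin k)).filter (fun p => p.1 ≠ p.2),
        (1 - (if u p.1 = u p.2 then 1 else 0)) * (1 - (if v p.1 = v p.2 then (1 : ℝ) else 0)) := by
    intro u v
    rw [card_filter, sum_filter]
    push_cast
    apply sum_congr rfl
    intro p _
    unfold gr Dj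
    by_cases h0 : p.1 = p.2
    · rw [h0]; simp
    · by_cases h1 : u p.1 = u p.2 <;> by_cases h2 : v p.1 = v p.2 <;> simp [h0, h1, h2]
  have hexp : ∑ u : Fin k → Fin n, ∑ v : Fin k → Fin n, pw D k u * pw D k v *
      (((univ.filter fun p : Fin k × Fin k => gr u v p.1 = gr u v p.2).card - k : ℝ) * α
        + (univ.filter fun p : Fin k × Fin k => Dj (gr u v p.1) (gr u v p.2)).card * γ)
      = ∑ p ∈ (univ : Finset (Fin k × Fin k)).filter (fun p => p.1 ≠ p.2),
        (α * Pst D k p.1 p.2 ^ 2 + γ * (1 - Pst D k p.1 p.2) ^ 2) := by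
    have h1 : ∀ u v : Fin k → Fin n, pw D k u * pw D k v *
      (((univ.filter fun p : Fin k × Fin k => gr u v p.1 = gr u v p.2).card - k : ℝ) * α
        + (univ.filter fun p : Fin k × Fin k => Dj (gr u v p.1) (gr u v p.2)).card * γ)
        = ∑ p ∈ (univ : Finset (Fin k × Fin k)).filter (fun p => p.1 ≠ p.2),
          (α * ((pw D k u * (if u p.1 = u p.2 then 1 else 0)) * (pw D k v * (if v p.1 = v p.2 then 1 else 0)))
          + γ * ((pw D k u * (1 - (if u p.1 = u p.2 then 1 else 0)))
            * (pw D k v * (1 - (if v p.1 = v p.2 then 1 else 0))))) := by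
      intro u v
      rw [hT, hC, sum_mul, sum_mul, ← sum_add_distrib, mul_sum]
      apply sum_congr rfl
      intro p _
      ring
    simp only [h1]
    have h2 : ∀ u : Fin k → Fin n, ∑ v : Fin k → Fin n, ∑ p ∈ (univ : Finset (Fin k × Fin k)).filter (fun p => p.1 ≠ p.2),
          (α * ((pw D k u * (if u p.1 = u p.2 then 1 else 0)) * (pw D k v * (if v p.1 = v p.2 then 1 else 0)))
          + γ * ((pw D k u * (1 - (if u p.1 = u p.2 then 1 else 0)))
            * (pw D k v * (1 - (if v p.1 = v p.2 then 1 else 0)))))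
        = ∑ p ∈ (univ : Finset (Fin k × Fin k)).filter (fun p => p.1 ≠ p.2), ∑ v : Fin k → Fin n,
          (α * ((pw D k u * (if u p.1 = u p.2 then 1 else 0)) * (pw D k v * (if v p.1 = v p.2 then 1 else 0)))
          + γ * ((pw D k u * (1 - (if u p.1 = u p.2 then 1 else 0)))
            * (pw D k v * (1 - (if v p.1 = v p.2 then 1 else 0))))) := fun u => sum_comm
    rw [sum_congr rfl fun u _ => h2 u, sum_comm]
    apply sum_congr rfl
    intro p _
    have hQ : ∑ u : Fin k → Fin n, pw D k u * (1 - (if u p.1 = u p.2 then (1 : ℝ) else 0)) = 1 - Pst D k p.1 p.2 := by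
      unfold Pst
      rw [sum_congr rfl fun u _ => mul_sub (pw D k u) 1 (if u p.1 = u p.2 then (1 : ℝ) else 0),
        sum_sub_distrib]
      simp only [mul_one]
      rw [hp]
    simp only [sum_add_distrib, ← mul_sum, ← sum_mul, hQ]
    unfold Pst
    ring
  rw [hexp] at hsum
  have hlow : ((univ : Finset (Fin k × Fin k)).filter (fun p => p.1 ≠ p.2)).card * (α * γ / (α + γ))
      ≤ ∑ p ∈ (univ : Finset (Fin k × Fin k)).filter (fun p => p.1 ≠ p.2),
        (α * Pst D k p.1 p.2 ^ 2 + γ * (1 - Pst D k p.1 p.2) ^ 2) := by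
    rw [← nsmul_eq_mul]
    apply card_nsmul_le_sum
    intro p _
    exact two_term (by linarith)
  have hcard : (((univ : Finset (Fin k × Fin k)).filter (fun p => p.1 ≠ p.2)).card : ℝ) = k * (k - 1) := by
    have h1 := card_filter_add_card_filter_not (s := (univ : Finset (Fin k × Fin k))) (fun p => p.1 ≠ p.2)
    have h2 : ((univ : Finset (Fin k × Fin k)).filter (fun p => ¬ p.1 ≠ p.2)).card = k := by
      have : (univ : Finset (Fin k × Fin k)).filter (fun p => ¬ p.1 ≠ p.2) = univ.image fun s : Fin k => (s, s) := by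
        ext ⟨s, t⟩
        simp only [mem_filter, mem_univ, true_and, mem_image, Prod.mk.injEq, not_not]
        constructor
        · intro h; exact ⟨s, rfl, h⟩
        · rintro ⟨a, rfl, rfl⟩; rfl
      rw [this, card_image_of_injective _ (fun a b h => (Prod.mk.inj h).1), card_univ, Fintype.card_fin]
    rw [h2, card_univ, Fintype.card_prod, Fintype.card_fin] at h1
    have h3 : (((univ : Finset (Fin k × Fin k)).filter (fun p => p.1 ≠ p.2)).card : ℝ) + k = k * k := by
      exact_mod_cast h1
    linarith
  rw [hcard] at hlow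
  have hkk : (0 : ℝ) < k * (k - 1) := by nlinarith
  exact le_of_mul_le_mul_left (hlow.trans hsum) hkk

end Run7.h391
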