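import Pool.Agent.Run7.h391.HL
import Pool.Agent.Run7.h391.Prob

/-!
The pair bound.
-/

namespace Run7.h391

open Finset

variable {n K : ℕ}

/-- the heavy labels of a word: those used at least `w` times -/
def heavy (w : ℕ) (u : Fin K → Fin n) : Finset (Fin n) :=
  univ.filter fun i => w ≤ (univ.filter fun s => u s = i).card

/-- the first `T` periods -/
def per (K T : ℕ) : Finset (Fin K) := univ.filter fun s => s.val < T

/-- heavy for the first word only -/
def setA (w T : ℕ) (u v : Fin K → Fin n) : Finset (Fin K) :=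
  (per K T).filter fun s => u s ∈ heavy w u ∧ v s ∉ heavy w v

/-- heavy for the second word only -/
def setB (w T : ℕ) (u v : Fin K → Fin n) : Finset (Fin K) :=
  (per K T).filter fun s => u s ∉ heavy w u ∧ v s ∈ heavy w v

/-- heavy for none -/
def setC (w T : ℕ) (u v : Fin K → Fin n) : Finset (Fin K) :=
  (per K T).filter fun s => u s ∉ heavy w u ∧ v s ∉ heavy w v

/-- heavy for both -/
def setD (w T : ℕ) (u v : Fin K → Fin n) : Finset (Fin K) :=
  (per K T).filter fun s => u s ∈ heavy w u ∧ v s ∈ heavy w v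

theorem card_heavy_mul (w : ℕ) (u : Fin K → Fin n) : (heavy w u).card * w ≤ K := by
  have h1 : (heavy w u).card * w ≤ ∑ i ∈ heavy w u, (univ.filter fun s => u s = i).card := by
    rw [← smul_eq_mul]
    apply card_nsmul_le_sum
    intro i hi
    unfold heavy at hi
    exact (mem_filter.1 hi).2
  have h2 : ∑ i ∈ heavy w u, (univ.filter fun s => u s = i).card
      ≤ ∑ i : Fin n, (univ.filter fun s => u s = i).card :=
    sum_le_sum_of_subset (subset_univ _)
  have h3 : ∑ i : Fin n, (univ.filter fun s => u s = i).card = K := by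
    have := card_eq_sum_card_fiberwise (f := u) (s := (univ : Finset (Fin K))) (t := (univ : Finset (Fin n)))
      (fun _ _ => mem_coe.2 (mem_univ _))
    rw [card_univ, Fintype.card_fin] at this
    exact this.symm
  omega

theorem rowdeg {w : ℕ} {u v : Fin K → Fin n} {S : Finset (Fin K)} {G : Finset (Fin n × Fin n)}
    (hG : G ⊆ S.image (gr u v)) {i : Fin n} (hi : i ∉ heavy w v) :
    (G.filter fun f => f.1 = i).card ≤ w := by
  classical
  have h1 : (G.filter fun f => f.1 = i) ⊆ (univ.filter fun s => v s = i).image (gr u v) := by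
    intro f hf
    rw [mem_filter] at hf
    obtain ⟨s, _, rfl⟩ := mem_image.1 (hG hf.1)
    exact mem_image_of_mem _ (by rw [mem_filter]; exact ⟨mem_univ _, hf.2⟩)
  have h2 := (card_le_card h1).trans card_image_le
  have h3 : ¬ w ≤ (univ.filter fun s => v s = i).card := by
    intro h
    apply hi
    unfold heavy
    rw [mem_filter]; exact ⟨mem_univ _, h⟩
  omega

theorem coldeg {w : ℕ} {u v : Fin K → Fin n} {S : Finset (Fin K)} {G : Finset (Fin n × Fin n)}
    (hG : G ⊆ S.image (gr u v)) {i : Fin n} (hi : i ∉ heavy w u) :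
    (G.filter fun f => f.2 = i).card ≤ w := by
  classical
  have h1 : (G.filter fun f => f.2 = i) ⊆ (univ.filter fun s => u s = i).image (gr u v) := by
    intro f hf
    rw [mem_filter] at hf
    obtain ⟨s, _, rfl⟩ := mem_image.1 (hG hf.1)
    exact mem_image_of_mem _ (by rw [mem_filter]; exact ⟨mem_univ _, hf.2⟩)
  have h2 := (card_le_card h1).trans card_image_le
  have h3 : ¬ w ≤ (univ.filter fun s => u s = i).card := by
    intro h
    apply hi
    unfold heavy
    rw [mem_filter]; exact ⟨mem_univ _, h⟩
  omega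

theorem pair_lower (hn : 0 < n) {w : ℕ} (hw : 2 * w < n) (T : ℕ) (u v : Fin K → Fin n) :
    (n.factorial : ℝ) * (max 0 (1 - ((setA w T u v).card : ℝ) / n) * max 0 (1 - ((setB w T u v).card : ℝ) / n)
      * (1 - 1 / ((n - 2 * w : ℕ) : ℝ)) ^ (setC w T u v).card
      - ((heavy w u).card * (heavy w v).card : ℝ) / n) ≤ av ((per K T).image (gr u v)) := by
  classical
  have hn' : (0 : ℝ) < n := by exact_mod_cast hn
  have hD0 : 0 < n - 2 * w := by omega
  have hDr : (0 : ℝ) < ((n - 2 * w : ℕ) : ℝ) := by exact_mod_cast hD0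
  set Ga := (setA w T u v).image (gr u v) with hGa
  set Gb := (setB w T u v).image (gr u v) with hGb
  set Gc := (setC w T u v).image (gr u v) with hGc
  set Gd := (setD w T u v).image (gr u v) with hGd
  -- hits of one pair
  have hone : ∀ (G : Finset (Fin n × Fin n)) (e : Fin n × Fin n), (n : ℝ) * hv e G ≤ n.factorial := by
    intro G e
    have h1 := hv_mul_le e (∅ : Finset (Fin n × Fin n)) (r := 0) (c := 0) (by simp) (by simp)
    rw [av_empty] at h1
    have h2 : hv e G ≤ hv e ∅ := by
      unfold hv
      apply card_le_card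
      intro π hπ
      rw [mem_filter] at hπ ⊢
      exact ⟨mem_univ _, hπ.2.1, fun f hf => absurd hf (notMem_empty f)⟩
    have h3 : n * hv e G ≤ n.factorial := by
      calc n * hv e G ≤ n * hv e ∅ := Nat.mul_le_mul_left _ h2
        _ = (n - 0 - 0) * hv e ∅ := by simp
        _ ≤ _ := h1
    exact_mod_cast h3
  -- the pairs where the first is heavy
  have hA : (n.factorial : ℝ) * max 0 (1 - ((setA w T u v).card : ℝ) / n) ≤ av Ga := by
    have h1 := av_union_ge (G := (∅ : Finset (Fin n × Fin n))) (E := Ga) hn' (by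
      intro e _; rw [av_empty]; exact hone ∅ e)
    rw [av_empty, empty_union] at h1
    rcases le_total (1 - ((setA w T u v).card : ℝ) / n) 0 with h | h
    · rw [max_eq_left h, mul_zero]; positivity
    · rw [max_eq_right h]
      refine le_trans ?_ h1
      apply mul_le_mul_of_nonneg_left _ (by positivity)
      have : (Ga.card : ℝ) ≤ (setA w T u v).card := by exact_mod_cast card_image_le
      gcongr
  -- add those where the second is heavy
  have hB : (av Ga : ℝ) * max 0 (1 - ((setB w T u v).card : ℝ) / n) ≤ av (Ga ∪ Gb) := by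
    have h1 := av_union_ge (G := Ga) (E := Gb) hn' (by
      intro e he
      obtain ⟨s, hs, rfl⟩ := mem_image.1 he
      unfold setB at hs
      rw [mem_filter] at hs
      have h2 := hv_mul_le (gr u v s) Ga (r := 0) (c := 0) (by
        rw [Nat.le_zero, card_eq_zero, filter_eq_empty_iff]
        intro f hf h
        obtain ⟨s', hs', rfl⟩ := mem_image.1 hf
        unfold setA at hs'
        rw [mem_filter] at hs'
        apply hs'.2.2
        have h' : v s' = v s := h
        rw [h']; exact hs.2.2) (by
        rw [Nat.le_zero, card_eq_zero, filter_eq_empty_iff]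
        intro f hf h
        obtain ⟨s', hs', rfl⟩ := mem_image.1 hf
        unfold setA at hs'
        rw [mem_filter] at hs'
        apply hs.2.1
        have h' : u s' = u s := h
        rw [← h']; exact hs'.2.1)
      rw [Nat.sub_zero, Nat.sub_zero] at h2
      exact_mod_cast h2)
    rcases le_total (1 - ((setB w T u v).card : ℝ) / n) 0 with h | h
    · rw [max_eq_left h, mul_zero]; positivity
    · rw [max_eq_right h]
      refine le_trans ?_ h1
      apply mul_le_mul_of_nonneg_left _ (by positivity)
      have : (Gb.card : ℝ) ≤ (setB w T u v).card := by exact_mod_cast card_image_le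
      gcongr
  -- add the light pairs
  have hC : (av (Ga ∪ Gb) : ℝ) * (1 - 1 / ((n - 2 * w : ℕ) : ℝ)) ^ (setC w T u v).card
      ≤ av (Ga ∪ Gb ∪ Gc) := by
    have hsub : Ga ∪ Gb ∪ Gc ⊆ (per K T).image (gr u v) := by
      refine union_subset (union_subset ?_ ?_) ?_
      · exact image_subset_image (filter_subset _ _)
      · exact image_subset_image (filter_subset _ _)
      · exact image_subset_image (filter_subset _ _)
    have h1 := av_light_ge (F := Ga ∪ Gb ∪ Gc) hD0 (E := Gc) (G := Ga ∪ Gb) (by
      intro e he G' hG'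
      obtain ⟨s, hs, rfl⟩ := mem_image.1 he
      unfold setC at hs
      rw [mem_filter] at hs
      have h2 := hv_mul_le (gr u v s) G' (r := w) (c := w)
        (rowdeg (hG'.trans hsub) hs.2.2) (coldeg (hG'.trans hsub) hs.2.1)
      have h3 : n - w - w = n - 2 * w := by omega
      rwa [h3] at h2) subset_rfl
    refine le_trans ?_ h1
    apply mul_le_mul_of_nonneg_left _ (by positivity)
    apply pow_le_pow_of_le_one
    · rw [sub_nonneg, div_le_one hDr]; exact_mod_cast hD0
    · rw [sub_le_self_iff]; positivity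
    · exact card_image_le
  -- the doubly heavy pairs
  have hD : (av (Ga ∪ Gb ∪ Gc) : ℝ) - (n.factorial : ℝ) * (((heavy w u).card * (heavy w v).card : ℝ) / n)
      ≤ av ((per K T).image (gr u v)) := by
    have h1 : (per K T).image (gr u v) ⊆ Ga ∪ Gb ∪ Gc ∪ Gd := by
      intro f hf
      obtain ⟨s, hs, rfl⟩ := mem_image.1 hf
      simp only [mem_union]
      by_cases hu : u s ∈ heavy w u
      · by_cases hv : v s ∈ heavy w v
        · right; exact mem_image_of_mem _ (by unfold setD; rw [mem_filter]; exact ⟨hs, hu, hv⟩)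
        · left; left; left; exact mem_image_of_mem _ (by unfold setA; rw [mem_filter]; exact ⟨hs, hu, hv⟩)
      · by_cases hv : v s ∈ heavy w v
        · left; left; right; exact mem_image_of_mem _ (by unfold setB; rw [mem_filter]; exact ⟨hs, hu, hv⟩)
        · left; right; exact mem_image_of_mem _ (by unfold setC; rw [mem_filter]; exact ⟨hs, hu, hv⟩)
    have h2 : (av (Ga ∪ Gb ∪ Gc) : ℝ) ≤ av (Ga ∪ Gb ∪ Gc ∪ Gd) + ∑ e ∈ Gd, (hv e (Ga ∪ Gb ∪ Gc) : ℝ) := by
      exact_mod_cast av_le_union (Ga ∪ Gb ∪ Gc) Gd
    have h3 : ∑ e ∈ Gd, (hv e (Ga ∪ Gb ∪ Gc) : ℝ) ≤ Gd.card * (n.factorial / n) := by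
      rw [← nsmul_eq_mul]
      apply sum_le_card_nsmul
      intro e _
      rw [le_div_iff₀ hn', mul_comm]
      exact hone _ e
    have h4 : Gd.card ≤ (heavy w u).card * (heavy w v).card := by
      have : Gd ⊆ (heavy w v) ×ˢ (heavy w u) := by
        intro f hf
        obtain ⟨s, hs, rfl⟩ := mem_image.1 hf
        unfold setD at hs
        rw [mem_filter] at hs
        rw [mem_product]
        exact ⟨hs.2.2, hs.2.1⟩
      have := card_le_card this
      rw [card_product] at this
      rw [mul_comm]; exact this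
    have h4' : (Gd.card : ℝ) ≤ (heavy w u).card * (heavy w v).card := by exact_mod_cast h4
    have h5 : (av (Ga ∪ Gb ∪ Gc ∪ Gd) : ℝ) ≤ av ((per K T).image (gr u v)) := by
      exact_mod_cast av_mono h1
    have h6 : (Gd.card : ℝ) * (n.factorial / n) ≤
        (n.factorial : ℝ) * (((heavy w u).card * (heavy w v).card : ℝ) / n) := by
      have : (n.factorial : ℝ) * (((heavy w u).card * (heavy w v).card : ℝ) / n)
          = ((heavy w u).card * (heavy w v).card : ℝ) * (n.factorial / n) := by ring
      rw [this]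
      gcongr
    linarith
  have hp1 : (0 : ℝ) ≤ max 0 (1 - ((setB w T u v).card : ℝ) / n) := le_max_left _ _
  have hp2 : (0 : ℝ) ≤ (1 - 1 / ((n - 2 * w : ℕ) : ℝ)) ^ (setC w T u v).card := by
    apply pow_nonneg
    rw [sub_nonneg, div_le_one hDr]; exact_mod_cast hD0
  have h1 : (n.factorial : ℝ) * max 0 (1 - ((setA w T u v).card : ℝ) / n)
      * max 0 (1 - ((setB w T u v).card : ℝ) / n)
      * (1 - 1 / ((n - 2 * w : ℕ) : ℝ)) ^ (setC w T u v).card ≤ av (Ga ∪ Gb ∪ Gc) := by
    calc _ ≤ (av Ga : ℝ) * max 0 (1 - ((setB w T u v).card : ℝ) / n)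
        * (1 - 1 / ((n - 2 * w : ℕ) : ℝ)) ^ (setC w T u v).card := by gcongr
      _ ≤ av (Ga ∪ Gb) * (1 - 1 / ((n - 2 * w : ℕ) : ℝ)) ^ (setC w T u v).card := by gcongr
      _ ≤ _ := hC
  rw [mul_sub]
  linarith

end Run7.h391
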