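import Pool.Agent.Run7.h391.Round

/-!
Rounding the avoidance kernel.
-/

namespace Run7.h391

open Finset Real

/-- the kernel at a grid point, less an allowance for rounding -/
noncomputable def Kv (N a b c : ℕ) : ℝ :=
  if a ≤ N ∧ b ≤ N then (((N : ℝ) - a) * ((N : ℝ) - b) - 1) * exp (-(c : ℝ) / N) else 0

theorem exp_small {t : ℝ} (h : |t| ≤ 1 / 16) : exp t ≤ 1 + t + 3 / 5 * t ^ 2 := by
  have h1 : |t| ≤ 1 := h.trans (by norm_num)
  have h2 := Real.exp_bound h1 (n := 3) (by norm_num)
  have h3 := (abs_le.1 h2).2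
  norm_num [Finset.sum_range_succ, Nat.factorial] at h3
  have h4 : |t| ^ 3 ≤ t ^ 2 * (1 / 16) := by
    have : |t| ^ 3 = t ^ 2 * |t| := by rw [← sq_abs t]; ring
    rw [this]
    exact mul_le_mul_of_nonneg_left h (sq_nonneg t)
  nlinarith [sq_nonneg t]

theorem k_round {N M m a b c d : ℕ} (hN : 16 ≤ N) (hM : 0 < M) (hs : a + d + b + c = m * M) :
    ev M (fun r => Kv N ((a + r) / M) ((a + d + b + r) / M - (a + d + r) / M) (m - (a + d + b + r) / M))
      ≤ max 0 ((N : ℝ) - a / M) * max 0 ((N : ℝ) - b / M) * exp (-((c : ℝ) / M) / N) := by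
  have hN0 : (0 : ℝ) < N := by exact_mod_cast (by omega : 0 < N)
  have hN16 : (16 : ℝ) ≤ N := by exact_mod_cast hN
  have hM0 : (0 : ℝ) < M := by exact_mod_cast hM
  have hcr : ∀ r < M, m - (a + d + b + r) / M = (a + d + b + c + r) / M - (a + d + b + r) / M := by
    intro r hr
    have : (a + d + b + c + r) / M = m := by
      rw [hs, mul_comm, Nat.mul_add_div hM, Nat.div_eq_of_lt hr, add_zero]
    rw [this]
  by_cases hcase : a / M < N ∧ b / M < N
  · obtain ⟨ha, hb⟩ := hcase
    have har : ∀ r < M, (a + r) / M ≤ N := by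
      intro r hr
      rcases fl_two hM a hr with h | h <;> omega
    have hbr' : ∀ r < M, (a + d + b + r) / M - (a + d + r) / M = b / M ∨
        (a + d + b + r) / M - (a + d + r) / M = b / M + 1 := by
      intro r _
      rw [fl_sub hM (a + d) b r]
      exact fl_two hM b (Nat.mod_lt _ hM)
    have hbr : ∀ r < M, (a + d + b + r) / M - (a + d + r) / M ≤ N := by
      intro r hr
      rcases hbr' r hr with h | h <;> omega
    have hcr' : ∀ r < M, m - (a + d + b + r) / M = c / M ∨ m - (a + d + b + r) / M = c / M + 1 := by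
      intro r hr
      rw [hcr r hr, fl_sub hM (a + d + b) c r]
      exact fl_two hM c (Nat.mod_lt _ hM)
    set f : ℕ → ℝ := fun r => (N : ℝ) - (((a + r) / M : ℕ) : ℝ) with hf
    set g : ℕ → ℝ := fun r => (N : ℝ) - (((a + d + b + r) / M - (a + d + r) / M : ℕ) : ℝ) with hg
    set h : ℕ → ℝ := fun r => exp (-((m - (a + d + b + r) / M : ℕ) : ℝ) / N) with hh
    -- the averages
    have hX : ev M f = N - a / M := by
      rw [hf, ev_sub, ev_const hM]
      congr 1
      exact bar_id hM a
    have hY : ev M g = N - b / M := by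
      rw [hg, ev_sub, ev_const hM]
      congr 1
      rw [← bar_id hM b]
      exact ev_fl_sub hM (fun i => (i : ℝ)) (a + d) b
    have hcbar : ev M (fun r => ((m - (a + d + b + r) / M : ℕ) : ℝ)) = c / M := by
      rw [← bar_id hM c, ← ev_fl_sub hM (fun i => (i : ℝ)) (a + d + b) c]
      apply ev_congr
      intro r hr
      simp only [hcr r hr]
    have hf0 : ∀ r < M, 0 ≤ f r := by
      intro r hr
      have : (((a + r) / M : ℕ) : ℝ) ≤ N := by exact_mod_cast har r hr
      simp only [hf]; linarith
    have hg0 : ∀ r < M, 0 ≤ g r := by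
      intro r hr
      have : (((a + d + b + r) / M - (a + d + r) / M : ℕ) : ℝ) ≤ N := by exact_mod_cast hbr r hr
      simp only [hg]; linarith
    have hX0 : 0 ≤ (N : ℝ) - a / M := by rw [← hX]; exact ev_nonneg hf0
    have hY0 : 0 ≤ (N : ℝ) - b / M := by rw [← hY]; exact ev_nonneg hg0
    have hXN : (N : ℝ) - a / M ≤ N := by
      have : (0 : ℝ) ≤ a / M := by positivity
      linarith
    have hYN : (N : ℝ) - b / M ≤ N := by
      have : (0 : ℝ) ≤ b / M := by positivity
      linarith
    rw [max_eq_right hX0, max_eq_right hY0]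
    set X : ℝ := (N : ℝ) - a / M with hXd
    set Y : ℝ := (N : ℝ) - b / M with hYd
    set W0 : ℝ := exp (-((c / M : ℕ) : ℝ) / N) with hW0
    have hW0p : 0 < W0 := exp_pos _
    set w1 : ℝ := exp (-(1 : ℝ) / N) with hw1
    have hw1l : 1 - 1 / (N : ℝ) ≤ w1 := by
      have := add_one_le_exp (-(1 : ℝ) / N)
      rw [neg_div] at this
      rw [hw1, neg_div]; linarith
    have hw1u : w1 ≤ 1 := by
      rw [hw1, exp_le_one_iff, neg_div]
      have : (0 : ℝ) < 1 / N := by positivity
      linarith
    have hh2 : ∀ r < M, h r = W0 ∨ h r = W0 + W0 * (w1 - 1) := by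
      intro r hr
      rcases hcr' r hr with h1 | h1
      · left; simp only [hh, h1, hW0]
      · right
        simp only [hh, h1, hW0, hw1]
        rw [← sub_eq_zero]
        have : exp (-((c / M + 1 : ℕ) : ℝ) / N) = exp (-((c / M : ℕ) : ℝ) / N) * exp (-(1 : ℝ) / N) := by
          rw [← exp_add]; congr 1; push_cast; ring
        rw [this]; ring
    have hf2 : ∀ r < M, f r = ((N : ℝ) - (a / M : ℕ)) ∨ f r = ((N : ℝ) - (a / M : ℕ)) + (-1) := by
      intro r hr
      rcases fl_two hM a hr with h1 | h1
      · left; simp only [hf, h1]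
      · right; simp only [hf, h1]; push_cast; ring
    have hg2 : ∀ r < M, g r = ((N : ℝ) - (b / M : ℕ)) ∨ g r = ((N : ℝ) - (b / M : ℕ)) + (-1) := by
      intro r hr
      rcases hbr' r hr with h1 | h1
      · left; simp only [hg, h1]
      · right; simp only [hg, h1]; push_cast; ring
    have hhW : ∀ r < M, 0 ≤ h r ∧ h r ≤ W0 ∧ W0 * (1 - 1 / N) ≤ h r := by
      intro r hr
      refine ⟨(exp_pos _).le, ?_, ?_⟩
      · rcases hh2 r hr with h1 | h1 <;> rw [h1]
        nlinarith
      · rcases hh2 r hr with h1 | h1 <;> rw [h1]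
        · have : (0 : ℝ) < 1 / N := by positivity
          nlinarith
        · nlinarith
    set W : ℝ := ev M h with hW
    have hWl : W0 * (1 - 1 / N) ≤ W := by
      rw [hW, ← ev_const hM (W0 * (1 - 1 / N))]
      exact ev_mono fun r hr => (hhW r hr).2.2
    -- covariances with `h`
    have hcov : ∀ (f : ℕ → ℝ) (p : ℝ), (∀ r < M, f r = p ∨ f r = p + (-1)) →
        ev M (fun r => f r * h r) - ev M f * W ≤ W0 / N / 4 := by
      intro f p hfp
      have hl : (0 : ℝ) < W0 / N := by positivity
      have h1 := ev_cov (M := M) hM (f := fun r => W0 / N * f r) (g := h) (p := W0 / N * p)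
        (δ := W0 / N * (-1)) (p' := W0) (δ' := W0 * (w1 - 1)) (by
          intro r hr
          rcases hfp r hr with h1 | h1
          · left; rw [h1]
          · right; rw [h1]; ring) hh2
      have h2 := (abs_le.1 h1).2
      have h3 : ev M (fun r => W0 / N * f r * h r) = W0 / N * ev M (fun r => f r * h r) := by
        rw [← ev_mul_left]
        apply ev_congr; intro r _; ring
      rw [h3, ev_mul_left, ← hW] at h2
      have h4 : (W0 * (w1 - 1)) ^ 2 ≤ (W0 / N) ^ 2 := by
        have h5 : (w1 - 1) ^ 2 ≤ (1 / (N : ℝ)) ^ 2 := by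
          have : |w1 - 1| ≤ |1 / (N : ℝ)| := by
            rw [abs_of_nonpos (by linarith), abs_of_nonneg (by positivity)]
            linarith
          exact sq_le_sq.2 this
        calc (W0 * (w1 - 1)) ^ 2 = W0 ^ 2 * (w1 - 1) ^ 2 := by ring
          _ ≤ W0 ^ 2 * (1 / (N : ℝ)) ^ 2 := by gcongr
          _ = (W0 / N) ^ 2 := by ring
      have h6 : (W0 / N) * (ev M (fun r => f r * h r) - ev M f * W) ≤ (W0 / N) * (W0 / N / 4) := by
        nlinarith
      exact le_of_mul_le_mul_left h6 hl
    have hcf := hcov f _ hf2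
    have hcg := hcov g _ hg2
    rw [hX] at hcf
    rw [hY] at hcg
    -- triple term
    have hvf := ev_var hM hf2
    have hvg := ev_var hM hg2
    rw [hX] at hvf
    rw [hY] at hvg
    have htrip : ev M (fun r => (f r - X) * (g r - Y) * h r) ≤ W0 / 4 := by
      have h1 : ev M (fun r => (f r - X) * (g r - Y) * h r)
          ≤ ev M (fun r => (f r - X) ^ 2 * (W0 / 2) + (g r - Y) ^ 2 * (W0 / 2)) := by
        apply ev_mono
        intro r hr
        obtain ⟨h2, h3, -⟩ := hhW r hr
        have h4 : (f r - X) * (g r - Y) ≤ ((f r - X) ^ 2 + (g r - Y) ^ 2) / 2 := by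
          nlinarith [sq_nonneg ((f r - X) - (g r - Y))]
        calc (f r - X) * (g r - Y) * h r ≤ ((f r - X) ^ 2 + (g r - Y) ^ 2) / 2 * h r := by gcongr
          _ ≤ ((f r - X) ^ 2 + (g r - Y) ^ 2) / 2 * W0 := by gcongr
          _ = _ := by ring
      rw [ev_add, ev_mul_right, ev_mul_right] at h1
      nlinarith
    have hexp : ev M (fun r => f r * g r * h r) = X * Y * W + X * (ev M (fun r => g r * h r) - Y * W)
        + Y * (ev M (fun r => f r * h r) - X * W) + ev M (fun r => (f r - X) * (g r - Y) * h r) := by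
      have h1 : ∀ r < M, (f r - X) * (g r - Y) * h r
          = f r * g r * h r - X * (g r * h r) - Y * (f r * h r) + X * Y * h r := by
        intro r _; ring
      rw [ev_congr h1, ev_add, ev_sub, ev_sub, ev_mul_left, ev_mul_left, ev_mul_left]
      ring
    -- the average of `h`
    have hWr : W ≤ exp (-((c : ℝ) / M) / N) * (1 + 3 / 20 / N ^ 2) := by
      set t : ℕ → ℝ := fun r => ((c : ℝ) / M - ((m - (a + d + b + r) / M : ℕ) : ℝ)) / N with ht
      have hct : ∀ r < M, |((c : ℝ) / M - ((m - (a + d + b + r) / M : ℕ) : ℝ))| ≤ 1 := by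
        intro r hr
        have h1 : (((c / M : ℕ) : ℝ)) ≤ c / M := by
          rw [le_div_iff₀ hM0]; exact_mod_cast Nat.div_mul_le_self c M
        have h2 : (c : ℝ) / M ≤ ((c / M : ℕ) : ℝ) + 1 := by
          rw [div_le_iff₀ hM0]
          have := Nat.lt_div_mul_add (a := c) hM
          have h3 : c ≤ (c / M + 1) * M := by rw [add_mul]; omega
          exact_mod_cast h3
        rw [abs_le]
        rcases hcr' r hr with h3 | h3 <;> rw [h3] <;> push_cast <;> constructor <;> linarith
      have hth : ∀ r < M, h r ≤ exp (-((c : ℝ) / M) / N) * (1 + t r + 3 / 5 * t r ^ 2) := by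
        intro r hr
        have h1 : h r = exp (-((c : ℝ) / M) / N) * exp (t r) := by
          rw [← exp_add]
          simp only [hh, ht]
          congr 1; field_simp; ring
        rw [h1]
        apply mul_le_mul_of_nonneg_left _ (exp_pos _).le
        apply exp_small
        simp only [ht]
        rw [abs_div, abs_of_pos hN0, div_le_iff₀ hN0]
        have := hct r hr
        linarith
      have h2 : W ≤ ev M (fun r => exp (-((c : ℝ) / M) / N) * (1 + t r + 3 / 5 * t r ^ 2)) := ev_mono hth
      rw [ev_mul_left, ev_add, ev_add, ev_const hM, ev_mul_left] at h2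
      have h3 : ev M t = 0 := by
        have : ev M t = ev M (fun r => ((c : ℝ) / M - ((m - (a + d + b + r) / M : ℕ) : ℝ)) * (1 / N)) := by
          apply ev_congr; intro r _; simp only [ht]; ring
        rw [this, ev_mul_right, ev_sub, ev_const hM, hcbar]; ring
      have h4 : ev M (fun r => t r ^ 2) ≤ 1 / 4 / N ^ 2 := by
        have h5 := ev_var (M := M) hM (f := fun r => ((m - (a + d + b + r) / M : ℕ) : ℝ))
          (p := ((c / M : ℕ) : ℝ)) (δ := 1) (by
            intro r hr
            rcases hcr' r hr with h1 | h1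
            · left; rw [h1]
            · right; rw [h1]; push_cast; ring)
        rw [hcbar] at h5
        have h6 : ev M (fun r => t r ^ 2) = ev M (fun r => (((m - (a + d + b + r) / M : ℕ) : ℝ) - c / M) ^ 2) * (1 / N ^ 2) := by
          rw [← ev_mul_right]
          apply ev_congr; intro r _; simp only [ht]; field_simp; ring
        rw [h6]
        calc _ ≤ (1 : ℝ) ^ 2 / 4 * (1 / N ^ 2) := by gcongr
          _ = _ := by ring
      rw [h3] at h2
      refine h2.trans ?_
      apply mul_le_mul_of_nonneg_left _ (exp_pos _).le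
      have : (3 : ℝ) / 5 * (1 / 4 / N ^ 2) = 3 / 20 / N ^ 2 := by ring
      linarith [mul_le_mul_of_nonneg_left h4 (by norm_num : (0 : ℝ) ≤ 3 / 5)]
    have hWrW0 : exp (-((c : ℝ) / M) / N) ≤ W0 := by
      rw [hW0, exp_le_exp]
      have h1 : (((c / M : ℕ) : ℝ)) ≤ c / M := by
        rw [le_div_iff₀ hM0]; exact_mod_cast Nat.div_mul_le_self c M
      gcongr
    set Wr : ℝ := exp (-((c : ℝ) / M) / N) with hWrd
    have hWrp : 0 < Wr := exp_pos _
    -- assemble
    have hLHS : ev M (fun r => Kv N ((a + r) / M) ((a + d + b + r) / M - (a + d + r) / M) (m - (a + d + b + r) / M))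
        = ev M (fun r => f r * g r * h r) - W := by
      rw [hW, ← ev_sub]
      apply ev_congr
      intro r hr
      unfold Kv
      rw [if_pos ⟨har r hr, hbr r hr⟩]
      simp only [hf, hg, hh]
      ring
    rw [hLHS, hexp]
    have e1 : X * (ev M (fun r => g r * h r) - Y * W) ≤ N * (W0 / N / 4) := by
      have h0 : (0 : ℝ) ≤ W0 / N / 4 := by positivity
      calc _ ≤ X * (W0 / N / 4) := mul_le_mul_of_nonneg_left hcg hX0
        _ ≤ N * (W0 / N / 4) := mul_le_mul_of_nonneg_right hXN h0
    have e2 : Y * (ev M (fun r => f r * h r) - X * W) ≤ N * (W0 / N / 4) := by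
      have h0 : (0 : ℝ) ≤ W0 / N / 4 := by positivity
      calc _ ≤ Y * (W0 / N / 4) := mul_le_mul_of_nonneg_left hcf hY0
        _ ≤ N * (W0 / N / 4) := mul_le_mul_of_nonneg_right hYN h0
    have e3 : (N : ℝ) * (W0 / N / 4) = W0 / 4 := by field_simp
    have e4 : X * Y * W ≤ X * Y * Wr + 3 / 20 * W0 := by
      have h1 : X * Y ≤ N * N := mul_le_mul hXN hYN hY0 hN0.le
      have h0 : 0 ≤ X * Y := mul_nonneg hX0 hY0
      have h2 : X * Y * W ≤ X * Y * (Wr * (1 + 3 / 20 / N ^ 2)) := mul_le_mul_of_nonneg_left hWr h0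
      have h3 : X * Y * (Wr * (3 / 20 / N ^ 2)) ≤ N * N * (W0 * (3 / 20 / N ^ 2)) := by
        apply mul_le_mul h1 _ (by positivity) (by positivity)
        gcongr
      have h4 : (N : ℝ) * N * (W0 * (3 / 20 / N ^ 2)) = 3 / 20 * W0 := by field_simp
      have h5 : X * Y * (Wr * (1 + 3 / 20 / N ^ 2)) = X * Y * Wr + X * Y * (Wr * (3 / 20 / N ^ 2)) := by ring
      linarith
    have e5 : 1 / (N : ℝ) ≤ 1 / 16 := by gcongr
    have e6 : W0 * (15 / 16) ≤ W := by
      refine le_trans ?_ hWl
      apply mul_le_mul_of_nonneg_left _ hW0p.le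
      linarith
    rw [e3] at e1 e2
    linarith
  · have h0 : ev M (fun r => Kv N ((a + r) / M) ((a + d + b + r) / M - (a + d + r) / M) (m - (a + d + b + r) / M)) ≤ 0 := by
      rw [← ev_const hM (0 : ℝ)]
      apply ev_mono
      intro r hr
      unfold Kv
      split_ifs with h
      · obtain ⟨h1, h2⟩ := h
        have h3 : ((N : ℝ) - (((a + r) / M : ℕ) : ℝ)) * ((N : ℝ) - (((a + d + b + r) / M - (a + d + r) / M : ℕ) : ℝ)) = 0 := by
          rw [not_and_or, not_lt, not_lt] at hcase
          rcases hcase with h4 | h4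
          · have h5 : (a + r) / M = N := by
              rcases fl_two hM a hr with h6 | h6 <;> omega
            rw [h5]; simp
          · have h5 : (a + d + b + r) / M - (a + d + r) / M = N := by
              have h7 : (a + d + b + r) / M - (a + d + r) / M = b / M ∨
                  (a + d + b + r) / M - (a + d + r) / M = b / M + 1 := by
                rw [fl_sub hM (a + d) b r]
                exact fl_two hM b (Nat.mod_lt _ hM)
              rcases h7 with h6 | h6 <;> omega
            rw [h5]; simp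
        rw [h3]
        have := exp_pos (-((m - (a + d + b + r) / M : ℕ) : ℝ) / N)
        linarith
      · exact le_rfl
    refine h0.trans ?_
    positivity

end Run7.h391
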