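import Mathlib

/-!
Rounding with a common shift.
-/

namespace Run7.h391

open Finset

/-- average over the shifts `0, …, M - 1` -/
noncomputable def ev (M : ℕ) (f : ℕ → ℝ) : ℝ := (∑ r ∈ range M, f r) / M

theorem ev_add (M : ℕ) (f g : ℕ → ℝ) : ev M (fun r => f r + g r) = ev M f + ev M g := by
  unfold ev; rw [sum_add_distrib, add_div]

theorem ev_sub (M : ℕ) (f g : ℕ → ℝ) : ev M (fun r => f r - g r) = ev M f - ev M g := by
  unfold ev; rw [sum_sub_distrib, sub_div]

theorem ev_mul_left (M : ℕ) (c : ℝ) (f : ℕ → ℝ) : ev M (fun r => c * f r) = c * ev M f := by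
  unfold ev; rw [← mul_sum, mul_div_assoc]

theorem ev_mul_right (M : ℕ) (c : ℝ) (f : ℕ → ℝ) : ev M (fun r => f r * c) = ev M f * c := by
  unfold ev; rw [← sum_mul]; ring

theorem ev_const {M : ℕ} (hM : 0 < M) (c : ℝ) : ev M (fun _ => c) = c := by
  unfold ev
  have : (M : ℝ) ≠ 0 := by exact_mod_cast hM.ne'
  rw [sum_const, card_range, nsmul_eq_mul]; field_simp

theorem ev_mono {M : ℕ} {f g : ℕ → ℝ} (h : ∀ r < M, f r ≤ g r) : ev M f ≤ ev M g := by
  unfold ev
  apply div_le_div_of_nonneg_right _ (by positivity)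
  exact sum_le_sum fun r hr => h r (mem_range.1 hr)

theorem ev_congr {M : ℕ} {f g : ℕ → ℝ} (h : ∀ r < M, f r = g r) : ev M f = ev M g := by
  unfold ev
  rw [sum_congr rfl fun r hr => h r (mem_range.1 hr)]

theorem ev_nonneg {M : ℕ} {f : ℕ → ℝ} (h : ∀ r < M, 0 ≤ f r) : 0 ≤ ev M f := by
  unfold ev
  apply div_nonneg _ (by positivity)
  exact sum_nonneg fun r hr => h r (mem_range.1 hr)

theorem ev_sum {ι : Type*} (s : Finset ι) (M : ℕ) (f : ι → ℕ → ℝ) :
    ev M (fun r => ∑ i ∈ s, f i r) = ∑ i ∈ s, ev M (f i) := by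
  unfold ev
  rw [sum_comm, sum_div]

/-- average of a function of the rounded value -/
noncomputable def bar (M : ℕ) (φ : ℕ → ℝ) (x : ℕ) : ℝ := ev M fun r => φ ((x + r) / M)

theorem sum_mod_shift {M : ℕ} (hM : 0 < M) (ψ : ℕ → ℝ) (x : ℕ) :
    ∑ r ∈ range M, ψ ((x + r) % M) = ∑ r ∈ range M, ψ r := by
  induction x with
  | zero =>
    apply sum_congr rfl
    intro r hr
    rw [zero_add, Nat.mod_eq_of_lt (mem_range.1 hr)]
  | succ x ih =>
    have h1 := sum_range_succ' (fun r => ψ ((x + r) % M)) M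
    have h2 := sum_range_succ (fun r => ψ ((x + r) % M)) M
    simp only [add_zero, Nat.add_mod_right] at h1 h2
    have h3 : ∑ r ∈ range M, ψ ((x + 1 + r) % M) = ∑ r ∈ range M, ψ ((x + (r + 1)) % M) := by
      apply sum_congr rfl
      intro r _
      rw [show x + 1 + r = x + (r + 1) by ring]
    rw [h3, ← ih]
    linarith

theorem fl_sub {M : ℕ} (hM : 0 < M) (x d r : ℕ) :
    (x + d + r) / M - (x + r) / M = (d + (x + r) % M) / M := by
  have h1 : x + d + r = M * ((x + r) / M) + (d + (x + r) % M) := by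
    have := Nat.div_add_mod (x + r) M
    omega
  rw [h1, Nat.mul_add_div hM, Nat.add_sub_cancel_left]

theorem fl_le {M : ℕ} (x d r : ℕ) : (x + r) / M ≤ (x + d + r) / M :=
  Nat.div_le_div_right (by omega)

theorem ev_fl_sub {M : ℕ} (hM : 0 < M) (φ : ℕ → ℝ) (x d : ℕ) :
    ev M (fun r => φ ((x + d + r) / M - (x + r) / M)) = bar M φ d := by
  unfold bar ev
  congr 1
  rw [← sum_mod_shift hM (fun r => φ ((d + r) / M)) x]
  apply sum_congr rfl
  intro r _
  show φ ((x + d + r) / M - (x + r) / M) = φ ((d + (x + r) % M) / M)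
  rw [fl_sub hM]

theorem sum_fl {M : ℕ} (hM : 0 < M) (x : ℕ) : ∑ r ∈ range M, (x + r) / M = x := by
  induction x with
  | zero =>
    apply sum_eq_zero
    intro r hr
    rw [zero_add]; exact Nat.div_eq_of_lt (mem_range.1 hr)
  | succ x ih =>
    have h1 := sum_range_succ' (fun r => (x + r) / M) M
    have h2 := sum_range_succ (fun r => (x + r) / M) M
    simp only [add_zero, Nat.add_div_right _ hM] at h1 h2
    have h3 : ∑ r ∈ range M, (x + 1 + r) / M = ∑ r ∈ range M, (x + (r + 1)) / M := by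
      apply sum_congr rfl
      intro r _
      rw [show x + 1 + r = x + (r + 1) by ring]
    rw [h3]
    omega

theorem bar_id {M : ℕ} (hM : 0 < M) (x : ℕ) : bar M (fun i => (i : ℝ)) x = x / M := by
  unfold bar ev
  congr 1
  rw [← Nat.cast_sum, sum_fl hM]

theorem fl_two {M : ℕ} (hM : 0 < M) (x : ℕ) {r : ℕ} (hr : r < M) :
    (x + r) / M = x / M ∨ (x + r) / M = x / M + 1 := by
  have h1 : x + r = M * (x / M) + (x % M + r) := by
    have := Nat.div_add_mod x M
    omega
  have h2 : x % M < M := Nat.mod_lt _ hM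
  have h3 : (x % M + r) / M < 2 := by
    rw [Nat.div_lt_iff_lt_mul hM]; omega
  have h6 : (x + r) / M = x / M + (x % M + r) / M := by
    conv_lhs => rw [h1]
    rw [Nat.mul_add_div hM]
  rw [h6]
  generalize (x % M + r) / M = k at *
  omega

/-- the cell of `x`, cut at `m` -/
def cell (M m x : ℕ) : ℕ := min (x / M) (m - 1)

theorem fl_cell {M m x : ℕ} (hM : 0 < M) (hm : 0 < m) (hx : x ≤ m * M) {r : ℕ} (hr : r < M) :
    (x + r) / M = cell M m x ∨ (x + r) / M = cell M m x + 1 := by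
  have h1 := fl_two hM x hr
  have h2 : (x + r) / M ≤ m := by
    have : (x + r) / M < m + 1 := by
      rw [Nat.div_lt_iff_lt_mul hM, add_mul]; omega
    omega
  have h3 : x / M ≤ m := (Nat.div_le_div_right (Nat.le_add_right x r)).trans h2
  unfold cell
  omega

theorem fl_le_m {M m x : ℕ} (hM : 0 < M) (hx : x ≤ m * M) {r : ℕ} (hr : r < M) :
    (x + r) / M ≤ m := by
  have : (x + r) / M < m + 1 := by
    rw [Nat.div_lt_iff_lt_mul hM, add_mul]; omega
  omega

/-- variance of a quantity with two values -/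
theorem ev_var {M : ℕ} (hM : 0 < M) {f : ℕ → ℝ} {p δ : ℝ} (h : ∀ r < M, f r = p ∨ f r = p + δ) :
    ev M (fun r => (f r - ev M f) ^ 2) ≤ δ ^ 2 / 4 := by
  set e := ev M f with he
  have h1 : ∀ r < M, (f r - e) ^ 2 = (2 * p + δ - 2 * e) * (f r) - p * (p + δ) + e ^ 2 := by
    intro r hr
    rcases h r hr with h | h <;> rw [h] <;> ring
  rw [ev_congr h1]
  have h2 : ev M (fun r => (2 * p + δ - 2 * e) * (f r) - p * (p + δ) + e ^ 2)
      = (2 * p + δ - 2 * e) * e - p * (p + δ) + e ^ 2 := by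
    rw [ev_add, ev_sub, ev_mul_left, ev_const hM, ev_const hM]
  rw [h2]
  nlinarith [sq_nonneg (2 * (e - p) - δ)]

/-- covariance bound -/
theorem ev_cov {M : ℕ} (hM : 0 < M) {f g : ℕ → ℝ} {p δ p' δ' : ℝ} (h : ∀ r < M, f r = p ∨ f r = p + δ)
    (h' : ∀ r < M, g r = p' ∨ g r = p' + δ') :
    |ev M (fun r => f r * g r) - ev M f * ev M g| ≤ (δ ^ 2 + δ' ^ 2) / 8 := by
  have h1 := ev_var hM h
  have h2 := ev_var hM h'
  set e := ev M f with he
  set e' := ev M g with he'
  have h3 : ev M (fun r => f r * g r) - e * e' = ev M (fun r => (f r - e) * (g r - e')) := by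
    have : ∀ r < M, (f r - e) * (g r - e') = f r * g r - e' * f r - e * g r + e * e' := by
      intro r _; ring
    rw [ev_congr this, ev_add, ev_sub, ev_sub, ev_mul_left, ev_mul_left, ev_const hM]
    ring
  have h4 : ev M (fun r => (f r - e) * (g r - e')) ≤ ev M (fun r => (f r - e) ^ 2) / 2
      + ev M (fun r => (g r - e') ^ 2) / 2 := by
    have : ev M (fun r => (f r - e) * (g r - e')) ≤ ev M (fun r => (f r - e) ^ 2 * (1 / 2) + (g r - e') ^ 2 * (1 / 2)) :=
      ev_mono fun r _ => by nlinarith [sq_nonneg ((f r - e) - (g r - e'))]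
    rw [ev_add, ev_mul_right, ev_mul_right] at this
    linarith
  have h5 : -(ev M (fun r => (f r - e) ^ 2) / 2 + ev M (fun r => (g r - e') ^ 2) / 2)
      ≤ ev M (fun r => (f r - e) * (g r - e')) := by
    have : ev M (fun r => (f r - e) ^ 2 * (-1 / 2) + (g r - e') ^ 2 * (-1 / 2))
        ≤ ev M (fun r => (f r - e) * (g r - e')) :=
      ev_mono fun r _ => by nlinarith [sq_nonneg ((f r - e) + (g r - e'))]
    rw [ev_add, ev_mul_right, ev_mul_right] at this
    linarith
  rw [h3, abs_le]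
  constructor <;> linarith

/-- the covariance of the value and a function of it -/
theorem ev_cov_id {M : ℕ} (hM : 0 < M) {f g : ℕ → ℝ} {p p' δ' : ℝ} 
    (h : ∀ r < M, (f r = p ∧ g r = p') ∨ (f r = p + 1 ∧ g r = p' + δ')) :
    |ev M (fun r => f r * g r) - ev M f * ev M g| ≤ |δ'| / 4 := by
  have hf : ∀ r < M, f r = p ∨ f r = p + 1 := fun r hr => (h r hr).imp And.left And.left
  have h1 := ev_var hM hf
  set e := ev M f with he
  have hg : ∀ r < M, g r = p' + δ' * (f r - p) := by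
    intro r hr
    rcases h r hr with ⟨h, h'⟩ | ⟨h, h'⟩ <;> rw [h, h'] <;> ring
  have heg : ev M g = p' + δ' * (e - p) := by
    rw [ev_congr hg, ev_add, ev_mul_left, ev_sub, ev_const hM, ev_const hM]
  have h3 : ev M (fun r => f r * g r) - e * ev M g = δ' * ev M (fun r => (f r - e) ^ 2) := by
    have h4 : ∀ r < M, f r * g r = δ' * (f r - e) ^ 2 + (2 * δ' * e + p' - δ' * p) * f r - δ' * e ^ 2 := by
      intro r hr
      rw [hg r hr]; ring
    rw [ev_congr h4, ev_sub, ev_add, ev_mul_left, ev_mul_left, ev_const hM, heg]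
    ring
  have h5 : 0 ≤ ev M (fun r => (f r - e) ^ 2) := ev_nonneg fun r _ => sq_nonneg _
  rw [h3, abs_mul, abs_of_nonneg h5]
  have : |δ'| * ev M (fun r => (f r - e) ^ 2) ≤ |δ'| * ((1 : ℝ) ^ 2 / 4) :=
    mul_le_mul_of_nonneg_left h1 (abs_nonneg _)
  linarith

end Run7.h391
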