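import Pool.Agent.Run7.h391.TimeBound

/-!
From the probabilities at the times of a grid to the sum of all of them.
-/

namespace Run7.h391

open Finset MeasureTheory

variable {n : ℕ}

theorem missProb_antitone (D : Measure (Schedule n)) [IsProbabilityMeasure D] :
    Antitone (missProb D) := by
  intro k l h
  unfold missProb
  apply div_le_div_of_nonneg_right _ (by positivity)
  apply sum_le_sum
  intro τ _
  apply measureReal_mono
  · intro p hp t ht
    exact hp t (ht.trans_le h)
  · exact measure_ne_top _ _

theorem missProb_nonneg (D : Measure (Schedule n)) (k : ℕ) : 0 ≤ missProb D k := by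
  unfold missProb
  apply div_nonneg _ (by positivity)
  exact sum_nonneg fun _ _ => measureReal_nonneg

theorem missProb_zero (D : Measure (Schedule n)) [IsProbabilityMeasure D] : missProb D 0 = 1 := by
  unfold missProb
  have : ∀ τ : Equiv.Perm (Fin n), (D.prod D).real {p | ∀ t < 0, p.1 t ≠ τ (p.2 t)} = 1 := by
    intro τ
    have h : {p : Schedule n × Schedule n | ∀ t < 0, p.1 t ≠ τ (p.2 t)} = Set.univ := by
      ext p; simp
    rw [h]; simp
  rw [sum_congr rfl fun τ _ => this τ, sum_const, card_univ, Fintype.card_perm, Fintype.card_fin,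
    nsmul_eq_mul, mul_one, div_self]
  exact_mod_cast n.factorial_ne_zero

theorem missProb_drop (hn : 0 < n) (D : Measure (Schedule n)) [IsProbabilityMeasure D] (k : ℕ) :
    missProb D k ≤ missProb D (k + 1) + 1 / n := by
  classical
  have hn0 : (0 : ℝ) < n := by exact_mod_cast hn
  have hf0 : (0 : ℝ) < n.factorial := by exact_mod_cast n.factorial_pos
  have h1 := missProb_eq_hor (K := k + 1) D (Nat.le_succ k)
  have h2 := missProb_eq_hor (K := k + 1) D (le_refl (k + 1))
  have h3 : ∀ u v : Fin (k + 1) → Fin n, (av ((per (k + 1) k).image (gr u v)) : ℝ)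
      ≤ av ((per (k + 1) (k + 1)).image (gr u v)) + n.factorial / n := by
    intro u v
    have h4 : (per (k + 1) (k + 1)).image (gr u v) ⊆ insert (gr u v (Fin.last k)) ((per (k + 1) k).image (gr u v)) := by
      intro f hf
      obtain ⟨s, hs, rfl⟩ := mem_image.1 hf
      rw [mem_insert]
      by_cases h5 : s = Fin.last k
      · left; rw [h5]
      · right
        apply mem_image_of_mem
        unfold per
        rw [mem_filter]
        refine ⟨mem_univ _, ?_⟩
        have := Fin.val_lt_last h5
        exact this
    have h5 := av_insert (gr u v (Fin.last k)) ((per (k + 1) k).image (gr u v))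
    have h6 := av_mono h4
    have h7 : (n : ℝ) * hv (gr u v (Fin.last k)) ((per (k + 1) k).image (gr u v)) ≤ n.factorial := by
      have h8 := hv_mul_le (gr u v (Fin.last k)) (∅ : Finset (Fin n × Fin n)) (r := 0) (c := 0) (by simp) (by simp)
      rw [av_empty] at h8
      have h9 : hv (gr u v (Fin.last k)) ((per (k + 1) k).image (gr u v)) ≤ hv (gr u v (Fin.last k)) ∅ := by
        unfold hv
        apply card_le_card
        intro τ hτ
        rw [mem_filter] at hτ ⊢
        exact ⟨mem_univ _, hτ.2.1, fun f hf => absurd hf (notMem_empty f)⟩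
      have h10 : n * hv (gr u v (Fin.last k)) ((per (k + 1) k).image (gr u v)) ≤ n.factorial := by
        calc _ ≤ n * hv (gr u v (Fin.last k)) ∅ := Nat.mul_le_mul_left _ h9
          _ = (n - 0 - 0) * hv (gr u v (Fin.last k)) ∅ := by simp
          _ ≤ _ := h8
      exact_mod_cast h10
    have h11 : (hv (gr u v (Fin.last k)) ((per (k + 1) k).image (gr u v)) : ℝ) ≤ n.factorial / n := by
      rw [le_div_iff₀ hn0, mul_comm]; exact h7
    have h5' : (av (insert (gr u v (Fin.last k)) ((per (k + 1) k).image (gr u v))) : ℝ)
        + hv (gr u v (Fin.last k)) ((per (k + 1) k).image (gr u v)) = av ((per (k + 1) k).image (gr u v)) := by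
      exact_mod_cast h5
    have h6' : (av (insert (gr u v (Fin.last k)) ((per (k + 1) k).image (gr u v))) : ℝ)
        ≤ av ((per (k + 1) (k + 1)).image (gr u v)) := by exact_mod_cast h6
    linarith
  have h4 : missProb D k * n.factorial ≤ (missProb D (k + 1) + 1 / n) * n.factorial := by
    rw [h1, add_mul, h2]
    have h5 : ∑ u : Fin (k + 1) → Fin n, ∑ v : Fin (k + 1) → Fin n,
        pw D (k + 1) u * pw D (k + 1) v * (av ((per (k + 1) k).image (gr u v)) : ℝ)
        ≤ ∑ u : Fin (k + 1) → Fin n, ∑ v : Fin (k + 1) → Fin n,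
        pw D (k + 1) u * pw D (k + 1) v * ((av ((per (k + 1) (k + 1)).image (gr u v)) : ℝ) + n.factorial / n) :=
      sum_le_sum fun u _ => sum_le_sum fun v _ =>
        mul_le_mul_of_nonneg_left (h3 u v) (mul_nonneg (pw_nonneg D _ u) (pw_nonneg D _ v))
    refine h5.trans (le_of_eq ?_)
    have hp := pw_sum D (k + 1)
    simp only [mul_add, sum_add_distrib]
    congr 1
    rw [← sum_congr rfl fun u _ => sum_congr rfl fun v _ => mul_comm _ _]
    simp only [← mul_sum, ← sum_mul]
    rw [hp]
    simp only [mul_one]
    ring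
  exact le_of_mul_le_mul_right h4 hf0

theorem missProb_slope (hn : 0 < n) (D : Measure (Schedule n)) [IsProbabilityMeasure D] (k i : ℕ) :
    missProb D k - i / n ≤ missProb D (k + i) := by
  induction i with
  | zero => simp
  | succ i ih =>
    have := missProb_drop hn D (k + i)
    push_cast
    rw [show k + (i + 1) = k + i + 1 by ring, add_div]
    linarith

/-- the periods close to period `T` -/
theorem chunk_sum (hn : 0 < n) (D : Measure (Schedule n)) [IsProbabilityMeasure D] (a x y : ℕ) :
    ((x : ℝ) + y) * missProb D (a + x) - (y : ℝ) ^ 2 / (2 * n)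
      ≤ ∑ k ∈ range (x + y), missProb D (a + k) := by
  have hn0 : (0 : ℝ) < n := by exact_mod_cast hn
  rw [sum_range_add]
  have h1 : (x : ℝ) * missProb D (a + x) ≤ ∑ k ∈ range x, missProb D (a + k) := by
    have : ∑ k ∈ range x, missProb D (a + x) ≤ ∑ k ∈ range x, missProb D (a + k) :=
      sum_le_sum fun k hk => missProb_antitone D (by have := mem_range.1 hk; omega)
    rw [sum_const, card_range, nsmul_eq_mul] at this
    exact this
  have h2 : ∀ y : ℕ, (y : ℝ) * missProb D (a + x) - (y : ℝ) ^ 2 / (2 * n)
      ≤ ∑ k ∈ range y, missProb D (a + (x + k)) := by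
    intro y
    induction y with
    | zero => simp
    | succ y ih =>
      rw [sum_range_succ]
      have h3 := missProb_slope hn D (a + x) y
      rw [add_assoc] at h3
      have h4 : (((y + 1 : ℕ) : ℝ)) ^ 2 / (2 * n) = (y : ℝ) ^ 2 / (2 * n) + y / n + 1 / (2 * n) := by
        push_cast; field_simp; ring
      have h5 : (0 : ℝ) < 1 / (2 * n) := by positivity
      rw [h4]
      push_cast
      rw [add_mul, one_mul]
      linarith
  have := h2 y
  linarith

/-- average over multiples -/
theorem sum_range_mul_block (M : ℕ) (f : ℕ → ℝ) (g : ℕ) :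
    ∑ r ∈ range (g * M), f r = ∑ s ∈ range g, ∑ r ∈ range M, f (s * M + r) := by
  induction g with
  | zero => simp
  | succ g ih => rw [add_mul, one_mul, sum_range_add, ih, sum_range_succ]

theorem bar_mul {M g : ℕ} (hM : 0 < M) (φ : ℕ → ℝ) (x : ℕ) :
    bar (g * M) φ x = bar M (bar g φ) x := by
  unfold bar ev
  rw [sum_range_mul_block, sum_comm, ← sum_div]
  push_cast
  rw [div_div]
  congr 1
  apply sum_congr rfl
  intro r _
  apply sum_congr rfl
  intro s _
  congr 1
  rw [show x + (s * M + r) = (x + r) + M * s by ring, mul_comm g M, ← Nat.div_div_eq_div_mul,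
    Nat.add_mul_div_left _ _ hM]

end Run7.h391
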