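import Pool.Agent.Run7.h391.Assemble

/-!
Tables of the exponential function.
-/

namespace Run7.h391

open Finset

/-- check of a table -/
def tableChk (S A B m : ℕ) (E : List ℕ) : Bool :=
  (List.range (m + 1)).all fun z => Nat.ble (E.getD z 0 * (10 ^ 20) ^ z) (S * A ^ z)
    && Nat.ble (S * B ^ z) ((E.getD z 0 + 1) * (10 ^ 20) ^ z)

theorem table_ok {S N m A B : ℕ} {E : List ℕ} (hN : 0 < N)
    (hA : (A : ℝ) / 10 ^ 20 ≤ Real.exp (-1 / N)) (hB : Real.exp (-1 / N) ≤ (B : ℝ) / 10 ^ 20)
    (h : tableChk S A B m E = true) : TableOK S N m E := by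
  intro z hz
  unfold tableChk at h
  rw [List.all_eq_true] at h
  have h1 := h z (List.mem_range.2 (by omega))
  rw [Bool.and_eq_true] at h1
  obtain ⟨h2, h3⟩ := h1
  have h2' : (E.getD z 0 : ℝ) * (10 ^ 20) ^ z ≤ S * (A : ℝ) ^ z := by
    exact_mod_cast Nat.le_of_ble_eq_true h2
  have h3' : (S : ℝ) * (B : ℝ) ^ z ≤ ((E.getD z 0 : ℝ) + 1) * (10 ^ 20) ^ z := by
    exact_mod_cast Nat.le_of_ble_eq_true h3
  have hN0 : (N : ℝ) ≠ 0 := by exact_mod_cast hN.ne'
  have h4 : Real.exp (-(z : ℝ) / N) = Real.exp (-1 / N) ^ z := by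
    rw [← Real.exp_nat_mul]
    congr 1
    field_simp
  rw [h4]
  have hp : (0 : ℝ) < (10 ^ 20) ^ z := by positivity
  have h5 : ((A : ℝ) / 10 ^ 20) ^ z ≤ Real.exp (-1 / N) ^ z := pow_le_pow_left₀ (by positivity) hA z
  have h6 : Real.exp (-1 / N) ^ z ≤ ((B : ℝ) / 10 ^ 20) ^ z := pow_le_pow_left₀ (Real.exp_pos _).le hB z
  rw [div_pow] at h5 h6
  constructor
  · calc (E.getD z 0 : ℝ) ≤ S * (A : ℝ) ^ z / (10 ^ 20) ^ z := by rw [le_div_iff₀ hp]; exact h2'
      _ = S * ((A : ℝ) ^ z / (10 ^ 20) ^ z) := by ring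
      _ ≤ _ := mul_le_mul_of_nonneg_left h5 (Nat.cast_nonneg _)
  · calc (S : ℝ) * Real.exp (-1 / N) ^ z ≤ S * ((B : ℝ) ^ z / (10 ^ 20) ^ z) :=
          mul_le_mul_of_nonneg_left h6 (Nat.cast_nonneg _)
      _ = S * (B : ℝ) ^ z / (10 ^ 20) ^ z := by ring
      _ ≤ _ := by rw [div_le_iff₀ hp]; exact h3'

/-- table for `N = 64` -/
def tab64 : List ℕ := [268435456, 264273749, 260176565, 256142901, 252171773, 248262212, 244413264, 240623987, 236893458, 233220765, 229605012, 226045317, 222540809, 219090633, 215693948, 212349923, 209057743, 205816603, 202625712, 199484292, 196391574, 193346805, 190349241, 187398149, 184492810, 181632515, 178816563, 176044270, 173314956, 170627957, 167982615, 165378286, 162814334, 160290131, 157805063, 155358523, 152949912, 150578643, 148244138, 145945825, 143683145, 141455544, 139262479, 137103415, 134977823, 132885186, 130824992, 128796739, 126799930, 124834080, 122898707, 120993339, 119117511, 117270765, 115452650, 113662723, 111900546, 110165689, 108457728, 106776247,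 105120834, 103491087, 101886606, 100307001, 98751885]

theorem exp64 : ((98449643700540840597 : ℕ) : ℝ) / 10 ^ 20 ≤ Real.exp (-1 / (64 : ℕ)) ∧
    Real.exp (-1 / (64 : ℕ)) ≤ ((98449643700540840600 : ℕ) : ℝ) / 10 ^ 20 := by
  have h := Real.exp_bound (x := -1 / 64) (by rw [abs_le]; constructor <;> norm_num) (n := 11) (by norm_num)
  rw [abs_le] at h
  simp only [sum_range_succ, sum_range_zero, Nat.factorial, abs_div, abs_neg, abs_one] at h
  norm_num at h
  push_cast
  constructor <;> [linarith [h.1]; linarith [h.2]]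

theorem tabOK64 : TableOK ((2 ^ 28 : ℕ) : ℝ) 64 64 tab64 :=
  table_ok (by norm_num) exp64.1 exp64.2 (by decide +kernel)

/-- table for `N = 32` -/
def tab32 : List ℕ := [268435456, 260176565, 252171773, 244413264, 236893458, 229605012, 222540809, 215693948, 209057743, 202625712, 196391574, 190349241, 184492810, 178816563, 173314956, 167982615, 162814334, 157805063, 152949912, 148244138, 143683145, 139262479, 134977823, 130824992, 126799930, 122898707, 119117511, 115452650, 111900546, 108457728, 105120834, 101886606, 98751885, 95713609, 92768811, 89914614, 87148233, 84466963, 81868188, 79349369, 76908045, 74541833, 72248422, 70025572, 67871112, 65782937, 63759009, 61797350, 59896046, 58053238, 56267128, 54535970, 52858075, 51231803, 49655566, 48127825, 46647087, 45211907, 43820883, 42472656, 41165910, 39899368, 38671794, 37481988, 36328788, 35211069, 34127738, 33077738, 32060043, 31073659, 30117623, 29191001, 28292888, 27422408, 26578709, 25760968, 24968386, 24200190, 23455628, 22733974, 22034524,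 21356593, 20699519, 20062662, 19445399, 18847127, 18267262, 17705237, 17160504, 16632531, 16120802, 15624817, 15144092, 14678157, 14226557, 13788852, 13364614, 12953428, 12554893, 12168619, 11794230, 11431360, 11079654, 10738769, 10408372, 10088140, 9777760, 9476930, 9185356, 8902752, 8628843, 8363361, 8106048, 7856651, 7614927, 7380641, 7153562, 6933470, 6720150, 6513392, 6312996, 6118766, 5930511, 5748049, 5571200, 5399792, 5233658, 5072635, 4916566]

theorem exp32 : ((96923323447634408183 : ℕ) : ℝ) / 10 ^ 20 ≤ Real.exp (-1 / (32 : ℕ)) ∧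
    Real.exp (-1 / (32 : ℕ)) ≤ ((96923323447634408186 : ℕ) : ℝ) / 10 ^ 20 := by
  have h := Real.exp_bound (x := -1 / 32) (by rw [abs_le]; constructor <;> norm_num) (n := 11) (by norm_num)
  rw [abs_le] at h
  simp only [sum_range_succ, sum_range_zero, Nat.factorial, abs_div, abs_neg, abs_one] at h
  norm_num at h
  push_cast
  constructor <;> [linarith [h.1]; linarith [h.2]]

theorem tabOK32 : TableOK ((2 ^ 28 : ℕ) : ℝ) 32 128 tab32 :=
  table_ok (by norm_num) exp32.1 exp32.2 (by decide +kernel)

/-- the tables -/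
def tabs (g : ℕ) : List ℕ := bif g == 1 then tab64 else tab32

theorem TableOK.mono {S : ℝ} {N m m' : ℕ} {E : List ℕ} (h : TableOK S N m E) (hm : m' ≤ m) : TableOK S N m' E :=
  fun z hz => h z (hz.trans hm)

/-- the check of the remaining conditions -/
def sideOK (c : Cert) : Bool :=
  (c.g == 1 && (c.N == 64 && (Nat.ble c.m 64 && Nat.ble 1 c.m))) || (c.g == 2 && (c.N == 32 && (Nat.ble c.m 128 && Nat.ble 1 c.m)))

theorem good_of {c : Cert} (h1 : certOK c (tabs c.g) = true) (h2 : sideOK c = true) :
    Good ((2 ^ 28 : ℕ) : ℝ) tabs c := by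
  unfold sideOK at h2
  simp only [Bool.or_eq_true, Bool.and_eq_true, beq_iff_eq] at h2
  rcases h2 with ⟨hg, hN, hm, hm1⟩ | ⟨hg, hN, hm, hm1⟩
  · have hm := Nat.le_of_ble_eq_true hm
    have hm1 := Nat.le_of_ble_eq_true hm1
    refine ⟨h1, ?_, Or.inl hg, by rw [hg, hN], by omega, by rw [hg]; omega⟩
    rw [hg, hN]
    exact tabOK64.mono hm
  · have hm := Nat.le_of_ble_eq_true hm
    have hm1 := Nat.le_of_ble_eq_true hm1
    refine ⟨h1, ?_, Or.inr hg, by rw [hg, hN], by omega, by rw [hg]; omega⟩
    rw [hg, hN]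
    exact tabOK32.mono hm

end Run7.h391
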