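import Pool.Agent.Run7.h391.Expect
import Pool.Agent.Run7.h391.HL2

/-!
A lower bound for the probability of not having met, at a time that is a multiple of the block length.
-/

namespace Run7.h391

open Finset Real MeasureTheory

variable {n K : ℕ}

theorem missProb_eq_hor (D : Measure (Schedule n)) [IsProbabilityMeasure D] {T : ℕ} (hT : T ≤ K) :
    missProb D T * n.factorial
      = ∑ u : Fin K → Fin n, ∑ v : Fin K → Fin n, pw D K u * pw D K v * av ((per K T).image (gr u v)) := by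
  have hn : (n.factorial : ℝ) ≠ 0 := by exact_mod_cast n.factorial_ne_zero
  unfold missProb
  rw [div_mul_cancel₀ _ hn]
  have h1 : ∀ τ : Equiv.Perm (Fin n), (D.prod D).real {p | ∀ t < T, p.1 t ≠ τ (p.2 t)}
      = ∑ u : Fin K → Fin n, ∑ v : Fin K → Fin n,
        if Avoids τ ((per K T).image (gr u v)) then pw D K u * pw D K v else 0 := by
    intro τ
    have h2 : {p : Schedule n × Schedule n | ∀ t < T, p.1 t ≠ τ (p.2 t)}
        = {p | (rest n K p.1, rest n K p.2) ∈ (univ : Finset ((Fin K → Fin n) × (Fin K → Fin n))).filter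
          fun q => Avoids τ ((per K T).image (gr q.1 q.2))} := by
      ext p
      simp only [Set.mem_ofPred_eq, mem_filter, mem_univ, true_and]
      unfold Avoids gr rest per
      simp only [mem_image, mem_filter, mem_univ, true_and, forall_exists_index, and_imp,
        forall_apply_eq_imp_iff₂]
      constructor
      · intro h s hs; exact (h s.1 hs).symm
      · intro h t ht; exact (h ⟨t, ht.trans_le hT⟩ ht).symm
    rw [h2, prod_real_eq, sum_filter, ← univ_product_univ, sum_product]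
  rw [sum_congr rfl fun τ _ => h1 τ, sum_comm]
  apply sum_congr rfl
  intro u _
  rw [sum_comm]
  apply sum_congr rfl
  intro v _
  unfold av
  rw [← sum_filter, sum_const, nsmul_eq_mul, mul_comm]

/-- the heavy periods among the first `T` -/
def hper (w : ℕ) {T : ℕ} (hT : T ≤ K) (u : Fin K → Fin n) : Finset (Fin T) :=
  univ.filter fun s => u (Fin.castLE hT s) ∈ heavy w u

/-- number of heavy periods among the first `T` -/
def hc (w T : ℕ) (u : Fin K → Fin n) : ℕ := ((per K T).filter fun s => u s ∈ heavy w u).card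

theorem card_hper (w : ℕ) {T : ℕ} (hT : T ≤ K) (u : Fin K → Fin n) : (hper w hT u).card = hc w T u := by
  unfold hc
  have : (per K T).filter (fun s => u s ∈ heavy w u) = (hper w hT u).map (Fin.castLEEmb hT) := by
    ext s
    simp only [mem_filter, mem_map, hper, per, mem_univ, true_and, Fin.castLEEmb_apply]
    constructor
    · rintro ⟨h1, h2⟩
      exact ⟨⟨s.1, h1⟩, h2, rfl⟩
    · rintro ⟨t, h1, rfl⟩
      exact ⟨t.2, h1⟩
  rw [this, card_map]

theorem card_setA (w : ℕ) {T : ℕ} (hT : T ≤ K) (u v : Fin K → Fin n) :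
    (setA w T u v).card = (hper w hT u \ hper w hT v).card := by
  have : setA w T u v = (hper w hT u \ hper w hT v).map (Fin.castLEEmb hT) := by
    ext s
    simp only [setA, mem_filter, mem_map, mem_sdiff, hper, per, mem_univ, true_and, Fin.castLEEmb_apply]
    constructor
    · rintro ⟨h1, h2⟩
      exact ⟨⟨s.1, h1⟩, h2, rfl⟩
    · rintro ⟨t, h1, rfl⟩
      exact ⟨t.2, h1⟩
  rw [this, card_map]

theorem card_setB (w : ℕ) {T : ℕ} (hT : T ≤ K) (u v : Fin K → Fin n) :
    (setB w T u v).card = (hper w hT v \ hper w hT u).card := by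
  have : setB w T u v = (hper w hT v \ hper w hT u).map (Fin.castLEEmb hT) := by
    ext s
    simp only [setB, mem_filter, mem_map, mem_sdiff, hper, per, mem_univ, true_and, Fin.castLEEmb_apply]
    constructor
    · rintro ⟨h1, h2, h3⟩
      exact ⟨⟨s.1, h1⟩, ⟨h3, h2⟩, rfl⟩
    · rintro ⟨t, ⟨h1, h2⟩, rfl⟩
      exact ⟨t.2, h2, h1⟩
  rw [this, card_map]

theorem card_setC (w : ℕ) {T : ℕ} (hT : T ≤ K) (u v : Fin K → Fin n) :
    (setC w T u v).card = (univ \ (hper w hT u ∪ hper w hT v)).card := by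
  have : setC w T u v = (univ \ (hper w hT u ∪ hper w hT v)).map (Fin.castLEEmb hT) := by
    ext s
    simp only [setC, mem_filter, mem_map, mem_sdiff, mem_union, hper, per, mem_univ, true_and, Fin.castLEEmb_apply]
    constructor
    · rintro ⟨h1, h2, h3⟩
      exact ⟨⟨s.1, h1⟩, fun h => h.elim h2 h3, rfl⟩
    · rintro ⟨t, h1, rfl⟩
      exact ⟨t.2, fun h => h1 (Or.inl h), fun h => h1 (Or.inr h)⟩
  rw [this, card_map]

/-- the error made in passing from the finite problem to the limit kernel -/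
noncomputable def eta (n K w Q : ℕ) : ℝ :=
  K * max 0 (1 / (((n - 2 * w : ℕ) : ℝ) - 1) - 1 / Q) + ((K : ℝ) / w) ^ 2 / n

theorem eta_nonneg (n K w Q : ℕ) : 0 ≤ eta n K w Q := by
  unfold eta
  have : 0 ≤ max 0 (1 / (((n - 2 * w : ℕ) : ℝ) - 1) - 1 / Q) := le_max_left _ _
  positivity

theorem exp_le_pow {D Q c K : ℕ} (hD : 2 ≤ D) (hc : c ≤ K) :
    exp (-(c : ℝ) / Q) ≤ (1 - 1 / (D : ℝ)) ^ c + K * max 0 (1 / ((D : ℝ) - 1) - 1 / Q) := by
  have hD1 : (1 : ℝ) ≤ (D : ℝ) - 1 := by
    have : (2 : ℝ) ≤ D := by exact_mod_cast hD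
    linarith
  have hD0 : (0 : ℝ) < D := by linarith
  have h1 : exp (-(1 / ((D : ℝ) - 1))) ≤ 1 - 1 / (D : ℝ) := by
    have h2 : 1 / ((D : ℝ) - 1) + 1 ≤ exp (1 / ((D : ℝ) - 1)) := add_one_le_exp _
    have h3 : 1 / ((D : ℝ) - 1) + 1 = D / ((D : ℝ) - 1) := by field_simp; ring
    rw [h3] at h2
    rw [exp_neg, inv_le_comm₀ (exp_pos _) (by
      rw [sub_pos, div_lt_one hD0]; linarith)]
    have h4 : (1 - 1 / (D : ℝ))⁻¹ = D / ((D : ℝ) - 1) := by
      have : (1 - 1 / (D : ℝ)) = ((D : ℝ) - 1) / D := by field_simp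
      rw [this, inv_div]
    rw [h4]; exact h2
  have h5 : exp (-((c : ℝ) / ((D : ℝ) - 1))) ≤ (1 - 1 / (D : ℝ)) ^ c := by
    have : exp (-((c : ℝ) / ((D : ℝ) - 1))) = exp (-(1 / ((D : ℝ) - 1))) ^ c := by
      rw [← exp_nat_mul]; congr 1; ring
    rw [this]
    exact pow_le_pow_left₀ (exp_pos _).le h1 c
  have h6 : exp (-(c : ℝ) / Q) ≤ exp (-((c : ℝ) / ((D : ℝ) - 1))) + K * max 0 (1 / ((D : ℝ) - 1) - 1 / Q) := by
    set x : ℝ := (c : ℝ) / Q with hx
    set y : ℝ := (c : ℝ) / ((D : ℝ) - 1) with hy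
    have hx0 : 0 ≤ x := by rw [hx]; positivity
    have hyx : y - x ≤ K * max 0 (1 / ((D : ℝ) - 1) - 1 / Q) := by
      have : y - x = c * (1 / ((D : ℝ) - 1) - 1 / Q) := by rw [hx, hy]; ring
      rw [this]
      have h7 : (c : ℝ) * (1 / ((D : ℝ) - 1) - 1 / Q) ≤ c * max 0 (1 / ((D : ℝ) - 1) - 1 / Q) :=
        mul_le_mul_of_nonneg_left (le_max_right _ _) (Nat.cast_nonneg c)
      have h8 : (c : ℝ) * max 0 (1 / ((D : ℝ) - 1) - 1 / Q) ≤ K * max 0 (1 / ((D : ℝ) - 1) - 1 / Q) :=
        mul_le_mul_of_nonneg_right (by exact_mod_cast hc) (le_max_left _ _)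
      linarith
    have hxq : -(c : ℝ) / Q = -x := by rw [hx]; ring
    rw [hxq]
    have hmax : 0 ≤ (K : ℝ) * max 0 (1 / ((D : ℝ) - 1) - 1 / Q) :=
      mul_nonneg (Nat.cast_nonneg K) (le_max_left _ _)
    rcases le_total y x with h | h
    · have : exp (-x) ≤ exp (-y) := exp_le_exp.2 (by linarith)
      linarith
    · have h9 : exp (-y) = exp (-x) * exp (-(y - x)) := by rw [← exp_add]; congr 1; ring
      have h10 : -(y - x) + 1 ≤ exp (-(y - x)) := add_one_le_exp _
      have h11 : exp (-x) ≤ 1 := exp_le_one_iff.2 (by linarith)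
      have h12 : exp (-x) * (-(y - x) + 1) ≤ exp (-y) := by
        rw [h9]; exact mul_le_mul_of_nonneg_left h10 (exp_pos _).le
      have h13 : exp (-x) * (y - x) ≤ y - x := by
        have : 0 ≤ y - x := by linarith
        nlinarith
      nlinarith
  linarith

theorem time_bound {ι κ : Type*} [Fintype ι] [Fintype κ] (D : Measure (Schedule n)) [IsProbabilityMeasure D]
    {N M m w : ℕ} (hN : 16 ≤ N) (hM : 0 < M) (hm : 0 < m) (hNM : N * M ≤ n) (hw : 0 < w)
    (hwn : 2 * w + 2 ≤ n) (hT : m * M ≤ K)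
    (ell : ℕ → ℝ) (q : ι → ℕ → ℝ) (g : κ → ℕ → ℝ) (C : κ → ℝ)
    (hC : ∀ l, ∀ i ≤ m, |(i : ℝ) * g l i| ≤ C l)
    (hV : ∀ x t y z : ℕ, x + t + y + z = m →
      ell (x + t) + ell (t + y) + ∑ l, q l (x + t) * q l (t + y)
        + ∑ l, (g l (x + t) * g l (t + y) * (t : ℝ)
          - ((x + t : ℕ) * g l (x + t)) * ((t + y : ℕ) * g l (t + y)) / m) ≤ Kv N x y z)
    (lam : ℕ → ℝ)
    (hlam : ∀ I < m, ∀ i, (i = I ∨ i = I + 1) → lam i ≤ ell i - sErr N m q g I
      - (∑ l, C l * |g l (I + 1) - g l I|) / (4 * m)) :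
    2 * ∑ u, pw D K u * bar M lam (hc w (m * M) u)
      ≤ (N : ℝ) ^ 2 * (missProb D (m * M) + eta n K w (N * M)) := by
  have hn : 0 < n := by omega
  have hn0 : (0 : ℝ) < n := by exact_mod_cast hn
  have hN0 : (0 : ℝ) < N := by exact_mod_cast (by omega : 0 < N)
  have hM0 : (0 : ℝ) < M := by exact_mod_cast hM
  have hw0 : (0 : ℝ) < w := by exact_mod_cast hw
  have hfac : (0 : ℝ) < n.factorial := by exact_mod_cast n.factorial_pos
  have hp := pw_nonneg D K
  have hp1 := pw_sum D K
  have h1 := expect_bound hN hM hm (S := Fin (m * M)) (by rw [Fintype.card_fin]) (pw D K) hp hp1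
    (fun u => hper w hT u) ell q g C hC hV lam hlam
  simp only [card_hper] at h1
  refine h1.trans ?_
  -- compare pair by pair
  have hpair : ∀ u v : Fin K → Fin n,
      max 0 ((N : ℝ) - ((hper w hT u \ hper w hT v).card : ℝ) / M)
        * max 0 ((N : ℝ) - ((hper w hT v \ hper w hT u).card : ℝ) / M)
        * exp (-(((univ \ (hper w hT u ∪ hper w hT v)).card : ℝ) / M) / N)
      ≤ (N : ℝ) ^ 2 * (av ((per K (m * M)).image (gr u v)) / n.factorial + eta n K w (N * M)) := by
    intro u v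
    have h2 := pair_lower (K := K) hn (w := w) (by omega) (m * M) u v
    rw [card_setA w hT, card_setB w hT, card_setC w hT] at h2
    set a := (hper w hT u \ hper w hT v).card
    set b := (hper w hT v \ hper w hT u).card
    set c := (univ \ (hper w hT u ∪ hper w hT v)).card with hcdef
    have hcK : c ≤ K := by
      have : c ≤ Fintype.card (Fin (m * M)) := card_le_univ _
      rw [Fintype.card_fin] at this
      omega
    have hD2 : 2 ≤ n - 2 * w := by omega
    have h3 := exp_le_pow (D := n - 2 * w) (Q := N * M) (c := c) (K := K) hD2 hcK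
    have h4 : exp (-((c : ℝ) / M) / N) = exp (-(c : ℝ) / ((N * M : ℕ) : ℝ)) := by
      congr 1; push_cast; field_simp
    rw [h4]
    have hcmp : ∀ x : ℕ, max 0 ((N : ℝ) - (x : ℝ) / M) ≤ N * max 0 (1 - (x : ℝ) / n) := by
      intro x
      have h5 : (x : ℝ) / n ≤ (x : ℝ) / M / N := by
        rw [div_div]
        apply div_le_div_of_nonneg_left (Nat.cast_nonneg x) (by positivity)
        have : ((N * M : ℕ) : ℝ) ≤ n := by exact_mod_cast hNM
        push_cast at this
        rw [mul_comm]; exact this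
      apply max_le
      · exact mul_nonneg hN0.le (le_max_left _ _)
      · have h6 : (N : ℝ) - (x : ℝ) / M = N * (1 - (x : ℝ) / M / N) := by field_simp
        rw [h6]
        apply mul_le_mul_of_nonneg_left _ hN0.le
        exact le_trans (by linarith) (le_max_right _ _)
    have hXn : 0 ≤ max 0 (1 - (a : ℝ) / n) := le_max_left _ _
    have hYn : 0 ≤ max 0 (1 - (b : ℝ) / n) := le_max_left _ _
    have hX1 : max 0 (1 - (a : ℝ) / n) ≤ 1 := by
      apply max_le zero_le_one
      have : (0 : ℝ) ≤ (a : ℝ) / n := by positivity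
      linarith
    have hY1 : max 0 (1 - (b : ℝ) / n) ≤ 1 := by
      apply max_le zero_le_one
      have : (0 : ℝ) ≤ (b : ℝ) / n := by positivity
      linarith
    set X := max 0 (1 - (a : ℝ) / n)
    set Y := max 0 (1 - (b : ℝ) / n)
    set E := exp (-(c : ℝ) / ((N * M : ℕ) : ℝ))
    set e1 : ℝ := K * max 0 (1 / (((n - 2 * w : ℕ) : ℝ) - 1) - 1 / ((N * M : ℕ) : ℝ))
    set Pw : ℝ := (1 - 1 / ((n - 2 * w : ℕ) : ℝ)) ^ c
    have hE0 : 0 ≤ E := (exp_pos _).le
    have he1 : 0 ≤ e1 := mul_nonneg (Nat.cast_nonneg K) (le_max_left _ _)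
    have h7 : max 0 ((N : ℝ) - (a : ℝ) / M) * max 0 ((N : ℝ) - (b : ℝ) / M) * E ≤ (N * X) * (N * Y) * E := by
      apply mul_le_mul_of_nonneg_right _ hE0
      exact mul_le_mul (hcmp a) (hcmp b) (le_max_left _ _) (mul_nonneg hN0.le hXn)
    have h8 : X * Y * E ≤ X * Y * Pw + e1 := by
      have h9 : X * Y * E ≤ X * Y * (Pw + e1) := mul_le_mul_of_nonneg_left h3 (mul_nonneg hXn hYn)
      have h10 : X * Y * e1 ≤ 1 * e1 :=
        mul_le_mul_of_nonneg_right (mul_le_one₀ hX1 hYn hY1) he1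
      linarith
    have hHu : ((heavy w u).card : ℝ) ≤ K / w := by
      rw [le_div_iff₀ hw0]; exact_mod_cast card_heavy_mul w u
    have hHv : ((heavy w v).card : ℝ) ≤ K / w := by
      rw [le_div_iff₀ hw0]; exact_mod_cast card_heavy_mul w v
    have h11 : ((heavy w u).card * (heavy w v).card : ℝ) / n ≤ ((K : ℝ) / w) ^ 2 / n := by
      apply div_le_div_of_nonneg_right _ hn0.le
      rw [sq]
      exact mul_le_mul hHu hHv (Nat.cast_nonneg _) (by positivity)
    have h12 : X * Y * Pw - ((heavy w u).card * (heavy w v).card : ℝ) / n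
        ≤ av ((per K (m * M)).image (gr u v)) / n.factorial := by
      rw [le_div_iff₀ hfac, mul_comm]; exact h2
    calc _ ≤ (N * X) * (N * Y) * E := h7
      _ = (N : ℝ) ^ 2 * (X * Y * E) := by ring
      _ ≤ (N : ℝ) ^ 2 * (av ((per K (m * M)).image (gr u v)) / n.factorial + eta n K w (N * M)) := by
        apply mul_le_mul_of_nonneg_left _ (by positivity)
        have : eta n K w (N * M) = e1 + ((K : ℝ) / w) ^ 2 / n := rfl
        rw [this]
        linarith
  have hsum : ∑ u, ∑ v, pw D K u * pw D K v *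
      (max 0 ((N : ℝ) - ((hper w hT u \ hper w hT v).card : ℝ) / M)
        * max 0 ((N : ℝ) - ((hper w hT v \ hper w hT u).card : ℝ) / M)
        * exp (-(((univ \ (hper w hT u ∪ hper w hT v)).card : ℝ) / M) / N))
      ≤ ∑ u, ∑ v, pw D K u * pw D K v *
        ((N : ℝ) ^ 2 * (av ((per K (m * M)).image (gr u v)) / n.factorial + eta n K w (N * M))) :=
    sum_le_sum fun u _ => sum_le_sum fun v _ =>
      mul_le_mul_of_nonneg_left (hpair u v) (mul_nonneg (hp u) (hp v))
  refine hsum.trans (le_of_eq ?_)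
  have h13 := missProb_eq_hor D hT
  have h14 : missProb D (m * M) = (∑ u : Fin K → Fin n, ∑ v : Fin K → Fin n,
      pw D K u * pw D K v * av ((per K (m * M)).image (gr u v))) / n.factorial := by
    rw [← h13]; field_simp
  have h15 : ∀ u v : Fin K → Fin n, pw D K u * pw D K v *
        ((N : ℝ) ^ 2 * (av ((per K (m * M)).image (gr u v)) / n.factorial + eta n K w (N * M)))
      = (N : ℝ) ^ 2 / n.factorial * (pw D K u * pw D K v * av ((per K (m * M)).image (gr u v)))
        + (N : ℝ) ^ 2 * eta n K w (N * M) * (pw D K u * pw D K v) := by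
    intro u v; ring
  simp only [h15, sum_add_distrib, ← mul_sum]
  rw [h14, hp1]
  simp only [mul_one]
  rw [hp1]
  ring

end Run7.h391
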